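import Pool.Agent.R410.OR.Tr1

/-!
# Elliptic curves over `𝔽_p`, `p ≡ 1 mod 4`, with rational points of order two are ordinary
-/

set_option autoImplicit false
set_option linter.all false

open Polynomial

namespace Pool.Agent.R410.OR

theorem even_of_inv {α : Type*} (s : Finset α) (σ : α → α) (h1 : ∀ x ∈ s, σ x ∈ s)
    (h2 : ∀ x ∈ s, σ (σ x) = x) (h3 : ∀ x ∈ s, σ x ≠ x) : Even s.card := by
  classical
  have h : ∑ x ∈ s, (1 : ZMod 2) = 0 :=
    Finset.sum_involution (fun x _ => σ x) (fun _ _ => by decide) (fun x hx _ => h3 x hx) h1 h2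
  rw [Finset.sum_const, nsmul_one] at h
  exact (ZMod.natCast_eq_zero_iff_even).1 h

section
variable {p : ℕ} [Fact p.Prime]

theorem ringChar_ne (hp4 : p % 4 = 1) : ringChar (ZMod p) ≠ 2 := by
  rw [ZMod.ringChar_zmod_n]
  omega

theorem two_ne (hp4 : p % 4 = 1) : (2 : ZMod p) ≠ 0 := by
  intro h
  have h1 : ((2 : ℕ) : ZMod p) = 0 := by exact_mod_cast h
  rw [ZMod.natCast_eq_zero_iff] at h1
  have h2 := Nat.le_of_dvd two_pos h1
  have := (Fact.out : p.Prime).two_le
  omega

theorem qc_sq {v : ZMod p} (h : v ≠ 0) : quadraticChar (ZMod p) (v ^ 2) = 1 :=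
  quadraticChar_sq_one' h

theorem qc_zero : quadraticChar (ZMod p) 0 = 0 := quadraticChar_zero

theorem sum_cubic0 (hp4 : p % 4 = 1) {b c : ZMod p} (hb : b ≠ 0) (hc : c ≠ 0) (hbc : b ≠ c) :
    ((∑ x : ZMod p, quadraticChar (ZMod p) (x * (x - b) * (x - c)) : ℤ) : ZMod p) ≠ 0 := by
  classical
  set χ := quadraticChar (ZMod p) with hχ
  set Np : Finset (ZMod p) := Finset.univ.filter fun x => χ (x * (x - b) * (x - c)) = 1 with hNp
  have hval : ∀ x, x ∈ Np → x ≠ 0 ∧ x - b ≠ 0 ∧ x - c ≠ 0 := by
    intro x hx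
    have h1 : χ (x * (x - b) * (x - c)) = 1 := (Finset.mem_filter.1 hx).2
    have h2 : x * (x - b) * (x - c) ≠ 0 := by
      intro h0
      rw [h0, hχ, qc_zero] at h1
      exact zero_ne_one h1
    exact ⟨left_ne_zero_of_mul (left_ne_zero_of_mul h2),
      right_ne_zero_of_mul (left_ne_zero_of_mul h2), right_ne_zero_of_mul h2⟩
  have hev1 : Even (Np.filter fun x => x ^ 2 = b * c).card := by
    refine even_of_inv _ (fun x => -x) ?_ (fun x _ => neg_neg x) ?_
    · intro x hx
      obtain ⟨hx1, hx2⟩ := Finset.mem_filter.1 hx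
      obtain ⟨hx0, -, -⟩ := hval x hx1
      refine Finset.mem_filter.2 ⟨Finset.mem_filter.2 ⟨Finset.mem_univ _, ?_⟩, by rw [neg_sq, hx2]⟩
      have h1 : χ (x * (x - b) * (x - c)) = 1 := (Finset.mem_filter.1 hx1).2
      have h2 : χ (x * (x - b) * (x - c) * (-x * (-x - b) * (-x - c))) = 1 := by
        have e : x * (x - b) * (x - c) * (-x * (-x - b) * (-x - c)) = (x ^ 2 * (b - c)) ^ 2 := by
          linear_combination (-x^6 + x^4*b^2 + x^4*c^2 - x^4*b*c - x^4*b*c + x^4*b*c + x^4*b*c -
            x^2*b*c*x^2 + x^4*b*c) * (0 : ZMod p) + (x^4 * (x^2 - b*c) * 0 + 0) +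
            (- x^4 - 0) * (0 : ZMod p) + (-x^2 * (x^2 * (x^2 - b * c))) * 0 +
            (-(x ^ 4) + x ^ 2 * (b * c)) * hx2
        rw [e]
        exact qc_sq (mul_ne_zero (pow_ne_zero _ hx0) (sub_ne_zero.2 hbc))
      rw [map_mul, h1, one_mul] at h2
      exact h2
    · intro x hx h0
      obtain ⟨hx1, hx2⟩ := Finset.mem_filter.1 hx
      obtain ⟨hx0, -, -⟩ := hval x hx1
      have h1 : (2 : ZMod p) * x = 0 := by linear_combination -h0
      exact (mul_ne_zero (two_ne hp4) hx0) h1
  have hev2 : Even (Np.filter fun x => ¬ x ^ 2 = b * c).card := by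
    refine even_of_inv _ (fun x => b * c / x) ?_ ?_ ?_
    · intro x hx
      obtain ⟨hx1, hx2⟩ := Finset.mem_filter.1 hx
      obtain ⟨hx0, -, -⟩ := hval x hx1
      refine Finset.mem_filter.2 ⟨Finset.mem_filter.2 ⟨Finset.mem_univ _, ?_⟩, ?_⟩
      · have h1 : χ (x * (x - b) * (x - c)) = 1 := (Finset.mem_filter.1 hx1).2
        have e : b * c / x * (b * c / x - b) * (b * c / x - c) =
            (b * c / x ^ 2) ^ 2 * (x * (x - b) * (x - c)) := by
          field_simp
          ring
        rw [e, map_mul, h1, mul_one]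
        exact qc_sq (div_ne_zero (mul_ne_zero hb hc) (pow_ne_zero _ hx0))
      · intro h0
        apply hx2
        rw [div_pow, div_eq_iff (pow_ne_zero _ hx0)] at h0
        have h1 : (b * c) * (x ^ 2 - b * c) = 0 := by linear_combination -h0
        exact sub_eq_zero.1 ((mul_eq_zero.1 h1).resolve_left (mul_ne_zero hb hc))
    · intro x hx
      obtain ⟨hx1, hx2⟩ := Finset.mem_filter.1 hx
      obtain ⟨hx0, -, -⟩ := hval x hx1
      have := mul_ne_zero hb hc
      show b * c / (b * c / x) = x
      field_simp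
    · intro x hx h0
      obtain ⟨hx1, hx2⟩ := Finset.mem_filter.1 hx
      obtain ⟨hx0, -, -⟩ := hval x hx1
      apply hx2
      rw [div_eq_iff hx0] at h0
      linear_combination -h0
  have hev : Even Np.card := by
    rw [← Finset.card_filter_add_card_filter_not (s := Np) (fun x => x ^ 2 = b * c)]
    exact hev1.add hev2
  have hcard : (Finset.univ.filter fun x : ZMod p => x * (x - b) * (x - c) ≠ 0).card + 3 = p := by
    have h1 := Finset.card_filter_add_card_filter_not (s := (Finset.univ : Finset (ZMod p)))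
      (fun x : ZMod p => x * (x - b) * (x - c) ≠ 0)
    have h2 : (Finset.univ.filter fun x : ZMod p => ¬ (x * (x - b) * (x - c) ≠ 0)) = {0, b, c} := by
      ext x
      simp only [Finset.mem_filter, Finset.mem_univ, true_and, not_not, Finset.mem_insert,
        Finset.mem_singleton, mul_eq_zero, sub_eq_zero]
      tauto
    rw [h2, Finset.card_univ, ZMod.card] at h1
    have h3 : ({0, b, c} : Finset (ZMod p)).card = 3 := by
      rw [Finset.card_insert_of_notMem, Finset.card_insert_of_notMem, Finset.card_singleton]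
      · simpa using hbc
      · simp only [Finset.mem_insert, Finset.mem_singleton, not_or]
        exact ⟨hb.symm, hc.symm⟩
    rw [h3] at h1
    exact h1
  have hsum : (∑ x : ZMod p, χ (x * (x - b) * (x - c))) +
      ((Finset.univ.filter fun x : ZMod p => x * (x - b) * (x - c) ≠ 0).card : ℤ) =
      2 * (Np.card : ℤ) := by
    rw [hNp, Finset.card_filter, Finset.card_filter]
    push_cast
    rw [← Finset.sum_add_distrib, Finset.mul_sum]
    refine Finset.sum_congr rfl fun x _ => ?_
    by_cases h0 : x * (x - b) * (x - c) = 0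
    · rw [if_neg (not_not.2 h0), h0, hχ, qc_zero, if_neg zero_ne_one]
      norm_num
    · rw [if_pos h0]
      rcases quadraticChar_dichotomy h0 with h1 | h1
      · rw [← hχ] at h1
        rw [h1, if_pos rfl]
        norm_num
      · rw [← hχ] at h1
        rw [h1, if_neg (by norm_num)]
        norm_num
  have hle : Np.card ≤ (Finset.univ.filter fun x : ZMod p => x * (x - b) * (x - c) ≠ 0).card := by
    apply Finset.card_le_card
    intro x hx
    obtain ⟨h1, h2, h3⟩ := hval x hx
    exact Finset.mem_filter.2 ⟨Finset.mem_univ _, mul_ne_zero (mul_ne_zero h1 h2) h3⟩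
  set s : ℤ := ∑ x : ZMod p, χ (x * (x - b) * (x - c)) with hs
  set T := (Finset.univ.filter fun x : ZMod p => x * (x - b) * (x - c) ≠ 0).card with hT
  obtain ⟨n, hn⟩ := hev
  intro h0
  rw [ZMod.intCast_zmod_eq_zero_iff_dvd] at h0
  have hp3 : 3 ≤ p := by omega
  have habs : |s| < (p : ℤ) := by
    rw [abs_lt]
    constructor <;> omega
  have := Int.eq_zero_of_abs_lt_dvd h0 habs
  omega

theorem sum_cubic (hp4 : p % 4 = 1) {a b c : ZMod p} (hab : a ≠ b) (hac : a ≠ c) (hbc : b ≠ c) :
    ((∑ x : ZMod p, quadraticChar (ZMod p) ((x - a) * (x - b) * (x - c)) : ℤ) : ZMod p) ≠ 0 := by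
  have h1 := sum_cubic0 hp4 (b := b - a) (c := c - a) (sub_ne_zero.2 hab.symm)
    (sub_ne_zero.2 hac.symm) (fun h => hbc (sub_left_injective h))
  rw [← Equiv.sum_comp (Equiv.addRight a)]
  have h2 : ∑ x : ZMod p, quadraticChar (ZMod p) ((Equiv.addRight a x - a) *
      (Equiv.addRight a x - b) * (Equiv.addRight a x - c)) =
      ∑ x : ZMod p, quadraticChar (ZMod p) (x * (x - (b - a)) * (x - (c - a))) := by
    refine Finset.sum_congr rfl fun x _ => ?_
    congr 1
    simp only [Equiv.coe_addRight]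
    ring
  rw [h2]
  exact h1

theorem sum_pow_all (j : ℕ) (hj : j ≠ 0) :
    ∑ x : ZMod p, x ^ j = if p - 1 ∣ j then (-1 : ZMod p) else 0 := by
  classical
  have h1 := FiniteField.sum_pow_units (ZMod p) j
  rw [ZMod.card] at h1
  rw [← h1]
  let φ : (ZMod p)ˣ ↪ ZMod p := ⟨fun x => x, Units.val_injective⟩
  have h2 : Finset.univ.map φ = Finset.univ.erase (0 : ZMod p) := by
    ext x
    simp only [Finset.mem_map, Finset.mem_univ, true_and, Finset.mem_erase, and_true, φ,
      Function.Embedding.coeFn_mk]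
    constructor
    · rintro ⟨u, rfl⟩
      exact u.ne_zero
    · intro h
      exact ⟨Units.mk0 x h, rfl⟩
  have h3 : ∑ x ∈ Finset.univ.erase (0 : ZMod p), x ^ j = ∑ x : ZMod p, x ^ j := by
    apply Finset.sum_erase
    exact zero_pow hj
  rw [← h3, ← h2, Finset.sum_map]
  rfl

theorem sum_poly (hp3 : 3 ≤ p) (P : (ZMod p)[X]) (hP : P.natDegree ≤ 2 * (p - 1)) :
    ∑ x : ZMod p, P.eval x = -P.coeff (p - 1) - P.coeff (2 * (p - 1)) := by
  classical
  have h1 : ∀ x : ZMod p, P.eval x = ∑ j ∈ Finset.range (2 * (p - 1) + 1), P.coeff j * x ^ j :=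
    fun x => eval_eq_sum_range' (Nat.lt_succ_of_le hP) x
  rw [Finset.sum_congr rfl fun x _ => h1 x, Finset.sum_comm]
  have h2 : ∀ j ∈ Finset.range (2 * (p - 1) + 1), ∑ x : ZMod p, P.coeff j * x ^ j =
      (if j = p - 1 then -P.coeff j else 0) + (if j = 2 * (p - 1) then -P.coeff j else 0) := by
    intro j hj
    rw [← Finset.mul_sum]
    have hj' : j < 2 * (p - 1) + 1 := Finset.mem_range.1 hj
    by_cases hj0 : j = 0
    · subst hj0
      rw [if_neg (by omega), if_neg (by omega)]
      simp
    · rw [sum_pow_all j hj0]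
      by_cases hd : p - 1 ∣ j
      · rw [if_pos hd]
        obtain ⟨e, he⟩ := hd
        have he2 : e = 1 ∨ e = 2 := by
          have h3 : e ≠ 0 := fun h => hj0 (by rw [he, h, mul_zero])
          have h4 : e < 3 := by
            by_contra h5
            have : (p - 1) * 3 ≤ (p - 1) * e := Nat.mul_le_mul_left _ (not_lt.1 h5)
            omega
          omega
        rcases he2 with rfl | rfl
        · rw [mul_one] at he
          rw [if_pos he, if_neg (by omega)]
          ring
        · rw [if_neg (by omega), if_pos (by omega)]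
          ring
      · rw [if_neg hd, if_neg (fun h => hd (by rw [h])), if_neg (fun h => hd (by rw [h]; exact Dvd.intro_left _ rfl))]
        simp
  rw [Finset.sum_congr rfl h2, Finset.sum_add_distrib, Finset.sum_ite_eq', Finset.sum_ite_eq',
    if_pos (Finset.mem_range.2 (by omega)), if_pos (Finset.mem_range.2 (by omega))]
  ring

theorem hw_one (f : (ZMod p)[X]) : (hw p 1 f).det = (f ^ ((p - 1) / 2)).coeff (p - 1) := by
  rw [Matrix.det_fin_one]
  show (X ^ (((0 : Fin 1) : ℕ) + 1) * f ^ ((p - 1) / 2)).coeff (p * (((0 : Fin 1) : ℕ) + 1)) = _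
  have hp := (Fact.out : p.Prime).pos
  have h1 : p * (((0 : Fin 1) : ℕ) + 1) = p - 1 + 1 := by
    simp
    omega
  rw [h1]
  have h2 : (X ^ (((0 : Fin 1) : ℕ) + 1) : (ZMod p)[X]) = X := by simp
  rw [h2, coeff_X_mul]

theorem pow_eq_qc (hp4 : p % 4 = 1) (v : ZMod p) :
    v ^ ((p - 1) / 2) = ((quadraticChar (ZMod p) v : ℤ) : ZMod p) := by
  rw [quadraticChar_eq_pow_of_char_ne_two' (ringChar_ne hp4), ZMod.card]
  congr 1
  omega

/-- curves of genus at most one -/
theorem ell (hp4 : p % 4 = 1) (s : Finset (ZMod p)) (hs : s.card ≤ 4) :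
    (hw p ((s.card - 1) / 2) (∏ x ∈ s, (X - C x))).det ≠ 0 := by
  classical
  have hp3 : 3 ≤ p := by
    have := (Fact.out : p.Prime).two_le
    omega
  have hcases : s.card ≤ 2 ∨ s.card = 3 ∨ s.card = 4 := by omega
  rcases hcases with h | h | h
  · have e0 : (s.card - 1) / 2 = 0 := by omega
    rw [e0, Matrix.det_isEmpty]
    exact one_ne_zero
  · obtain ⟨a, b, c, hab, hac, hbc, rfl⟩ := Finset.card_eq_three.1 h
    rw [h, show (3 - 1) / 2 = 1 from rfl, hw_one]
    have hprod : ∏ x ∈ ({a, b, c} : Finset (ZMod p)), (X - C x) =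
        (X - C a) * (X - C b) * (X - C c) := by
      rw [Finset.prod_insert, Finset.prod_insert, Finset.prod_singleton, mul_assoc]
      · simpa using hbc
      · simp only [Finset.mem_insert, Finset.mem_singleton, not_or]
        exact ⟨hab, hac⟩
    rw [hprod]
    set f : (ZMod p)[X] := (X - C a) * (X - C b) * (X - C c) with hf
    have hfd : f.natDegree ≤ 3 := by
      rw [hf]
      compute_degree
    have hfm : (f ^ ((p - 1) / 2)).natDegree ≤ (p - 1) / 2 * 3 :=
      natDegree_pow_le.trans (Nat.mul_le_mul_left _ hfd)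
    have h1 := sum_poly hp3 (f ^ ((p - 1) / 2)) (by omega)
    have h2 : (f ^ ((p - 1) / 2)).coeff (2 * (p - 1)) = 0 := by
      apply coeff_eq_zero_of_natDegree_lt
      omega
    rw [h2, sub_zero] at h1
    have h3 := sum_cubic hp4 hab hac hbc
    intro h0
    rw [h0, neg_zero] at h1
    apply h3
    rw [← h1]
    push_cast
    refine Finset.sum_congr rfl fun x _ => ?_
    rw [← pow_eq_qc hp4, eval_pow, hf]
    simp
  · obtain ⟨a, t, hat, rfl, ht⟩ := Finset.card_eq_succ.1 h
    obtain ⟨b, c, d, hbc, hbd, hcd, rfl⟩ := Finset.card_eq_three.1 ht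
    simp only [Finset.mem_insert, Finset.mem_singleton, not_or] at hat
    obtain ⟨hab, hac, had⟩ := hat
    rw [h, show (4 - 1) / 2 = 1 from rfl, hw_one]
    have hprod : ∏ x ∈ (insert a {b, c, d} : Finset (ZMod p)), (X - C x) =
        (X - C a) * ((X - C b) * (X - C c) * (X - C d)) := by
      rw [Finset.prod_insert, Finset.prod_insert, Finset.prod_insert, Finset.prod_singleton,
        mul_assoc (X - C b)]
      · simpa using hcd
      · simp only [Finset.mem_insert, Finset.mem_singleton, not_or]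
        exact ⟨hbc, hbd⟩
      · simp only [Finset.mem_insert, Finset.mem_singleton, not_or]
        exact ⟨hab, hac, had⟩
    rw [hprod]
    set f : (ZMod p)[X] := (X - C a) * ((X - C b) * (X - C c) * (X - C d)) with hf
    have hfm : f.Monic := by
      rw [hf]
      exact (monic_X_sub_C a).mul (((monic_X_sub_C b).mul (monic_X_sub_C c)).mul (monic_X_sub_C d))
    have hfd : f.natDegree = 4 := by
      rw [hf, (monic_X_sub_C a).natDegree_mul
        (((monic_X_sub_C b).mul (monic_X_sub_C c)).mul (monic_X_sub_C d)),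
        ((monic_X_sub_C b).mul (monic_X_sub_C c)).natDegree_mul (monic_X_sub_C d),
        (monic_X_sub_C b).natDegree_mul (monic_X_sub_C c)]
      simp
    have hfmd : (f ^ ((p - 1) / 2)).natDegree = 2 * (p - 1) := by
      rw [hfm.natDegree_pow, hfd]
      omega
    have h1 := sum_poly hp3 (f ^ ((p - 1) / 2)) hfmd.le
    have h2 : (f ^ ((p - 1) / 2)).coeff (2 * (p - 1)) = 1 := by
      rw [← hfmd]
      exact hfm.pow _
    rw [h2] at h1
    -- the cubic
    have hab' : b - a ≠ 0 := sub_ne_zero.2 fun h => hab h.symm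
    have hac' : c - a ≠ 0 := sub_ne_zero.2 fun h => hac h.symm
    have had' : d - a ≠ 0 := sub_ne_zero.2 fun h => had h.symm
    have h3 := sum_cubic hp4 (a := (b - a)⁻¹) (b := (c - a)⁻¹) (c := (d - a)⁻¹)
      (fun h => hbc (sub_left_injective (inv_injective h)))
      (fun h => hbd (sub_left_injective (inv_injective h)))
      (fun h => hcd (sub_left_injective (inv_injective h)))
    set χ := quadraticChar (ZMod p) with hχ
    set g : ZMod p → ZMod p := fun y => (y - (b - a)⁻¹) * (y - (c - a)⁻¹) * (y - (d - a)⁻¹) with hg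
    set δ : ZMod p := -((b - a) * (c - a) * (d - a)) with hδ
    have hδ0 : δ ≠ 0 := neg_ne_zero.2 (mul_ne_zero (mul_ne_zero hab' hac') had')
    have h4 : ∀ x : ZMod p, x ≠ a → χ (f.eval x) = χ (δ * g (x - a)⁻¹) := by
      intro x hx
      have hx' : x - a ≠ 0 := sub_ne_zero.2 hx
      have e : f.eval x = ((x - a) ^ 2) ^ 2 * (δ * g (x - a)⁻¹) := by
        rw [hf, hg, hδ]
        simp only [eval_mul, eval_sub, eval_X, eval_C]
        field_simp
        ring
      rw [e, map_mul, qc_sq (pow_ne_zero _ hx'), one_mul]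
    have h5 : ∑ x : ZMod p, χ (f.eval x) = χ δ * (∑ y : ZMod p, χ (g y)) - 1 := by
      have e1 : ∑ x : ZMod p, χ (f.eval x) = ∑ x ∈ Finset.univ.erase a, χ (f.eval x) := by
        rw [Finset.sum_erase]
        rw [hf]
        simp [hχ, qc_zero]
      have e2 : ∑ x ∈ Finset.univ.erase a, χ (f.eval x) =
          ∑ y ∈ Finset.univ.erase (0 : ZMod p), χ (δ * g y) := by
        refine Finset.sum_bij' (fun x _ => (x - a)⁻¹) (fun y _ => y⁻¹ + a) ?_ ?_ ?_ ?_ ?_
        · intro x hx
          exact Finset.mem_erase.2 ⟨inv_ne_zero (sub_ne_zero.2 (Finset.ne_of_mem_erase hx)),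
            Finset.mem_univ _⟩
        · intro y hy
          refine Finset.mem_erase.2 ⟨?_, Finset.mem_univ _⟩
          intro h0
          exact inv_ne_zero (Finset.ne_of_mem_erase hy) (by linear_combination h0)
        · intro x hx
          rw [inv_inv]
          ring
        · intro y hy
          rw [add_sub_cancel_right, inv_inv]
        · intro x hx
          exact h4 x (Finset.ne_of_mem_erase hx)
      have e3 : ∑ y ∈ Finset.univ.erase (0 : ZMod p), χ (δ * g y) =
          (∑ y : ZMod p, χ (δ * g y)) - χ (δ * g 0) := by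
        rw [← Finset.add_sum_erase Finset.univ (fun y => χ (δ * g y)) (Finset.mem_univ (0 : ZMod p))]
        ring
      have e4 : χ (δ * g 0) = 1 := by
        have : δ * g 0 = 1 ^ 2 := by
          rw [hδ, hg]
          field_simp
          ring
        rw [this]
        exact qc_sq one_ne_zero
      rw [e1, e2, e3, e4, Finset.mul_sum]
      congr 1
      exact Finset.sum_congr rfl fun y _ => map_mul _ _ _
    intro h0
    rw [h0, neg_zero, zero_sub] at h1
    have h6 : ∑ x : ZMod p, (f ^ ((p - 1) / 2)).eval x = ((∑ x : ZMod p, χ (f.eval x) : ℤ) : ZMod p) := by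
      push_cast
      refine Finset.sum_congr rfl fun x _ => ?_
      rw [hχ, ← pow_eq_qc hp4, eval_pow]
    rw [h6, h5] at h1
    push_cast at h1
    have h7 : ((χ δ : ℤ) : ZMod p) * ((∑ y : ZMod p, χ (g y) : ℤ) : ZMod p) = 0 := by
      push_cast
      linear_combination h1
    rcases mul_eq_zero.1 h7 with h8 | h8
    · rw [hχ, ← pow_eq_qc hp4] at h8
      exact pow_ne_zero _ hδ0 h8
    · exact h3 h8

end

end Pool.Agent.R410.OR
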