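import Pool.Agent.R410.OR.Tr2
import Pool.Agent.R410.OR.Ell
import Pool.Agent.TH649.SF.Emb

/-!
# Curves of genus at most one have simultaneous dense ordinary reduction
-/

set_option autoImplicit false
set_option linter.all false

open Polynomial

namespace Pool.Agent.R410.OR

open Pool.Agent.TH649.SF (io io_inj exists_emb)

/-- a homomorphism to the algebraic numbers -/
theorem to_alg {k : Type*} [Field k] [CharZero k] (s : Finset k) :
    Nonempty (Algebra.adjoin ℤ (s : Set k) →+* AlgebraicClosure ℚ) := by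
  let B : Subalgebra ℚ k := Algebra.adjoin ℚ (s : Set k)
  have hB : Algebra.FiniteType ℚ B :=
    (Subalgebra.fg_iff_finiteType _).mp (Subalgebra.fg_def.2 ⟨s, s.finite_toSet, rfl⟩)
  obtain ⟨𝔪, h𝔪⟩ := Ideal.exists_maximal B
  letI : Field (B ⧸ 𝔪) := Ideal.Quotient.field 𝔪
  have h1 : Algebra.FiniteType ℚ (B ⧸ 𝔪) :=
    Algebra.FiniteType.of_surjective (Ideal.Quotient.mkₐ ℚ 𝔪) (Ideal.Quotient.mkₐ_surjective ℚ 𝔪)
  have h2 : Module.Finite ℚ (B ⧸ 𝔪) := finite_of_finite_type_of_isJacobsonRing ℚ (B ⧸ 𝔪)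
  have h3 : Algebra.IsAlgebraic ℚ (B ⧸ 𝔪) := Algebra.IsAlgebraic.of_finite ℚ _
  let τ : (B ⧸ 𝔪) →ₐ[ℚ] AlgebraicClosure ℚ := IsAlgClosed.lift
  have hle : Algebra.adjoin ℤ (s : Set k) ≤ B.restrictScalars ℤ :=
    Algebra.adjoin_le fun x hx => Algebra.subset_adjoin hx
  exact ⟨(τ.toRingHom.comp (Ideal.Quotient.mk 𝔪)).comp
    (Subalgebra.inclusion hle).toRingHom⟩

/-- a homomorphism to a prime field with a large prime number `p ≡ 1 mod 4` -/
theorem to_zmod {k : Type*} [Field k] [CharZero k] (s : Finset k) :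
    ∃ p : ℕ, p.Prime ∧ p % 4 = 1 ∧ Nonempty (Algebra.adjoin ℤ (s : Set k) →+* ZMod p) := by
  classical
  obtain ⟨τ⟩ := to_alg s
  obtain ⟨i, hi⟩ := IsAlgClosed.exists_pow_nat_eq (-1 : AlgebraicClosure ℚ) two_pos
  have hs : ∀ x ∈ s, x ∈ Algebra.adjoin ℤ (s : Set k) := fun x hx => Algebra.subset_adjoin hx
  let X : Finset (AlgebraicClosure ℚ) :=
    (s.attach.image (fun x : s => τ ⟨x.1, hs x.1 x.2⟩)) ∪ {i, (2 : AlgebraicClosure ℚ)⁻¹}
  obtain ⟨p, hp, τ', hτ'⟩ := exists_emb X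
  have hpp : p.Prime := hp.out
  have hi' : ∃ z : ℤ_[p], τ' i = io p z := hτ' i (Finset.mem_union_right _ (by simp))
  have h2' : ∃ z : ℤ_[p], τ' ((2 : AlgebraicClosure ℚ)⁻¹) = io p z :=
    hτ' _ (Finset.mem_union_right _ (by simp))
  have hs' : ∀ x (hx : x ∈ s), ∃ z : ℤ_[p], τ' (τ ⟨x, hs x hx⟩) = io p z := fun x hx =>
    hτ' _ (Finset.mem_union_left _ (Finset.mem_image.2 ⟨⟨x, hx⟩, Finset.mem_attach _ _, rfl⟩))
  let g : Algebra.adjoin ℤ (s : Set k) →+* AlgebraicClosure ℚ_[p] := τ'.comp τ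
  have hg : ∀ b, g b ∈ (io p).range := by
    have h1 : (⊤ : Subalgebra ℤ (Algebra.adjoin ℤ (s : Set k))) ≤
        (subalgebraOfSubring (io p).range).comap g.toIntAlgHom := by
      rw [← Algebra.adjoin_adjoin_coe_preimage (R := ℤ) (s := (s : Set k))]
      refine Algebra.adjoin_le fun x hx => ?_
      obtain ⟨z, hz⟩ := hs' x.1 hx
      exact ⟨z, hz.symm⟩
    exact fun b => h1 (Algebra.mem_top (x := b))
  let e : ℤ_[p] ≃+* (io p).range := RingEquiv.ofBijective (io p).rangeRestrict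
    ⟨fun x y h => io_inj p (congrArg Subtype.val h), (io p).rangeRestrict_surjective⟩
  let χ : Algebra.adjoin ℤ (s : Set k) →+* ZMod p :=
    (PadicInt.toZMod.comp e.symm.toRingHom).comp (g.codRestrict (io p).range hg)
  have hp2 : p ≠ 2 := by
    rintro rfl
    obtain ⟨z, hz⟩ := h2'
    have h1 : io 2 (z * 2) = io 2 1 := by
      rw [map_mul, ← hz, map_inv₀, map_ofNat, map_ofNat, map_one]
      exact inv_mul_cancel₀ two_ne_zero
    have h2 := congrArg PadicInt.toZMod (io_inj 2 h1)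
    rw [map_mul, map_ofNat, map_one] at h2
    have h3 : (2 : ZMod 2) = 0 := by
      have h4 : ((2 : ℕ) : ZMod 2) = 0 := ZMod.natCast_self 2
      rwa [Nat.cast_ofNat] at h4
    rw [h3, mul_zero] at h2
    exact zero_ne_one h2
  have hp4 : p % 4 ≠ 3 := by
    rw [← ZMod.exists_sq_eq_neg_one_iff]
    obtain ⟨z, hz⟩ := hi'
    have h1 : io p (z ^ 2) = io p (-1) := by
      rw [map_pow, ← hz, ← map_pow, hi, map_neg, map_neg, map_one, map_one]
    have h2 := congrArg PadicInt.toZMod (io_inj p h1)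
    rw [map_pow, map_neg, map_one] at h2
    exact ⟨PadicInt.toZMod z, by rw [← h2, sq]⟩
  have hodd := hpp.eq_two_or_odd
  exact ⟨p, hpp, by omega, ⟨χ⟩⟩

/-- **Genus at most one.** -/
theorem base {k : Type*} [Field k] [CharZero k] {ι : Type*} [Fintype ι] (S : ι → Finset k)
    (h : ∀ i, (S i).card ≤ 4) : DO S := by
  classical
  intro A hA F hF c hc
  obtain ⟨sA, hsA⟩ := hA
  let U : Finset k := Finset.univ.biUnion S
  have hU : ∀ i, ∀ s ∈ S i, s ∈ U := fun i s hs => Finset.mem_biUnion.2 ⟨i, Finset.mem_univ _, hs⟩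
  let s : Finset k := sA ∪ (U ∪ ((U ×ˢ U).image (fun e => (e.2 - e.1)⁻¹) ∪ {(c : k)⁻¹}))
  obtain ⟨p, hp, hp4, ⟨χ⟩⟩ := to_zmod s
  have hpf : Fact p.Prime := ⟨hp⟩
  have hAB : A ≤ Algebra.adjoin ℤ (s : Set k) := by
    rw [← hsA]
    apply Algebra.adjoin_mono
    intro x hx
    exact Finset.mem_coe.2 (Finset.mem_union_left _ hx)
  have hUB : ∀ x ∈ U, x ∈ Algebra.adjoin ℤ (s : Set k) := fun x hx =>
    Algebra.subset_adjoin (Finset.mem_coe.2 (Finset.mem_union_right _ (Finset.mem_union_left _ hx)))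
  have hIB : ∀ a ∈ U, ∀ b ∈ U, (b - a)⁻¹ ∈ Algebra.adjoin ℤ (s : Set k) := fun a ha b hb =>
    Algebra.subset_adjoin (Finset.mem_coe.2 (Finset.mem_union_right _ (Finset.mem_union_right _
      (Finset.mem_union_left _ (Finset.mem_image.2 ⟨(a, b), Finset.mem_product.2 ⟨ha, hb⟩, rfl⟩)))))
  have hcB : (c : k)⁻¹ ∈ Algebra.adjoin ℤ (s : Set k) :=
    Algebra.subset_adjoin (Finset.mem_coe.2 (Finset.mem_union_right _ (Finset.mem_union_right _
      (Finset.mem_union_right _ (Finset.mem_singleton_self _)))))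
  let iA : A →+* Algebra.adjoin ℤ (s : Set k) := (Subalgebra.inclusion hAB).toRingHom
  let φ : A →+* ZMod p := χ.comp iA
  have hφs : Function.Surjective φ := ZMod.ringHom_surjective φ
  have hM : (RingHom.ker φ).IsMaximal := RingHom.ker_isMaximal_of_surjective φ hφs
  refine ⟨p, RingHom.ker φ, hp, by omega, hM, ?_, ?_, fun i => ?_⟩
  · rw [RingHom.mem_ker, map_natCast, ZMod.natCast_self]
  · intro h0
    have h1 : (iA c) * ⟨(c : k)⁻¹, hcB⟩ = 1 :=
      Subtype.ext (mul_inv_cancel₀ (fun h => hc (Subtype.ext h)))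
    have h2 := congrArg χ h1
    rw [map_mul, map_one, show χ (iA c) = 0 from h0, zero_mul] at h2
    exact zero_ne_one h2
  · let j : k → ZMod p := fun x => if h : x ∈ Algebra.adjoin ℤ (s : Set k) then χ ⟨x, h⟩ else 0
    have hj : ∀ x (hx : x ∈ Algebra.adjoin ℤ (s : Set k)), j x = χ ⟨x, hx⟩ := fun x hx => dif_pos hx
    have hinj : Set.InjOn j (S i) := by
      intro a ha b hb hab
      by_contra hne
      have haU := hU i a ha
      have hbU := hU i b hb
      rw [hj a (hUB a haU), hj b (hUB b hbU), eq_comm, ← sub_eq_zero, ← map_sub] at hab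
      have h1 : (⟨b, hUB b hbU⟩ - ⟨a, hUB a haU⟩ : Algebra.adjoin ℤ (s : Set k)) *
        ⟨(b - a)⁻¹, hIB a haU b hbU⟩ = 1 :=
        Subtype.ext (mul_inv_cancel₀ (sub_ne_zero.2 (Ne.symm hne)))
      have h2 := congrArg χ h1
      rw [map_mul, hab, zero_mul, map_one] at h2
      exact zero_ne_one h2
    have h1 := ell hp4 ((S i).image j) (by rw [Finset.card_image_of_injOn hinj]; exact h i)
    rw [Finset.card_image_of_injOn hinj,
      Finset.prod_image fun x hx y hy hxy => hinj hx hy hxy] at h1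
    have h2 : (F i).map iA = ∏ x ∈ (S i).attach, (X - C (⟨x.1, hUB _ (hU i x.1 x.2)⟩ :
        Algebra.adjoin ℤ (s : Set k))) := by
      apply map_injective (algebraMap (Algebra.adjoin ℤ (s : Set k)) k) Subtype.val_injective
      rw [Polynomial.map_map, Polynomial.map_prod]
      have e1 : (algebraMap (Algebra.adjoin ℤ (s : Set k)) k).comp iA = algebraMap A k := rfl
      rw [e1, hF, ← Finset.prod_attach (S i) fun x => (X - C x : k[X])]
      refine Finset.prod_congr rfl fun x _ => ?_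
      rw [Polynomial.map_sub, Polynomial.map_X, Polynomial.map_C]
      rfl
    have h3 : (F i).map φ = ∏ x ∈ S i, (X - C (j x)) := by
      rw [show (F i).map φ = ((F i).map iA).map χ from (Polynomial.map_map iA χ (F i)).symm, h2,
        Polynomial.map_prod, ← Finset.prod_attach (S i) fun x => (X - C (j x) : (ZMod p)[X])]
      refine Finset.prod_congr rfl fun x _ => ?_
      rw [Polynomial.map_sub, Polynomial.map_X, Polynomial.map_C, hj x.1 (hUB _ (hU i x.1 x.2))]
    rw [← h3, ← hw_det_map] at h1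
    rw [← hw_det_map]
    intro h4
    apply h1
    exact Ideal.Quotient.eq_zero_iff_mem.1 h4

end Pool.Agent.R410.OR
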