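import Pool.Agent.R410.OR.G2e

/-!
# The Hasse-Witt determinant for six points
-/

set_option autoImplicit false
set_option linter.all false

open Polynomial

namespace Pool.Agent.R410.OR

theorem reflect_pow {K : Type*} [Field K] (f : K[X]) (N : ℕ) (hf : f.natDegree ≤ N) (m : ℕ) :
    reflect (m * N) (f ^ m) = (reflect N f) ^ m := by
  induction m with
  | zero =>
    rw [pow_zero, pow_zero, zero_mul, ← C_1, reflect_C, pow_zero, mul_one]
  | succ m ih =>
    rw [add_mul, one_mul, pow_succ, pow_succ, reflect_mul _ _ _ hf, ih]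
    exact natDegree_pow_le.trans (Nat.mul_le_mul_left _ hf)

theorem reflect_prod {K ι : Type*} [Field K] (s : Finset ι) (e : ι → K) :
    reflect s.card (∏ i ∈ s, (X - C (e i))) = ∏ i ∈ s, (1 - C (e i) * X) := by
  classical
  induction s using Finset.induction_on with
  | empty =>
    rw [Finset.prod_empty, Finset.prod_empty, Finset.card_empty, ← C_1, reflect_C, pow_zero,
      mul_one]
  | insert a s ha ih =>
    rw [Finset.card_insert_of_notMem ha, Finset.prod_insert ha, Finset.prod_insert ha, add_comm,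
      reflect_mul _ _ (natDegree_X_sub_C_le _), ih]
    · congr 1
      ext n
      rw [coeff_reflect]
      rcases n with _ | _ | n
      · rw [revAt_le (by norm_num)]
        simp
      · rw [revAt_le (by norm_num)]
        simp [coeff_one]
      · have h1 : revAt 1 (n + 1 + 1) = n + 1 + 1 := by
          apply revAt_eq_self_of_lt
          omega
        rw [h1]
        simp [coeff_one, coeff_X, coeff_C]
    · rw [natDegree_prod_of_monic _ _ fun i _ => monic_X_sub_C _]
      simp

section
variable {p : ℕ} [Fact p.Prime]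

/-- **Six points.** -/
theorem det_six (hp16 : p % 16 = 1) {S : Finset (ZMod p)} (hS : Sq S) (h6 : S.card = 6) :
    (hw p 2 (∏ i ∈ S, (X - C i))).det ≠ 0 := by
  classical
  have hp4 : p % 4 = 1 := by omega
  have hp3 : 3 ≤ p := by
    have := (Fact.out : p.Prime).two_le
    omega
  obtain ⟨a, ha⟩ : S.Nonempty := Finset.card_pos.1 (by omega)
  have hne : ∀ b ∈ S.erase a, b - a ≠ 0 := fun b hb => sub_ne_zero.2 (Finset.ne_of_mem_erase hb)
  have hinj : Set.InjOn (fun b => (b - a)⁻¹) (S.erase a : Set (ZMod p)) := by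
    intro b _ c _ hbc
    exact sub_left_injective (inv_injective hbc)
  set U := (S.erase a).image (fun b => (b - a)⁻¹) with hU
  have hUc : U.card = 5 := by
    rw [hU, Finset.card_image_of_injOn hinj, Finset.card_erase_of_mem ha, h6]
  have hUS : Sq U := by
    intro x hx y hy hxy
    obtain ⟨b, hb, rfl⟩ := Finset.mem_image.1 hx
    obtain ⟨c, hc, rfl⟩ := Finset.mem_image.1 hy
    have hb0 := hne b hb
    have hc0 := hne c hc
    have hbc : c ≠ b := fun h => hxy (by rw [h])
    have e : (b - a)⁻¹ - (c - a)⁻¹ = (c - b) * ((b - a)⁻¹ * (c - a)⁻¹) := by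
      field_simp
      ring
    rw [e, map_mul, map_mul, qc_inv, qc_inv,
      hS c (Finset.mem_of_mem_erase hc) b (Finset.mem_of_mem_erase hb) hbc,
      hS b (Finset.mem_of_mem_erase hb) a ha (Finset.ne_of_mem_erase hb),
      hS c (Finset.mem_of_mem_erase hc) a ha (Finset.ne_of_mem_erase hc)]
    norm_num
  have h5 := det_five hp16 hUS hUc
  have hfU : ∏ i ∈ U, (X - C i : (ZMod p)[X]) = ∏ b ∈ S.erase a, (X - C (b - a)⁻¹) := by
    rw [hU, Finset.prod_image hinj]
  set f : (ZMod p)[X] := ∏ i ∈ U, (X - C i) with hf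
  set F : (ZMod p)[X] := ∏ b ∈ S, (X - C (b - a)) with hF
  set m := (p - 1) / 2 with hm
  set δ : ZMod p := ∏ b ∈ S.erase a, (a - b) with hδ
  have hrF : reflect 6 F = C δ * f := by
    rw [← h6, hF, reflect_prod S (fun b => b - a), ← Finset.mul_prod_erase S _ ha, sub_self, C_0,
      zero_mul, sub_zero, one_mul, hfU, hδ, map_prod, ← Finset.prod_mul_distrib]
    refine Finset.prod_congr rfl fun b hb => ?_
    have h1 := hne b hb
    have e : (C (a - b) * C (b - a)⁻¹ : (ZMod p)[X]) = -1 := by
      rw [← C_mul, ← neg_sub b a, neg_mul, mul_inv_cancel₀ h1, C_neg, C_1]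
    rw [mul_sub, e, C_sub, C_sub]
    ring
  have hδ1 : δ ^ m = 1 := by
    rw [hm, pow_eq_qc hp4, hδ, map_prod, Finset.prod_eq_one]
    · simp
    · intro b hb
      exact hS a ha b (Finset.mem_of_mem_erase hb) (Finset.ne_of_mem_erase hb).symm
  have hFd : F.natDegree ≤ 6 := by
    rw [hF, natDegree_prod_of_monic _ _ fun i _ => monic_X_sub_C _]
    simp only [natDegree_X_sub_C, Finset.sum_const, smul_eq_mul, mul_one]
    omega
  have hcF : ∀ n, n ≤ m * 6 → (F ^ m).coeff n = (f ^ m).coeff (m * 6 - n) := by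
    intro n hn
    have h1 := reflect_pow F 6 hFd m
    rw [hrF, mul_pow, ← C_pow, hδ1, C_1, one_mul] at h1
    rw [← h1, coeff_reflect, revAt_le (Nat.sub_le _ _)]
    congr 1
    omega
  have hFdet : (hw p 2 F).det ≠ 0 := by
    rw [hw_two _ hp3] at h5 ⊢
    rw [← hm] at h5 ⊢
    rw [hcF _ (by omega), hcF _ (by omega), hcF _ (by omega), hcF _ (by omega)]
    have e1 : m * 6 - (p - 1) = 2 * (p - 1) := by omega
    have e2 : m * 6 - 2 * (p - 1) = p - 1 := by omega
    have e3 : m * 6 - (p - 2) = 2 * p - 1 := by omega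
    have e4 : m * 6 - (2 * p - 1) = p - 2 := by omega
    rw [e1, e2, e3, e4]
    intro h0
    apply h5
    linear_combination h0
  have hp2 : p ≠ 2 := by omega
  have h7 := hw_affine hp2 S (fun b => b - a) 1 a one_ne_zero (by
    rw [h6]
    exact hFdet)
  rw [h6] at h7
  have e : ∏ i ∈ S, (X - C (1 * (i - a) + a) : (ZMod p)[X]) = ∏ i ∈ S, (X - C i) := by
    refine Finset.prod_congr rfl fun i _ => ?_
    rw [one_mul, sub_add_cancel]
  rw [e] at h7
  exact h7

/-- curves of genus at most two -/
theorem ell2 (hp16 : p % 16 = 1) {S : Finset (ZMod p)} (hS : Sq S) (h : S.card ≤ 6) :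
    (hw p ((S.card - 1) / 2) (∏ i ∈ S, (X - C i))).det ≠ 0 := by
  by_cases h4 : S.card ≤ 4
  · exact ell (by omega) S h4
  · have h56 : S.card = 5 ∨ S.card = 6 := by omega
    rcases h56 with h5 | h6
    · rw [h5]
      exact det_five hp16 hS h5
    · rw [h6]
      exact det_six hp16 hS h6

end

end Pool.Agent.R410.OR
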