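import Pool.Agent.R410.OR.Base
import Pool.Agent.R410.OR.G2f

/-!
# Curves of genus at most two have simultaneous dense ordinary reduction
-/

set_option autoImplicit false
set_option linter.all false

open Polynomial

namespace Pool.Agent.R410.OR

theorem mod16 {p : ℕ} (hp : p.Prime) (hp4 : p % 4 = 1) (z : ZMod p) (hz : z ^ 8 = -1) :
    p % 16 = 1 := by
  have hpf : Fact p.Prime := ⟨hp⟩
  have h16 : z ^ 16 = 1 := by
    have e : z ^ 16 = (z ^ 8) ^ 2 := by ring
    rw [e, hz]
    ring
  have hne : (-1 : ZMod p) ≠ 1 := by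
    intro h
    have h2 : (2 : ZMod p) = 0 := by linear_combination -h
    exact two_ne hp4 h2
  have ho : orderOf z = 16 := by
    have h1 := orderOf_eq_prime_pow (p := 2) (n := 3) (x := z) (by
      norm_num
      rw [hz]
      exact hne) (by norm_num; exact h16)
    rw [h1]
    norm_num
  have hz0 : z ≠ 0 := by
    rintro rfl
    rw [zero_pow (by norm_num)] at hz
    exact neg_ne_zero.2 one_ne_zero hz.symm
  have h2 : z ^ (p - 1) = 1 := ZMod.pow_card_sub_one_eq_one hz0
  have h3 := orderOf_dvd_of_pow_eq_one h2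
  rw [ho] at h3
  have := hp.two_le
  omega

/-- **Genus at most two.** -/
theorem base2 {k : Type*} [Field k] [CharZero k] {ι : Type*} [Fintype ι] (S : ι → Finset k)
    (h : ∀ i, (S i).card ≤ 6) : DO S := by
  classical
  intro A hA F hF c hc
  obtain ⟨sA, hsA⟩ := hA
  let L := AlgebraicClosure k
  have hL : CharZero L := charZero_of_injective_algebraMap (algebraMap k L).injective
  let g : k →+* L := algebraMap k L
  let U : Finset k := Finset.univ.biUnion S
  have hU : ∀ i, ∀ s ∈ S i, s ∈ U := fun i s hs => Finset.mem_biUnion.2 ⟨i, Finset.mem_univ _, hs⟩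
  have hsqrt : ∀ x : L, ∃ y : L, y ^ 2 = x := fun x => IsAlgClosed.exists_pow_nat_eq x two_pos
  choose sq hsq using hsqrt
  obtain ⟨ζ, hζ⟩ := IsAlgClosed.exists_pow_nat_eq (-1 : L) (n := 8) (by norm_num)
  let s : Finset L := sA.image g ∪ (U.image g ∪ ((U ×ˢ U).image (fun e => (g e.2 - g e.1)⁻¹) ∪
    ((U ×ˢ U).image (fun e => sq (g e.1 - g e.2)) ∪ {(g (c : k))⁻¹, ζ})))
  obtain ⟨B, hB⟩ : ∃ B : Subalgebra ℤ L, B = Algebra.adjoin ℤ (s : Set L) := ⟨_, rfl⟩
  obtain ⟨p, hp, hp4, ⟨χ⟩⟩ : ∃ p : ℕ, p.Prime ∧ p % 4 = 1 ∧ Nonempty (B →+* ZMod p) := by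
    rw [hB]
    exact to_zmod s
  have hpf : Fact p.Prime := ⟨hp⟩
  have hsB : ∀ x ∈ s, x ∈ B := fun x hx => by
    rw [hB]
    exact Algebra.subset_adjoin (Finset.mem_coe.2 hx)
  have hAB : ∀ x ∈ A, g x ∈ B := by
    have h1 : A ≤ B.comap g.toIntAlgHom := by
      rw [← hsA]
      refine Algebra.adjoin_le fun x hx => ?_
      exact hsB _ (Finset.mem_union_left _ (Finset.mem_image_of_mem _ hx))
    exact fun x hx => h1 hx
  have hUB : ∀ x ∈ U, g x ∈ B := fun x hx => hsB _ (Finset.mem_union_right _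
    (Finset.mem_union_left _ (Finset.mem_image_of_mem _ hx)))
  have hIB : ∀ a ∈ U, ∀ b ∈ U, (g b - g a)⁻¹ ∈ B := fun a ha b hb =>
    hsB _ (Finset.mem_union_right _ (Finset.mem_union_right _
      (Finset.mem_union_left _ (Finset.mem_image.2 ⟨(a, b), Finset.mem_product.2 ⟨ha, hb⟩, rfl⟩))))
  have hQB : ∀ a ∈ U, ∀ b ∈ U, sq (g a - g b) ∈ B := fun a ha b hb =>
    hsB _ (Finset.mem_union_right _ (Finset.mem_union_right _ (Finset.mem_union_right _
      (Finset.mem_union_left _ (Finset.mem_image.2 ⟨(a, b), Finset.mem_product.2 ⟨ha, hb⟩, rfl⟩)))))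
  have hcB : (g (c : k))⁻¹ ∈ B :=
    hsB _ (Finset.mem_union_right _ (Finset.mem_union_right _
      (Finset.mem_union_right _ (Finset.mem_union_right _ (by simp)))))
  have hζB : ζ ∈ B :=
    hsB _ (Finset.mem_union_right _ (Finset.mem_union_right _
      (Finset.mem_union_right _ (Finset.mem_union_right _ (by simp)))))
  have hp16 : p % 16 = 1 := by
    refine mod16 hp hp4 (χ ⟨ζ, hζB⟩) ?_
    rw [← map_pow]
    have e : (⟨ζ, hζB⟩ : B) ^ 8 = -1 := Subtype.ext hζ
    rw [e, map_neg, map_one]
  let iA : A →+* B := (g.comp (algebraMap A k)).codRestrict B.toSubring (fun x => hAB x.1 x.2)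
  let φ : A →+* ZMod p := χ.comp iA
  have hφs : Function.Surjective φ := ZMod.ringHom_surjective φ
  have hM : (RingHom.ker φ).IsMaximal := RingHom.ker_isMaximal_of_surjective φ hφs
  refine ⟨p, RingHom.ker φ, hp, by omega, hM, ?_, ?_, fun i => ?_⟩
  · rw [RingHom.mem_ker, map_natCast, ZMod.natCast_self]
  · intro h0
    have hgc : g (c : k) ≠ 0 := by
      intro h
      apply hc
      apply Subtype.ext
      apply g.injective
      rw [h]
      exact (map_zero g).symm
    have h1 : (iA c) * ⟨(g (c : k))⁻¹, hcB⟩ = 1 :=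
      Subtype.ext (mul_inv_cancel₀ hgc)
    have h2 := congrArg χ h1
    rw [map_mul, map_one, show χ (iA c) = 0 from h0, zero_mul] at h2
    exact zero_ne_one h2
  · let j : k → ZMod p := fun x => if h : g x ∈ B then χ ⟨g x, h⟩ else 0
    have hj : ∀ x (hx : g x ∈ B), j x = χ ⟨g x, hx⟩ := fun x hx => dif_pos hx
    have hjne : ∀ a ∈ S i, ∀ b ∈ S i, a ≠ b → j b - j a ≠ 0 := by
      intro a ha b hb hne hab
      have haU := hU i a ha
      have hbU := hU i b hb
      rw [hj a (hUB a haU), hj b (hUB b hbU), ← map_sub] at hab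
      have h1 : (⟨g b, hUB b hbU⟩ - ⟨g a, hUB a haU⟩ : B) * ⟨(g b - g a)⁻¹, hIB a haU b hbU⟩ = 1 :=
        Subtype.ext (mul_inv_cancel₀ (sub_ne_zero.2 fun h => hne (g.injective h.symm)))
      have h2 := congrArg χ h1
      rw [map_mul, hab, zero_mul, map_one] at h2
      exact zero_ne_one h2
    have hinj : Set.InjOn j (S i) := by
      intro a ha b hb hab
      by_contra hne
      exact hjne a ha b hb hne (by rw [hab, sub_self])
    have hSq : Sq ((S i).image j) := by
      intro x hx y hy hxy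
      obtain ⟨a, ha, rfl⟩ := Finset.mem_image.1 hx
      obtain ⟨b, hb, rfl⟩ := Finset.mem_image.1 hy
      have hne : a ≠ b := fun h => hxy (by rw [h])
      have haU := hU i a ha
      have hbU := hU i b hb
      have h0 := hjne b hb a ha hne.symm
      have h1 : j a - j b = (χ ⟨sq (g a - g b), hQB a haU b hbU⟩) ^ 2 := by
        rw [hj a (hUB a haU), hj b (hUB b hbU), ← map_sub, ← map_pow]
        congr 1
        exact Subtype.ext (hsq _).symm
      rw [h1] at h0 ⊢
      exact qc_sq (fun h => h0 (by rw [h]; ring))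
    have h1 := ell2 hp16 hSq (by rw [Finset.card_image_of_injOn hinj]; exact h i)
    rw [Finset.card_image_of_injOn hinj,
      Finset.prod_image fun x hx y hy hxy => hinj hx hy hxy] at h1
    have h2 : (F i).map iA = ∏ x ∈ (S i).attach, (X - C (⟨g x.1, hUB _ (hU i x.1 x.2)⟩ : B)) := by
      apply map_injective (algebraMap B L) Subtype.val_injective
      rw [Polynomial.map_map, Polynomial.map_prod]
      have e1 : (algebraMap B L).comp iA = g.comp (algebraMap A k) := rfl
      rw [e1, ← Polynomial.map_map, hF, ← Finset.prod_attach (S i) fun x => (X - C x : k[X]),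
        Polynomial.map_prod]
      refine Finset.prod_congr rfl fun x _ => ?_
      rw [Polynomial.map_sub, Polynomial.map_X, Polynomial.map_C, Polynomial.map_sub,
        Polynomial.map_X, Polynomial.map_C]
      rfl
    have h3 : (F i).map φ = ∏ x ∈ S i, (X - C (j x)) := by
      rw [show (F i).map φ = ((F i).map iA).map χ from (Polynomial.map_map iA χ (F i)).symm, h2,
        Polynomial.map_prod, ← Finset.prod_attach (S i) fun x => (X - C (j x) : (ZMod p)[X])]
      refine Finset.prod_congr rfl fun x _ => ?_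
      rw [Polynomial.map_sub, Polynomial.map_X, Polynomial.map_C, hj x.1 (hUB _ (hU i x.1 x.2))]
    rw [← h3, ← hw_det_map] at h1
    rw [← hw_det_map]
    intro h4
    apply h1
    exact Ideal.Quotient.eq_zero_iff_mem.1 h4

end Pool.Agent.R410.OR
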