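import Pool.Agent.R410.OR.Ell

/-!
# Congruences modulo 16 for quadratic character sums
-/

set_option autoImplicit false
set_option linter.all false

open Polynomial

namespace Pool.Agent.R410.OR

section
variable {p : ℕ} [Fact p.Prime]

/-- all the differences are squares -/
def Sq (S : Finset (ZMod p)) : Prop :=
  ∀ a ∈ S, ∀ b ∈ S, a ≠ b → quadraticChar (ZMod p) (a - b) = 1

theorem Sq.mono {S T : Finset (ZMod p)} (h : Sq S) (hT : T ⊆ S) : Sq T :=
  fun a ha b hb hab => h a (hT ha) b (hT hb) hab

theorem qc_neg_one (hp4 : p % 4 = 1) : quadraticChar (ZMod p) (-1) = 1 := by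
  obtain ⟨i, hi⟩ := (ZMod.exists_sq_eq_neg_one_iff (p := p)).2 (by omega)
  rw [hi, ← sq]
  apply qc_sq
  rintro rfl
  rw [mul_zero] at hi
  exact neg_ne_zero.2 one_ne_zero hi

theorem qc_neg (hp4 : p % 4 = 1) (x : ZMod p) :
    quadraticChar (ZMod p) (-x) = quadraticChar (ZMod p) x := by
  rw [← neg_one_mul, map_mul, qc_neg_one hp4, one_mul]

theorem qc_mul_self {x : ZMod p} (hx : x ≠ 0) :
    quadraticChar (ZMod p) x * quadraticChar (ZMod p) x = 1 := by
  rw [← map_mul, ← sq]
  exact qc_sq hx

theorem qc_inv (x : ZMod p) : quadraticChar (ZMod p) x⁻¹ = quadraticChar (ZMod p) x := by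
  by_cases hx : x = 0
  · rw [hx, inv_zero]
  · have h1 : quadraticChar (ZMod p) x * quadraticChar (ZMod p) x⁻¹ = 1 := by
      rw [← map_mul, mul_inv_cancel₀ hx, map_one]
    have h2 := qc_mul_self hx
    have h3 : quadraticChar (ZMod p) x ≠ 0 := left_ne_zero_of_mul (by rw [h2]; exact one_ne_zero)
    exact mul_left_cancel₀ h3 (by rw [h1, h2])

theorem sum_one (hp4 : p % 4 = 1) (a : ZMod p) :
    ∑ t : ZMod p, quadraticChar (ZMod p) (t - a) = 0 := by
  rw [← quadraticChar_sum_zero (F := ZMod p) (ringChar_ne hp4),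
    ← Equiv.sum_comp (Equiv.subRight a) (fun t => quadraticChar (ZMod p) t)]
  rfl

theorem sum_two (hp4 : p % 4 = 1) {a b : ZMod p} (hab : a ≠ b) :
    ∑ t : ZMod p, quadraticChar (ZMod p) (t - a) * quadraticChar (ZMod p) (t - b) = -1 := by
  classical
  have hab' : a - b ≠ 0 := sub_ne_zero.2 hab
  have e1 : ∑ t : ZMod p, quadraticChar (ZMod p) (t - a) * quadraticChar (ZMod p) (t - b) =
      ∑ t ∈ Finset.univ.erase a,
        quadraticChar (ZMod p) (t - a) * quadraticChar (ZMod p) (t - b) := by
    rw [Finset.sum_erase]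
    rw [sub_self, qc_zero, zero_mul]
  have e2 : ∑ t ∈ Finset.univ.erase a,
        quadraticChar (ZMod p) (t - a) * quadraticChar (ZMod p) (t - b) =
      ∑ w ∈ Finset.univ.erase (1 : ZMod p), quadraticChar (ZMod p) w := by
    refine Finset.sum_bij' (fun t _ => 1 + (a - b) / (t - a)) (fun w _ => a + (a - b) / (w - 1))
      ?_ ?_ ?_ ?_ ?_
    · intro t ht
      have ht' : t - a ≠ 0 := sub_ne_zero.2 (Finset.ne_of_mem_erase ht)
      refine Finset.mem_erase.2 ⟨fun h => ?_, Finset.mem_univ _⟩
      have h1 : (a - b) / (t - a) = 0 := by linear_combination h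
      exact div_ne_zero hab' ht' h1
    · intro w hw
      have hw' : w - 1 ≠ 0 := sub_ne_zero.2 (Finset.ne_of_mem_erase hw)
      refine Finset.mem_erase.2 ⟨fun h => ?_, Finset.mem_univ _⟩
      have h1 : (a - b) / (w - 1) = 0 := by linear_combination h
      exact div_ne_zero hab' hw' h1
    · intro t ht
      have ht' : t - a ≠ 0 := sub_ne_zero.2 (Finset.ne_of_mem_erase ht)
      simp only [add_sub_cancel_left]
      rw [div_div_cancel₀ hab']
      ring
    · intro w hw
      have hw' : w - 1 ≠ 0 := sub_ne_zero.2 (Finset.ne_of_mem_erase hw)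
      simp only [add_sub_cancel_left]
      rw [div_div_cancel₀ hab']
      ring
    · intro t ht
      have ht' : t - a ≠ 0 := sub_ne_zero.2 (Finset.ne_of_mem_erase ht)
      rw [← map_mul]
      have e : (t - a) * (t - b) = (t - a) ^ 2 * (1 + (a - b) / (t - a)) := by
        field_simp
        ring
      rw [e, map_mul, qc_sq ht', one_mul]
  rw [e1, e2]
  have h3 := Finset.add_sum_erase Finset.univ (fun w => quadraticChar (ZMod p) w)
    (Finset.mem_univ (1 : ZMod p))
  rw [quadraticChar_sum_zero (ringChar_ne hp4)] at h3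
  simp only [map_one] at h3
  linarith

theorem sum_two_self (a : ZMod p) :
    ∑ t : ZMod p, quadraticChar (ZMod p) (t - a) * quadraticChar (ZMod p) (t - a) = (p : ℤ) - 1 := by
  classical
  have e1 : ∀ t : ZMod p, quadraticChar (ZMod p) (t - a) * quadraticChar (ZMod p) (t - a) =
      1 - if t = a then 1 else 0 := by
    intro t
    by_cases h : t = a
    · rw [if_pos h, h, sub_self, qc_zero]; norm_num
    · rw [if_neg h, qc_mul_self (sub_ne_zero.2 h), sub_zero]
  rw [Finset.sum_congr rfl fun t _ => e1 t, Finset.sum_sub_distrib, Finset.sum_ite_eq',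
    if_pos (Finset.mem_univ _), Finset.sum_const, Finset.card_univ, ZMod.card]
  simp

theorem sum_two' (hp4 : p % 4 = 1) (a b : ZMod p) :
    ∑ t : ZMod p, quadraticChar (ZMod p) (t - a) * quadraticChar (ZMod p) (t - b) =
      -1 + (if a = b then (p : ℤ) else 0) := by
  by_cases h : a = b
  · rw [if_pos h, h, sum_two_self]; ring
  · rw [if_neg h, sum_two hp4 h]; ring

/-- the character sum of a set of points -/
noncomputable def sig (S : Finset (ZMod p)) : ℤ :=
  ∑ t : ZMod p, ∏ i ∈ S, quadraticChar (ZMod p) (t - i)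

theorem sig_zero {S : Finset (ZMod p)} (h : S.card = 0) : sig S = p := by
  rw [Finset.card_eq_zero.1 h]
  unfold sig
  simp

theorem sig_one (hp4 : p % 4 = 1) {S : Finset (ZMod p)} (h : S.card = 1) : sig S = 0 := by
  obtain ⟨a, rfl⟩ := Finset.card_eq_one.1 h
  unfold sig
  simp only [Finset.prod_singleton]
  exact sum_one hp4 a

theorem sig_two (hp4 : p % 4 = 1) {S : Finset (ZMod p)} (h : S.card = 2) : sig S = -1 := by
  obtain ⟨a, b, hab, rfl⟩ := Finset.card_eq_two.1 h
  unfold sig
  simp only [Finset.prod_pair hab]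
  exact sum_two hp4 hab

/-- the number of points at which all the characters are one -/
noncomputable def nn (S : Finset (ZMod p)) : Finset (ZMod p) :=
  open Classical in Finset.univ.filter fun t => ∀ i ∈ S, quadraticChar (ZMod p) (t - i) = 1

theorem prod_pt {S : Finset (ZMod p)} (hS : Sq S) (g : ZMod p → ℤ) (t : ZMod p) :
    ∏ i ∈ S, (1 + quadraticChar (ZMod p) (t - i)) =
      (open Classical in (if t ∈ S then 2 ^ (S.card - 1) else 0) +
        (if t ∈ nn S then 2 ^ S.card else 0)) := by
  classical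
  by_cases ht : t ∈ S
  · have hn : t ∉ nn S := by
      intro h
      have h1 := (Finset.mem_filter.1 h).2 t ht
      rw [sub_self, qc_zero] at h1
      exact zero_ne_one h1
    rw [if_pos ht, if_neg hn, add_zero, ← Finset.mul_prod_erase S _ ht, sub_self, qc_zero, add_zero,
      one_mul, Finset.prod_congr rfl (g := fun _ => (2 : ℤ)), Finset.prod_const,
      Finset.card_erase_of_mem ht]
    intro i hi
    rw [hS t ht i (Finset.mem_of_mem_erase hi) (Finset.ne_of_mem_erase hi).symm]
    norm_num
  · rw [if_neg ht, zero_add]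
    by_cases hn : t ∈ nn S
    · rw [if_pos hn, Finset.prod_congr rfl (g := fun _ => (2 : ℤ)), Finset.prod_const]
      intro i hi
      rw [(Finset.mem_filter.1 hn).2 i hi]
      norm_num
    · rw [if_neg hn]
      have h1 : ∃ i ∈ S, quadraticChar (ZMod p) (t - i) ≠ 1 := by
        by_contra hcon
        push Not at hcon
        exact hn (Finset.mem_filter.2 ⟨Finset.mem_univ _, hcon⟩)
      obtain ⟨i, hi, hi1⟩ := h1
      have h2 : t - i ≠ 0 := sub_ne_zero.2 fun h => ht (h ▸ hi)
      have h3 := (quadraticChar_dichotomy h2).resolve_left hi1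
      exact Finset.prod_eq_zero hi (by rw [h3]; norm_num)

theorem sum_pt {S : Finset (ZMod p)} (hS : Sq S) :
    ∑ t : ZMod p, ∏ i ∈ S, (1 + quadraticChar (ZMod p) (t - i)) =
      (S.card : ℤ) * 2 ^ (S.card - 1) + ((nn S).card : ℤ) * 2 ^ S.card := by
  classical
  rw [Finset.sum_congr rfl fun t _ => prod_pt hS (fun _ => 0) t, Finset.sum_add_distrib,
    ← Finset.sum_filter, ← Finset.sum_filter, Finset.sum_const, Finset.sum_const]
  have e1 : (Finset.univ.filter fun t => t ∈ S) = S := by ext; simp
  have e2 : (Finset.univ.filter fun t => t ∈ nn S) = nn S := by ext; simp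
  rw [e1, e2]
  simp

/-- expansion of the product -/
theorem expand (S : Finset (ZMod p)) :
    ∑ t : ZMod p, ∏ i ∈ S, (1 + quadraticChar (ZMod p) (t - i)) =
      ∑ j ∈ Finset.range (S.card + 1), ∑ I ∈ Finset.powersetCard j S, sig I := by
  rw [← Finset.sum_powerset]
  unfold sig
  rw [Finset.sum_comm]
  refine Finset.sum_congr rfl fun t _ => ?_
  rw [Finset.prod_one_add]

/-- three points: the number is even -/
theorem nn_even (hp4 : p % 4 = 1) {S : Finset (ZMod p)} (hS : Sq S) (h3 : S.card = 3) :
    Even (nn S).card := by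
  classical
  obtain ⟨a, b, c, hab, hac, hbc, rfl⟩ := Finset.card_eq_three.1 h3
  have ma : a ∈ ({a, b, c} : Finset (ZMod p)) := by simp
  have mb : b ∈ ({a, b, c} : Finset (ZMod p)) := by simp
  have mc : c ∈ ({a, b, c} : Finset (ZMod p)) := by simp
  have qba := hS b mb a ma hab.symm
  have qca := hS c mc a ma hac.symm
  have qbc := hS b mb c mc hbc
  have qcb := hS c mc b mb hbc.symm
  have hmem : ∀ t, t ∈ nn ({a, b, c} : Finset (ZMod p)) ↔ quadraticChar (ZMod p) (t - a) = 1 ∧
      quadraticChar (ZMod p) (t - b) = 1 ∧ quadraticChar (ZMod p) (t - c) = 1 := by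
    intro t
    unfold nn
    simp
  have hne : ∀ t s : ZMod p, quadraticChar (ZMod p) (t - s) = 1 → t - s ≠ 0 := by
    intro t s h h0
    rw [h0, qc_zero] at h
    exact zero_ne_one h
  have hba : b - a ≠ 0 := sub_ne_zero.2 hab.symm
  have hca : c - a ≠ 0 := sub_ne_zero.2 hac.symm
  have hbc' : b - c ≠ 0 := sub_ne_zero.2 hbc
  have hev1 : Even ((nn ({a, b, c} : Finset (ZMod p))).filter
      fun t => (t - a) ^ 2 = (b - a) * (c - a)).card := by
    refine even_of_inv _ (fun t => 2 * a - t) ?_ (fun t _ => by ring) ?_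
    · intro t ht
      obtain ⟨ht1, ht2⟩ := Finset.mem_filter.1 ht
      obtain ⟨h1, h2, h3⟩ := (hmem t).1 ht1
      refine Finset.mem_filter.2 ⟨(hmem _).2 ⟨?_, ?_, ?_⟩, by rw [← ht2]; ring⟩
      · have e : 2 * a - t - a = -(t - a) := by ring
        rw [e, qc_neg hp4, h1]
      · have e : (2 * a - t - b) * (t - b) = (b - a) * (b - c) := by
          linear_combination -ht2
        have h4 : quadraticChar (ZMod p) (2 * a - t - b) * quadraticChar (ZMod p) (t - b) = 1 := by
          rw [← map_mul, e, map_mul, qba, qbc, one_mul]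
        rw [h2, mul_one] at h4
        exact h4
      · have e : (2 * a - t - c) * (t - c) = (c - a) * (c - b) := by
          linear_combination -ht2
        have h4 : quadraticChar (ZMod p) (2 * a - t - c) * quadraticChar (ZMod p) (t - c) = 1 := by
          rw [← map_mul, e, map_mul, qca, qcb, one_mul]
        rw [h3, mul_one] at h4
        exact h4
    · intro t ht h0
      obtain ⟨ht1, ht2⟩ := Finset.mem_filter.1 ht
      obtain ⟨h1, h2, h3⟩ := (hmem t).1 ht1
      have h4 : (2 : ZMod p) * (t - a) = 0 := by linear_combination -h0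
      exact (mul_ne_zero (two_ne hp4) (hne t a h1)) h4
  have hev2 : Even ((nn ({a, b, c} : Finset (ZMod p))).filter
      fun t => ¬ (t - a) ^ 2 = (b - a) * (c - a)).card := by
    refine even_of_inv _ (fun t => a + (b - a) * (c - a) / (t - a)) ?_ ?_ ?_
    · intro t ht
      obtain ⟨ht1, ht2⟩ := Finset.mem_filter.1 ht
      obtain ⟨h1, h2, h3⟩ := (hmem t).1 ht1
      have hta := hne t a h1
      refine Finset.mem_filter.2 ⟨(hmem _).2 ⟨?_, ?_, ?_⟩, ?_⟩
      · have e : a + (b - a) * (c - a) / (t - a) - a = (b - a) * (c - a) * (t - a)⁻¹ := by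
          rw [div_eq_mul_inv]; ring
        rw [e, map_mul, map_mul, qba, qca, qc_inv, h1]
        norm_num
      · have e : a + (b - a) * (c - a) / (t - a) - b = -((b - a) * (t - c) * (t - a)⁻¹) := by
          field_simp
          ring
        rw [e, qc_neg hp4, map_mul, map_mul, qba, qc_inv, h1, h3]
        norm_num
      · have e : a + (b - a) * (c - a) / (t - a) - c = -((c - a) * (t - b) * (t - a)⁻¹) := by
          field_simp
          ring
        rw [e, qc_neg hp4, map_mul, map_mul, qca, qc_inv, h1, h2]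
        norm_num
      · intro h0
        apply ht2
        rw [add_sub_cancel_left, div_pow, div_eq_iff (pow_ne_zero _ hta)] at h0
        have h5 : ((b - a) * (c - a)) * ((t - a) ^ 2 - (b - a) * (c - a)) = 0 := by
          linear_combination -h0
        exact sub_eq_zero.1 ((mul_eq_zero.1 h5).resolve_left (mul_ne_zero hba hca))
    · intro t ht
      obtain ⟨ht1, ht2⟩ := Finset.mem_filter.1 ht
      obtain ⟨h1, h2, h3⟩ := (hmem t).1 ht1
      have hta := hne t a h1
      show a + (b - a) * (c - a) / (a + (b - a) * (c - a) / (t - a) - a) = t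
      rw [add_sub_cancel_left, div_div_cancel₀ (mul_ne_zero hba hca)]
      ring
    · intro t ht h0
      obtain ⟨ht1, ht2⟩ := Finset.mem_filter.1 ht
      obtain ⟨h1, h2, h3⟩ := (hmem t).1 ht1
      have hta := hne t a h1
      apply ht2
      have h4 : (b - a) * (c - a) / (t - a) = t - a := by linear_combination h0
      rw [div_eq_iff hta] at h4
      rw [h4]
      ring
  rw [← Finset.card_filter_add_card_filter_not (s := nn ({a, b, c} : Finset (ZMod p)))
    (fun t => (t - a) ^ 2 = (b - a) * (c - a))]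
  exact hev1.add hev2

theorem cast_p (hp16 : p % 16 = 1) : ((p : ℤ) : ZMod 16) = 1 := by
  have h1 : ((p : ℕ) : ZMod 16) = ((1 : ℕ) : ZMod 16) := by
    rw [ZMod.natCast_eq_natCast_iff']
    exact hp16
  push_cast
  rw [h1]
  norm_num

theorem sig_three (hp16 : p % 16 = 1) {S : Finset (ZMod p)} (hS : Sq S) (h3 : S.card = 3) :
    ((sig S : ℤ) : ZMod 16) = -2 := by
  have hp4 : p % 4 = 1 := by omega
  obtain ⟨n, hn⟩ := nn_even hp4 hS h3
  have h1 := (expand S).symm.trans (sum_pt hS)
  rw [h3, hn] at h1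
  have e0 : ∑ I ∈ Finset.powersetCard 0 S, sig I = p := by
    rw [Finset.powersetCard_zero, Finset.sum_singleton, sig_zero Finset.card_empty]
  have e1 : ∑ I ∈ Finset.powersetCard 1 S, sig I = 0 :=
    Finset.sum_eq_zero fun I hI => sig_one hp4 (Finset.mem_powersetCard.1 hI).2
  have e2 : ∑ I ∈ Finset.powersetCard 2 S, sig I = -3 := by
    rw [Finset.sum_congr rfl fun I hI => sig_two hp4 (Finset.mem_powersetCard.1 hI).2,
      Finset.sum_const, Finset.card_powersetCard, h3]
    rfl
  have e3 : ∑ I ∈ Finset.powersetCard 3 S, sig I = sig S := by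
    rw [← h3, Finset.powersetCard_self, Finset.sum_singleton]
  simp only [Finset.sum_range_succ, Finset.sum_range_zero, zero_add] at h1
  rw [e0, e1, e2, e3] at h1
  have h4 : sig S = 16 * n + 15 - p := by
    push_cast at h1
    linarith
  rw [h4]
  push_cast
  have h5 := cast_p hp16
  push_cast at h5
  rw [h5]
  have h6 : (16 : ZMod 16) = 0 := by decide
  rw [h6]
  have h7 : (15 : ZMod 16) - 1 = -2 := by decide
  rw [zero_mul, zero_add]
  exact h7

theorem sig_four (hp16 : p % 16 = 1) {S : Finset (ZMod p)} (hS : Sq S) (h4 : S.card = 4) :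
    ((sig S : ℤ) : ZMod 16) = -3 := by
  have hp4 : p % 4 = 1 := by omega
  have h1 := (expand S).symm.trans (sum_pt hS)
  rw [h4] at h1
  have e0 : ∑ I ∈ Finset.powersetCard 0 S, sig I = p := by
    rw [Finset.powersetCard_zero, Finset.sum_singleton, sig_zero Finset.card_empty]
  have e1 : ∑ I ∈ Finset.powersetCard 1 S, sig I = 0 :=
    Finset.sum_eq_zero fun I hI => sig_one hp4 (Finset.mem_powersetCard.1 hI).2
  have e2 : ∑ I ∈ Finset.powersetCard 2 S, sig I = -6 := by
    rw [Finset.sum_congr rfl fun I hI => sig_two hp4 (Finset.mem_powersetCard.1 hI).2,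
      Finset.sum_const, Finset.card_powersetCard, h4]
    rfl
  have e3 : ((∑ I ∈ Finset.powersetCard 3 S, sig I : ℤ) : ZMod 16) = 4 * (-2) := by
    rw [Int.cast_sum, Finset.sum_congr rfl fun I hI => sig_three hp16
      (hS.mono (Finset.mem_powersetCard.1 hI).1) (Finset.mem_powersetCard.1 hI).2,
      Finset.sum_const, Finset.card_powersetCard, h4, nsmul_eq_mul]
    rfl
  have e4 : ∑ I ∈ Finset.powersetCard 4 S, sig I = sig S := by
    rw [← h4, Finset.powersetCard_self, Finset.sum_singleton]
  simp only [Finset.sum_range_succ, Finset.sum_range_zero, zero_add] at h1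
  rw [e0, e1, e2, e4] at h1
  have h5 := congrArg (Int.cast : ℤ → ZMod 16) h1
  push_cast at h5 e3
  have h6 := cast_p hp16
  push_cast at h6
  rw [h6, e3] at h5
  have h7 : (16 : ZMod 16) = 0 := by decide
  have h8 : (32 : ZMod 16) = 0 := by decide
  rw [h7, h8] at h5
  have h9 : ((sig S : ℤ) : ZMod 16) = -(1 + 0 + -6 + 4 * -2) := by linear_combination h5
  rw [h9]
  decide

end

end Pool.Agent.R410.OR
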