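import Pool.Agent.R410.OR.G2a

/-!
# Congruences modulo 16: sums over monic quadratic polynomials
-/

set_option autoImplicit false
set_option linter.all false

open Polynomial

namespace Pool.Agent.R410.OR

section
variable {p : ℕ} [Fact p.Prime]

/-- the sum over monic quadratic polynomials -/
noncomputable def om (S : Finset (ZMod p)) : ℤ :=
  ∑ u : ZMod p, ∑ v : ZMod p, ∏ i ∈ S, quadraticChar (ZMod p) (i ^ 2 + u * i + v)

/-- the values at two points as parameters -/
theorem param {a b : ZMod p} (hab : a ≠ b) (w : ZMod p) (G : ZMod p → ZMod p → ℤ) :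
    ∑ u : ZMod p, ∑ v : ZMod p, G u v = ∑ x : ZMod p, ∑ y : ZMod p,
      G (-(w * (a + b)) + (x - y) / (a - b)) (w * (a * b) - (x * b - y * a) / (a - b)) := by
  have hab' : a - b ≠ 0 := sub_ne_zero.2 hab
  rw [← Fintype.sum_prod_type' (f := G), ← Fintype.sum_prod_type' (f := fun x y =>
    G (-(w * (a + b)) + (x - y) / (a - b)) (w * (a * b) - (x * b - y * a) / (a - b)))]
  let e : ZMod p × ZMod p ≃ ZMod p × ZMod p :=
    { toFun := fun e => (-(w * (a + b)) + (e.1 - e.2) / (a - b),
        w * (a * b) - (e.1 * b - e.2 * a) / (a - b))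
      invFun := fun e => (w * a ^ 2 + e.1 * a + e.2, w * b ^ 2 + e.1 * b + e.2)
      left_inv := by
        rintro ⟨x, y⟩
        apply Prod.ext
        · simp only
          field_simp
          ring
        · simp only
          field_simp
          ring
      right_inv := by
        rintro ⟨x, y⟩
        apply Prod.ext
        · simp only
          field_simp
          ring
        · simp only
          field_simp
          ring }
  exact (Equiv.sum_comp e (fun e => G e.1 e.2)).symm

theorem om_zero {S : Finset (ZMod p)} (h : S.card = 0) : om S = (p : ℤ) * p := by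
  rw [Finset.card_eq_zero.1 h]
  unfold om
  simp

theorem sum_lin (hp4 : p % 4 = 1) (c : ZMod p) :
    ∑ v : ZMod p, quadraticChar (ZMod p) (c + v) = 0 := by
  rw [← sum_one hp4 (-c)]
  refine Finset.sum_congr rfl fun v _ => ?_
  congr 1
  ring

theorem om_one (hp4 : p % 4 = 1) {S : Finset (ZMod p)} (h : S.card = 1) : om S = 0 := by
  obtain ⟨a, rfl⟩ := Finset.card_eq_one.1 h
  unfold om
  simp only [Finset.prod_singleton]
  exact Finset.sum_eq_zero fun u _ => sum_lin hp4 _

theorem qsum (hp4 : p % 4 = 1) : ∑ x : ZMod p, quadraticChar (ZMod p) x = 0 :=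
  quadraticChar_sum_zero (ringChar_ne hp4)

theorem om_two (hp4 : p % 4 = 1) {S : Finset (ZMod p)} (h : S.card = 2) : om S = 0 := by
  obtain ⟨a, b, hab, rfl⟩ := Finset.card_eq_two.1 h
  have hab' : a - b ≠ 0 := sub_ne_zero.2 hab
  unfold om
  simp only [Finset.prod_pair hab]
  rw [param hab 1]
  have e1 : ∀ x y : ZMod p, a ^ 2 + (-(1 * (a + b)) + (x - y) / (a - b)) * a +
      (1 * (a * b) - (x * b - y * a) / (a - b)) = x := by
    intro x y
    field_simp
    ring
  have e2 : ∀ x y : ZMod p, b ^ 2 + (-(1 * (a + b)) + (x - y) / (a - b)) * b +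
      (1 * (a * b) - (x * b - y * a) / (a - b)) = y := by
    intro x y
    field_simp
    ring
  simp only [e1, e2]
  simp only [← Finset.mul_sum]
  rw [qsum hp4]
  simp

/-- a sum of two linear factors -/
theorem sum_linlin (hp4 : p % 4 = 1) {g h : ZMod p} (hg : g ≠ 0) (hh : h ≠ 0) (l m : ZMod p) :
    ∑ t : ZMod p, quadraticChar (ZMod p) (g * t + l) * quadraticChar (ZMod p) (h * t + m) =
      quadraticChar (ZMod p) (g * h) * (-1 + (if h * l = g * m then (p : ℤ) else 0)) := by
  have e1 : ∀ t : ZMod p, quadraticChar (ZMod p) (g * t + l) * quadraticChar (ZMod p) (h * t + m) =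
      quadraticChar (ZMod p) (g * h) * (quadraticChar (ZMod p) (t - -(l / g)) *
        quadraticChar (ZMod p) (t - -(m / h))) := by
    intro t
    rw [← map_mul, ← map_mul, ← map_mul]
    congr 1
    field_simp
    ring
  rw [Finset.sum_congr rfl fun t _ => e1 t, ← Finset.mul_sum, sum_two' hp4]
  congr 2
  have h2 : (-(l / g) = -(m / h)) ↔ (h * l = g * m) := by
    rw [neg_inj, div_eq_div_iff hg hh]
    constructor
    · intro h3; rw [mul_comm h l, h3]; ring
    · intro h3; rw [mul_comm l h, h3]; ring
  by_cases h3 : h * l = g * m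
  · rw [if_pos h3, if_pos (h2.2 h3)]
  · rw [if_neg h3, if_neg (fun h4 => h3 (h2.1 h4))]

theorem om_three (hp4 : p % 4 = 1) {S : Finset (ZMod p)} (hS : Sq S) (h : S.card = 3) :
    om S = p := by
  classical
  obtain ⟨a, b, c, hab, hac, hbc, rfl⟩ := Finset.card_eq_three.1 h
  have ma : a ∈ ({a, b, c} : Finset (ZMod p)) := by simp
  have mb : b ∈ ({a, b, c} : Finset (ZMod p)) := by simp
  have mc : c ∈ ({a, b, c} : Finset (ZMod p)) := by simp
  have hab' : a - b ≠ 0 := sub_ne_zero.2 hab
  have hcb' : c - b ≠ 0 := sub_ne_zero.2 hbc.symm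
  have hca' : c - a ≠ 0 := sub_ne_zero.2 hac.symm
  have qab := hS a ma b mb hab
  have qcb := hS c mc b mb hbc.symm
  have qca := hS c mc a ma hac.symm
  unfold om
  have hprod : ∀ g : ZMod p → ℤ, ∏ i ∈ ({a, b, c} : Finset (ZMod p)), g i = g a * g b * g c := by
    intro g
    rw [Finset.prod_insert, Finset.prod_insert, Finset.prod_singleton, mul_assoc]
    · simpa using hbc
    · simp only [Finset.mem_insert, Finset.mem_singleton, not_or]
      exact ⟨hab, hac⟩
  simp only [hprod]
  rw [param hab 1]
  have e1 : ∀ x y : ZMod p, a ^ 2 + (-(1 * (a + b)) + (x - y) / (a - b)) * a +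
      (1 * (a * b) - (x * b - y * a) / (a - b)) = x := by
    intro x y
    field_simp
    ring
  have e2 : ∀ x y : ZMod p, b ^ 2 + (-(1 * (a + b)) + (x - y) / (a - b)) * b +
      (1 * (a * b) - (x * b - y * a) / (a - b)) = y := by
    intro x y
    field_simp
    ring
  have e3 : ∀ x y : ZMod p, c ^ 2 + (-(1 * (a + b)) + (x - y) / (a - b)) * c +
      (1 * (a * b) - (x * b - y * a) / (a - b)) =
      ((c - b) / (a - b)) * x + ((c - a) * (c - b) - y * (c - a) / (a - b)) := by
    intro x y
    field_simp
    ring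
  simp only [e1, e2, e3]
  rw [Finset.sum_comm]
  have h5 : ∀ y : ZMod p, ∑ x : ZMod p, quadraticChar (ZMod p) x * quadraticChar (ZMod p) y *
      quadraticChar (ZMod p) (((c - b) / (a - b)) * x + ((c - a) * (c - b) - y * (c - a) / (a - b))) =
      quadraticChar (ZMod p) y * (-1 + (if y = (c - b) * (a - b) then (p : ℤ) else 0)) := by
    intro y
    have h6 := sum_linlin hp4 (g := 1) (h := (c - b) / (a - b)) one_ne_zero (div_ne_zero hcb' hab') 0
      ((c - a) * (c - b) - y * (c - a) / (a - b))
    have h7 : quadraticChar (ZMod p) (1 * ((c - b) / (a - b))) = 1 := by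
      rw [one_mul, div_eq_mul_inv, map_mul, qcb, qc_inv, qab, one_mul]
    rw [h7, one_mul] at h6
    have h8 : ((c - b) / (a - b) * 0 = 1 * ((c - a) * (c - b) - y * (c - a) / (a - b))) ↔
        (y = (c - b) * (a - b)) := by
      rw [mul_zero, one_mul, eq_comm, sub_eq_zero, eq_div_iff hab']
      constructor
      · intro h9
        have h10 : (c - a) * (y - (c - b) * (a - b)) = 0 := by linear_combination -h9
        exact sub_eq_zero.1 ((mul_eq_zero.1 h10).resolve_left hca')
      · intro h9
        rw [h9]; ring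
    rw [show (if (c - b) / (a - b) * 0 = 1 * ((c - a) * (c - b) - y * (c - a) / (a - b)) then (p : ℤ)
      else 0) = (if y = (c - b) * (a - b) then (p : ℤ) else 0) by
        by_cases h9 : y = (c - b) * (a - b)
        · rw [if_pos h9, if_pos (h8.2 h9)]
        · rw [if_neg h9, if_neg fun h10 => h9 (h8.1 h10)]] at h6
    rw [← h6, Finset.mul_sum]
    refine Finset.sum_congr rfl fun x _ => ?_
    rw [one_mul, add_zero]
    ring
  simp only [h5]
  simp only [mul_add, mul_neg, mul_one, mul_ite, mul_zero]
  rw [Finset.sum_add_distrib, Finset.sum_neg_distrib, qsum hp4, Finset.sum_ite_eq',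
    if_pos (Finset.mem_univ _), map_mul, qcb, qab]
  ring

end

end Pool.Agent.R410.OR
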