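import Pool.Agent.R410.OR.G2b

/-!
# Congruences modulo 16: four and five points
-/

set_option autoImplicit false
set_option linter.all false

open Polynomial

namespace Pool.Agent.R410.OR

section
variable {p : ℕ} [Fact p.Prime]

/-- the sum over all polynomials of degree at most two, via values -/
theorem tri_values (hp4 : p % 4 = 1) {a b c d : ZMod p} (hab : a ≠ b) (hac : a ≠ c) (had : a ≠ d)
    (hbc : b ≠ c) (hbd : b ≠ d) (hcd : c ≠ d)
    (qca : quadraticChar (ZMod p) (c - a) = 1) (qcb : quadraticChar (ZMod p) (c - b) = 1)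
    (qda : quadraticChar (ZMod p) (d - a) = 1) (qdb : quadraticChar (ZMod p) (d - b) = 1) :
    ∑ w : ZMod p, ∑ u : ZMod p, ∑ v : ZMod p,
      quadraticChar (ZMod p) (w * a ^ 2 + u * a + v) * quadraticChar (ZMod p) (w * b ^ 2 + u * b + v) *
      (quadraticChar (ZMod p) (w * c ^ 2 + u * c + v) *
        quadraticChar (ZMod p) (w * d ^ 2 + u * d + v)) = (p : ℤ) * (p - 1) := by
  classical
  have hab' : a - b ≠ 0 := sub_ne_zero.2 hab
  have hcb' : c - b ≠ 0 := sub_ne_zero.2 hbc.symm
  have hca' : c - a ≠ 0 := sub_ne_zero.2 hac.symm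
  have hda' : d - a ≠ 0 := sub_ne_zero.2 had.symm
  have hdb' : d - b ≠ 0 := sub_ne_zero.2 hbd.symm
  have hdc' : d - c ≠ 0 := sub_ne_zero.2 hcd.symm
  have h1 : ∀ w : ZMod p, ∑ u : ZMod p, ∑ v : ZMod p,
      quadraticChar (ZMod p) (w * a ^ 2 + u * a + v) * quadraticChar (ZMod p) (w * b ^ 2 + u * b + v) *
      (quadraticChar (ZMod p) (w * c ^ 2 + u * c + v) *
        quadraticChar (ZMod p) (w * d ^ 2 + u * d + v)) =
      ∑ x : ZMod p, ∑ y : ZMod p, quadraticChar (ZMod p) x * quadraticChar (ZMod p) y *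
      (quadraticChar (ZMod p) ((c - a) * (c - b) * w + (x * (c - b) - y * (c - a)) / (a - b)) *
        quadraticChar (ZMod p) ((d - a) * (d - b) * w + (x * (d - b) - y * (d - a)) / (a - b))) := by
    intro w
    rw [param hab w]
    refine Finset.sum_congr rfl fun x _ => Finset.sum_congr rfl fun y _ => ?_
    congr 1
    · congr 2
      · field_simp
        ring
      · field_simp
        ring
    · congr 2
      · field_simp
        ring
      · field_simp
        ring
  rw [Finset.sum_congr rfl fun w _ => h1 w, Finset.sum_comm]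
  have h2 : ∀ x : ZMod p, ∑ w : ZMod p, ∑ y : ZMod p,
      quadraticChar (ZMod p) x * quadraticChar (ZMod p) y *
      (quadraticChar (ZMod p) ((c - a) * (c - b) * w + (x * (c - b) - y * (c - a)) / (a - b)) *
        quadraticChar (ZMod p) ((d - a) * (d - b) * w + (x * (d - b) - y * (d - a)) / (a - b))) =
      quadraticChar (ZMod p) x * quadraticChar (ZMod p) x * p := by
    intro x
    rw [Finset.sum_comm]
    have h3 : ∀ y : ZMod p, ∑ w : ZMod p, quadraticChar (ZMod p) x * quadraticChar (ZMod p) y *
      (quadraticChar (ZMod p) ((c - a) * (c - b) * w + (x * (c - b) - y * (c - a)) / (a - b)) *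
        quadraticChar (ZMod p) ((d - a) * (d - b) * w + (x * (d - b) - y * (d - a)) / (a - b))) =
        quadraticChar (ZMod p) x * (quadraticChar (ZMod p) y * (-1 +
          (if y = ((c - b) * (d - b)) / ((c - a) * (d - a)) * x then (p : ℤ) else 0))) := by
      intro y
      rw [← Finset.mul_sum, sum_linlin hp4 (mul_ne_zero hca' hcb') (mul_ne_zero hda' hdb')]
      have h4 : quadraticChar (ZMod p) ((c - a) * (c - b) * ((d - a) * (d - b))) = 1 := by
        rw [map_mul, map_mul, map_mul, qca, qcb, qda, qdb]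
        norm_num
      have h5 : ((d - a) * (d - b) * ((x * (c - b) - y * (c - a)) / (a - b)) =
          (c - a) * (c - b) * ((x * (d - b) - y * (d - a)) / (a - b))) ↔
          (y = ((c - b) * (d - b)) / ((c - a) * (d - a)) * x) := by
        rw [div_mul_eq_mul_div, eq_div_iff (mul_ne_zero hca' hda'), mul_div_assoc', mul_div_assoc',
          div_left_inj' hab']
        constructor
        · intro h6
          have h7 : (d - c) * (y * ((c - a) * (d - a)) - (c - b) * (d - b) * x) = 0 := by
            linear_combination -h6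
          exact sub_eq_zero.1 ((mul_eq_zero.1 h7).resolve_left hdc')
        · intro h6
          linear_combination (-(d - c)) * h6
      rw [h4, one_mul]
      by_cases h6 : y = ((c - b) * (d - b)) / ((c - a) * (d - a)) * x
      · rw [if_pos h6, if_pos (h5.2 h6)]
        ring
      · rw [if_neg h6, if_neg fun h7 => h6 (h5.1 h7)]
        ring
    rw [Finset.sum_congr rfl fun y _ => h3 y, ← Finset.mul_sum]
    simp only [mul_add, mul_neg, mul_one, mul_ite, mul_zero]
    rw [Finset.sum_add_distrib, Finset.sum_neg_distrib, qsum hp4, Finset.sum_ite_eq',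
      if_pos (Finset.mem_univ _), map_mul, div_eq_mul_inv, map_mul, map_mul, qc_inv, map_mul, qca,
      qcb, qda, qdb]
    ring
  rw [Finset.sum_congr rfl fun x _ => h2 x, ← Finset.sum_mul]
  have h3 := sum_two_self (p := p) 0
  simp only [sub_zero] at h3
  rw [h3]
  ring

theorem prod_four {α M : Type*} [DecidableEq α] [CommMonoid M] {a b c d : α} (hab : a ≠ b)
    (hac : a ≠ c) (had : a ≠ d) (hbc : b ≠ c) (hbd : b ≠ d) (hcd : c ≠ d) (g : α → M) :
    ∏ i ∈ (insert a {b, c, d} : Finset α), g i = g a * g b * (g c * g d) := by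
  rw [Finset.prod_insert, Finset.prod_insert, Finset.prod_insert, Finset.prod_singleton, mul_assoc]
  · simpa using hcd
  · simp only [Finset.mem_insert, Finset.mem_singleton, not_or]
    exact ⟨hbc, hbd⟩
  · simp only [Finset.mem_insert, Finset.mem_singleton, not_or]
    exact ⟨hab, hac, had⟩

theorem om_four (hp4 : p % 4 = 1) {S : Finset (ZMod p)} (hS : Sq S) (h : S.card = 4) :
    om S = p - 1 - sig S := by
  classical
  obtain ⟨a, t, hat, rfl, ht⟩ := Finset.card_eq_succ.1 h
  obtain ⟨b, c, d, hbc, hbd, hcd, rfl⟩ := Finset.card_eq_three.1 ht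
  have hat' := hat
  simp only [Finset.mem_insert, Finset.mem_singleton, not_or] at hat'
  obtain ⟨hab, hac, had⟩ := hat'
  have ma : a ∈ (insert a {b, c, d} : Finset (ZMod p)) := by simp
  have mb : b ∈ (insert a {b, c, d} : Finset (ZMod p)) := by simp
  have mc : c ∈ (insert a {b, c, d} : Finset (ZMod p)) := by simp
  have md : d ∈ (insert a {b, c, d} : Finset (ZMod p)) := by simp
  have hT := tri_values hp4 hab hac had hbc hbd hcd (hS c mc a ma (Ne.symm hac))
    (hS c mc b mb hbc.symm) (hS d md a ma (Ne.symm had)) (hS d md b mb hbd.symm)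
  set Q : ZMod p → ZMod p → ZMod p → ℤ := fun w u v =>
    ∏ i ∈ (insert a {b, c, d} : Finset (ZMod p)), quadraticChar (ZMod p) (w * i ^ 2 + u * i + v)
    with hQ
  have hQe : ∀ w u v, Q w u v = quadraticChar (ZMod p) (w * a ^ 2 + u * a + v) *
      quadraticChar (ZMod p) (w * b ^ 2 + u * b + v) *
      (quadraticChar (ZMod p) (w * c ^ 2 + u * c + v) *
        quadraticChar (ZMod p) (w * d ^ 2 + u * d + v)) := fun w u v =>
    prod_four hab hac had hbc hbd hcd _
  have hT2 : ∑ w : ZMod p, ∑ u : ZMod p, ∑ v : ZMod p, Q w u v = (p : ℤ) * (p - 1) := by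
    rw [← hT]
    exact Finset.sum_congr rfl fun w _ => Finset.sum_congr rfl fun u _ =>
      Finset.sum_congr rfl fun v _ => hQe w u v
  -- scaling
  have hscale : ∀ s w u v : ZMod p, s ≠ 0 → Q (s * w) (s * u) (s * v) = Q w u v := by
    intro s w u v hs
    have h1 : ∀ i : ZMod p, quadraticChar (ZMod p) (s * w * i ^ 2 + s * u * i + s * v) =
        quadraticChar (ZMod p) s * quadraticChar (ZMod p) (w * i ^ 2 + u * i + v) := by
      intro i
      rw [← map_mul]
      congr 1
      ring
    rw [hQ]
    simp only [h1]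
    rw [Finset.prod_mul_distrib, Finset.prod_const, h]
    have h2 : quadraticChar (ZMod p) s ^ 4 = 1 := by
      have := qc_mul_self hs
      calc quadraticChar (ZMod p) s ^ 4 = (quadraticChar (ZMod p) s * quadraticChar (ZMod p) s) ^ 2 := by
            ring
        _ = 1 := by rw [this, one_pow]
    rw [h2, one_mul]
  have hw : ∀ w : ZMod p, w ≠ 0 → ∑ u : ZMod p, ∑ v : ZMod p, Q w u v =
      om (insert a {b, c, d}) := by
    intro w hw
    unfold om
    rw [← Equiv.sum_comp (Equiv.mulLeft₀ w hw)]
    refine Finset.sum_congr rfl fun u _ => ?_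
    rw [← Equiv.sum_comp (Equiv.mulLeft₀ w hw)]
    refine Finset.sum_congr rfl fun v _ => ?_
    have := hscale w 1 u v hw
    rw [mul_one] at this
    show Q w (w * u) (w * v) = _
    rw [this, hQ]
    simp only [one_mul]
  have hu : ∀ u : ZMod p, u ≠ 0 → ∑ v : ZMod p, Q 0 u v = sig (insert a {b, c, d}) := by
    intro u hu
    unfold sig
    rw [← Equiv.sum_comp ((Equiv.neg (ZMod p)).trans (Equiv.mulLeft₀ u hu))]
    refine Finset.sum_congr rfl fun v _ => ?_
    have := hscale u 0 1 (-v) hu
    rw [mul_zero, mul_one] at this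
    show Q 0 u (u * (-v)) = _
    rw [this, hQ]
    simp only [zero_mul, zero_add, one_mul]
    refine Finset.prod_congr rfl fun i _ => ?_
    rw [← qc_neg hp4]
    congr 1
    ring
  have h0 : ∑ v : ZMod p, Q 0 0 v = p - 1 := by
    have h3 := sum_two_self (p := p) 0
    simp only [sub_zero] at h3
    rw [← h3]
    refine Finset.sum_congr rfl fun v _ => ?_
    rw [hQ]
    simp only [zero_mul, zero_add]
    rw [Finset.prod_const, h]
    by_cases hv : v = 0
    · rw [hv, qc_zero]; norm_num
    · have := qc_mul_self hv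
      calc quadraticChar (ZMod p) v ^ 4 = (quadraticChar (ZMod p) v * quadraticChar (ZMod p) v) ^ 2 := by
            ring
        _ = _ := by rw [this, one_pow]
  have hcardp : ((Finset.univ.erase (0 : ZMod p)).card : ℤ) = p - 1 := by
    rw [Finset.card_erase_of_mem (Finset.mem_univ _), Finset.card_univ, ZMod.card]
    have := (Fact.out : p.Prime).one_lt
    omega
  have hsumw : ∑ w : ZMod p, ∑ u : ZMod p, ∑ v : ZMod p, Q w u v =
      (∑ u : ZMod p, ∑ v : ZMod p, Q 0 u v) + (p - 1) * om (insert a {b, c, d}) := by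
    rw [← Finset.add_sum_erase _ _ (Finset.mem_univ (0 : ZMod p))]
    congr 1
    rw [Finset.sum_congr rfl fun w hw' => hw w (Finset.ne_of_mem_erase hw'), Finset.sum_const,
      nsmul_eq_mul, hcardp]
  have hsumu : ∑ u : ZMod p, ∑ v : ZMod p, Q 0 u v =
      (p - 1) + (p - 1) * sig (insert a {b, c, d}) := by
    rw [← Finset.add_sum_erase _ _ (Finset.mem_univ (0 : ZMod p)), h0]
    congr 1
    rw [Finset.sum_congr rfl fun u hu' => hu u (Finset.ne_of_mem_erase hu'), Finset.sum_const,
      nsmul_eq_mul, hcardp]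
  rw [hsumw, hsumu] at hT2
  have hp1 : ((p : ℤ) - 1) ≠ 0 := by
    have := (Fact.out : p.Prime).one_lt
    omega
  have h5 : ((p : ℤ) - 1) * (om (insert a {b, c, d}) - (p - 1 - sig (insert a {b, c, d}))) = 0 := by
    linear_combination hT2
  exact sub_eq_zero.1 ((mul_eq_zero.1 h5).resolve_left hp1)

/-- the parameters of the polynomial with two given roots -/
noncomputable def eP (P : Finset (ZMod p)) : ZMod p × ZMod p := (-∑ i ∈ P, i, ∏ i ∈ P, i)

theorem eP_val {P : Finset (ZMod p)} (hP : P.card = 2) (i : ZMod p) :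
    i ^ 2 + (eP P).1 * i + (eP P).2 = ∏ j ∈ P, (i - j) := by
  obtain ⟨a, b, hab, rfl⟩ := Finset.card_eq_two.1 hP
  unfold eP
  rw [Finset.sum_pair hab, Finset.prod_pair hab, Finset.prod_pair hab]
  ring

theorem expand2 (S : Finset (ZMod p)) :
    ∑ u : ZMod p, ∑ v : ZMod p, ∏ i ∈ S, (1 + quadraticChar (ZMod p) (i ^ 2 + u * i + v)) =
      ∑ j ∈ Finset.range (S.card + 1), ∑ I ∈ Finset.powersetCard j S, om I := by
  rw [← Finset.sum_powerset]
  unfold om
  have h : ∀ u v : ZMod p, ∏ i ∈ S, (1 + quadraticChar (ZMod p) (i ^ 2 + u * i + v)) =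
      ∑ I ∈ S.powerset, ∏ i ∈ I, quadraticChar (ZMod p) (i ^ 2 + u * i + v) :=
    fun u v => Finset.prod_one_add _
  simp only [h]
  rw [Finset.sum_congr rfl fun (u : ZMod p) _ => Finset.sum_comm (s := Finset.univ)
    (t := S.powerset) (f := fun (v : ZMod p) I =>
      ∏ i ∈ I, quadraticChar (ZMod p) (i ^ 2 + u * i + v)), Finset.sum_comm]

/-- the product modulo 16 -/
theorem prod16 {S : Finset (ZMod p)} (hS : Sq S) (h5 : S.card = 5) (u v : ZMod p) :
    (((∏ i ∈ S, (1 + quadraticChar (ZMod p) (i ^ 2 + u * i + v)) : ℤ)) : ZMod 16) =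
      (open Classical in if (u, v) ∈ (Finset.powersetCard 2 S).image eP then 8 else 0) := by
  classical
  by_cases hmem : (u, v) ∈ (Finset.powersetCard 2 S).image eP
  · rw [if_pos hmem]
    obtain ⟨P, hP, hPe⟩ := Finset.mem_image.1 hmem
    obtain ⟨hP1, hP2⟩ := Finset.mem_powersetCard.1 hP
    have hval : ∀ i, i ^ 2 + u * i + v = ∏ j ∈ P, (i - j) := by
      intro i
      rw [← eP_val hP2, hPe]
    have e1 : ∏ i ∈ S, (1 + quadraticChar (ZMod p) (i ^ 2 + u * i + v)) = 8 := by
      rw [← Finset.prod_sdiff hP1]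
      have e2 : ∏ i ∈ P, (1 + quadraticChar (ZMod p) (i ^ 2 + u * i + v)) = 1 := by
        refine Finset.prod_eq_one fun i hi => ?_
        rw [hval, Finset.prod_eq_zero hi (sub_self i), qc_zero, add_zero]
      have e3 : ∏ i ∈ S \ P, (1 + quadraticChar (ZMod p) (i ^ 2 + u * i + v)) = 8 := by
        rw [Finset.prod_congr rfl (g := fun _ => (2 : ℤ)), Finset.prod_const,
          Finset.card_sdiff_of_subset hP1, h5, hP2]
        · norm_num
        · intro i hi
          obtain ⟨hi1, hi2⟩ := Finset.mem_sdiff.1 hi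
          rw [hval, map_prod, Finset.prod_eq_one]
          · norm_num
          · intro j hj
            exact hS i hi1 j (hP1 hj) fun h => hi2 (h ▸ hj)
      rw [e2, e3, mul_one]
    rw [e1]
    rfl
  · rw [if_neg hmem]
    -- at most one zero
    have hone : ∀ a ∈ S, ∀ b ∈ S, a ^ 2 + u * a + v = 0 → b ^ 2 + u * b + v = 0 → a = b := by
      intro a ha b hb h1 h2
      by_contra hab
      apply hmem
      refine Finset.mem_image.2 ⟨{a, b}, Finset.mem_powersetCard.2 ⟨?_, Finset.card_pair hab⟩, ?_⟩
      · intro x hx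
        rcases Finset.mem_insert.1 hx with rfl | hx
        · exact ha
        · rw [Finset.mem_singleton.1 hx]; exact hb
      · unfold eP
        rw [Finset.sum_pair hab, Finset.prod_pair hab]
        have h3 : (a - b) * (a + b + u) = 0 := by linear_combination h1 - h2
        have h4 : a + b + u = 0 := (mul_eq_zero.1 h3).resolve_left (sub_ne_zero.2 hab)
        apply Prod.ext
        · simp only
          linear_combination -h4
        · simp only
          linear_combination -h1 + a * h4
    by_cases hneg : ∃ i ∈ S, quadraticChar (ZMod p) (i ^ 2 + u * i + v) = -1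
    · obtain ⟨i, hi, hi1⟩ := hneg
      rw [Finset.prod_eq_zero hi (by rw [hi1]; norm_num)]
      rfl
    · push Not at hneg
      have hfac : ∀ i ∈ S, i ^ 2 + u * i + v ≠ 0 →
          1 + quadraticChar (ZMod p) (i ^ 2 + u * i + v) = 2 := by
        intro i hi h0
        rcases quadraticChar_dichotomy h0 with h1 | h1
        · rw [h1]; norm_num
        · exact absurd h1 (hneg i hi)
      by_cases hz : ∃ a ∈ S, a ^ 2 + u * a + v = 0
      · obtain ⟨a, ha, ha0⟩ := hz
        rw [← Finset.mul_prod_erase S _ ha, ha0, qc_zero, add_zero, one_mul,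
          Finset.prod_congr rfl (g := fun _ => (2 : ℤ)), Finset.prod_const,
          Finset.card_erase_of_mem ha, h5]
        · rfl
        · intro i hi
          refine hfac i (Finset.mem_of_mem_erase hi) fun h0 => ?_
          exact Finset.ne_of_mem_erase hi (hone i (Finset.mem_of_mem_erase hi) a ha h0 ha0)
      · push Not at hz
        rw [Finset.prod_congr rfl (g := fun _ => (2 : ℤ)), Finset.prod_const, h5]
        · rfl
        · intro i hi
          exact hfac i hi (hz i hi)

theorem om_five (hp16 : p % 16 = 1) {S : Finset (ZMod p)} (hS : Sq S) (h5 : S.card = 5) :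
    ((om S : ℤ) : ZMod 16) = 6 := by
  classical
  have hp4 : p % 4 = 1 := by omega
  have hL : ((∑ u : ZMod p, ∑ v : ZMod p, ∏ i ∈ S,
      (1 + quadraticChar (ZMod p) (i ^ 2 + u * i + v)) : ℤ) : ZMod 16) = 0 := by
    rw [Int.cast_sum, Finset.sum_congr rfl fun u _ => Int.cast_sum _ _,
      Finset.sum_congr rfl fun u _ => Finset.sum_congr rfl fun v _ => prod16 hS h5 u v,
      ← Fintype.sum_prod_type' (f := fun u v : ZMod p =>
        (if (u, v) ∈ (Finset.powersetCard 2 S).image eP then (8 : ZMod 16) else 0)),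
      ← Finset.sum_filter, Finset.sum_const]
    have e1 : (Finset.univ.filter fun x : ZMod p × ZMod p =>
        (x.1, x.2) ∈ (Finset.powersetCard 2 S).image eP) = (Finset.powersetCard 2 S).image eP := by
      ext x
      simp
    have einj : Set.InjOn (eP (p := p)) (↑(Finset.powersetCard 2 S) : Set (Finset (ZMod p))) := by
      intro P hP P' hP' he
      obtain ⟨hP1, hP2⟩ := Finset.mem_powersetCard.1 (Finset.mem_coe.1 hP)
      obtain ⟨hP'1, hP'2⟩ := Finset.mem_powersetCard.1 (Finset.mem_coe.1 hP')
      apply Finset.eq_of_subset_of_card_le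
      · intro i hi
        have h1 := eP_val hP2 i
        rw [Finset.prod_eq_zero hi (sub_self i), he, eP_val hP'2, Finset.prod_eq_zero_iff] at h1
        obtain ⟨j, hj, hij⟩ := h1
        rw [sub_eq_zero.1 hij]
        exact hj
      · rw [hP2, hP'2]
    rw [e1, Finset.card_image_of_injOn einj, Finset.card_powersetCard, h5]
    decide
  rw [expand2, h5] at hL
  have e0 : ∑ I ∈ Finset.powersetCard 0 S, om I = (p : ℤ) * p := by
    rw [Finset.powersetCard_zero, Finset.sum_singleton, om_zero Finset.card_empty]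
  have e1 : ∑ I ∈ Finset.powersetCard 1 S, om I = 0 :=
    Finset.sum_eq_zero fun I hI => om_one hp4 (Finset.mem_powersetCard.1 hI).2
  have e2 : ∑ I ∈ Finset.powersetCard 2 S, om I = 0 :=
    Finset.sum_eq_zero fun I hI => om_two hp4 (Finset.mem_powersetCard.1 hI).2
  have e3 : ∑ I ∈ Finset.powersetCard 3 S, om I = 10 * p := by
    rw [Finset.sum_congr rfl fun I hI => om_three hp4 (hS.mono (Finset.mem_powersetCard.1 hI).1)
      (Finset.mem_powersetCard.1 hI).2, Finset.sum_const, Finset.card_powersetCard, h5,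
      nsmul_eq_mul]
    rfl
  have e4 : ((∑ I ∈ Finset.powersetCard 4 S, om I : ℤ) : ZMod 16) = 5 * 3 := by
    rw [Int.cast_sum]
    have h6 : ∀ I ∈ Finset.powersetCard 4 S, ((om I : ℤ) : ZMod 16) = 3 := by
      intro I hI
      rw [om_four hp4 (hS.mono (Finset.mem_powersetCard.1 hI).1) (Finset.mem_powersetCard.1 hI).2]
      push_cast
      have h7 := cast_p hp16
      push_cast at h7
      rw [h7, sig_four hp16 (hS.mono (Finset.mem_powersetCard.1 hI).1)
        (Finset.mem_powersetCard.1 hI).2]
      decide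
    rw [Finset.sum_congr rfl h6, Finset.sum_const, Finset.card_powersetCard, h5, nsmul_eq_mul]
    rfl
  have e5 : ∑ I ∈ Finset.powersetCard 5 S, om I = om S := by
    rw [← h5, Finset.powersetCard_self, Finset.sum_singleton]
  simp only [Finset.sum_range_succ, Finset.sum_range_zero, zero_add] at hL
  rw [e0, e1, e2, e3, e5] at hL
  push_cast at hL e4
  have h7 := cast_p hp16
  push_cast at h7
  rw [h7, e4] at hL
  have h8 : ((om S : ℤ) : ZMod 16) = -(1 * 1 + 0 + 0 + 10 * 1 + 5 * 3) := by
    linear_combination hL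
  rw [h8]
  decide

end

end Pool.Agent.R410.OR
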