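import Pool.Agent.R410.OR.G2c
import Pool.Agent.H341R2.WeilSharp

/-!
# The Hasse-Witt determinant in genus two and the second coefficient of the `L`-polynomial
-/

set_option autoImplicit false
set_option linter.all false

open Polynomial

namespace Pool.Agent.R410.OR

open Pool.Agent.H341R2.Sharp (Mon mem_Mon lam A A_zero A_eq_zero n_mul_A T T_eq_sum)

section
variable {p : ℕ} [Fact p.Prime]

/-- the second coefficient as a sum over monic quadratic polynomials -/
theorem A_two {S : Finset (ZMod p)} : A (∏ i ∈ S, (X - C i)) 2 = om S := by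
  classical
  unfold A om
  rw [← Fintype.sum_prod_type' (f := fun u v => ∏ i ∈ S, quadraticChar (ZMod p) (i ^ 2 + u * i + v))]
  symm
  refine Finset.sum_bij' (fun e _ => X ^ 2 + C e.1 * X + C e.2)
    (fun h _ => (h.coeff 1, h.coeff 0)) ?_ ?_ ?_ ?_ ?_
  · rintro ⟨u, v⟩ _
    rw [mem_Mon]
    have e : (X ^ 2 + C u * X + C v : (ZMod p)[X]) = C 1 * X ^ 2 + C u * X + C v := by
      rw [C_1, one_mul]
    simp only
    rw [e]
    refine ⟨?_, natDegree_quadratic one_ne_zero⟩
    rw [Monic, leadingCoeff_quadratic one_ne_zero]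
  · intro h _
    exact Finset.mem_univ _
  · rintro ⟨u, v⟩ _
    simp [coeff_X, coeff_C]
  · intro h hh
    rw [mem_Mon] at hh
    ext n
    have h2 : h.coeff 2 = 1 := by
      have := hh.1
      rw [Monic, leadingCoeff, hh.2] at this
      exact this
    rcases n with _ | _ | _ | n
    · simp
    · simp [coeff_X, coeff_C]
    · simp [coeff_X, coeff_C, h2]
    · have h3 : h.coeff (n + 1 + 1 + 1) = 0 :=
        coeff_eq_zero_of_natDegree_lt (by rw [hh.2]; omega)
      rw [h3]
      simp [coeff_X, coeff_C, coeff_X_pow]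
  · rintro ⟨u, v⟩ _
    have e : (X ^ 2 + C u * X + C v : (ZMod p)[X]) = C 1 * X ^ 2 + C u * X + C v := by
      rw [C_1, one_mul]
    have hd : (X ^ 2 + C u * X + C v : (ZMod p)[X]).natDegree = 2 := by
      rw [e]
      exact natDegree_quadratic one_ne_zero
    show ∏ i ∈ S, quadraticChar (ZMod p) (i ^ 2 + u * i + v) = lam _ _
    unfold lam
    rw [hd, resultant_prod_right S _ (fun i => X - C i) 2 hd.le (by simp), map_prod]
    refine Finset.prod_congr rfl fun i _ => ?_
    rw [natDegree_X_sub_C, resultant_X_sub_C_right _ _ _ hd.le]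
    simp

/-- sums of powers over a finite field -/
theorem sum_pow_field {E : Type*} [Field E] [Fintype E] [DecidableEq E] (j : ℕ) (hj : j ≠ 0) :
    ∑ x : E, x ^ j = if Fintype.card E - 1 ∣ j then (-1 : E) else 0 := by
  classical
  have h1 := FiniteField.sum_pow_units E j
  rw [← h1]
  let φ : Eˣ ↪ E := ⟨fun x => x, Units.val_injective⟩
  have h2 : Finset.univ.map φ = Finset.univ.erase (0 : E) := by
    ext x
    simp only [Finset.mem_map, Finset.mem_univ, true_and, Finset.mem_erase, and_true, φ,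
      Function.Embedding.coeFn_mk]
    constructor
    · rintro ⟨u, rfl⟩
      exact u.ne_zero
    · intro h
      exact ⟨Units.mk0 x h, rfl⟩
  have h3 : ∑ x ∈ Finset.univ.erase (0 : E), x ^ j = ∑ x : E, x ^ j := by
    apply Finset.sum_erase
    exact zero_pow hj
  rw [← h3, ← h2, Finset.sum_map]
  rfl

theorem sum_poly3 (hp3 : 3 ≤ p) (P : (ZMod p)[X]) (hP : P.natDegree < 3 * (p - 1)) :
    ∑ x : ZMod p, P.eval x = -P.coeff (p - 1) - P.coeff (2 * (p - 1)) := by
  classical
  have h1 : ∀ x : ZMod p, P.eval x = ∑ j ∈ Finset.range (3 * (p - 1)), P.coeff j * x ^ j :=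
    fun x => eval_eq_sum_range' hP x
  rw [Finset.sum_congr rfl fun x _ => h1 x, Finset.sum_comm]
  have h2 : ∀ j ∈ Finset.range (3 * (p - 1)), ∑ x : ZMod p, P.coeff j * x ^ j =
      (if j = p - 1 then -P.coeff j else 0) + (if j = 2 * (p - 1) then -P.coeff j else 0) := by
    intro j hj
    rw [← Finset.mul_sum]
    have hj' : j < 3 * (p - 1) := Finset.mem_range.1 hj
    by_cases hj0 : j = 0
    · subst hj0
      rw [if_neg (by omega), if_neg (by omega)]
      simp
    · rw [sum_pow_all j hj0]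
      by_cases hd : p - 1 ∣ j
      · rw [if_pos hd]
        obtain ⟨e, he⟩ := hd
        have he2 : e = 1 ∨ e = 2 := by
          have h3 : e ≠ 0 := fun h => hj0 (by rw [he, h, mul_zero])
          have h4 : e < 3 := by
            by_contra h5
            have : (p - 1) * 3 ≤ (p - 1) * e := Nat.mul_le_mul_left _ (not_lt.1 h5)
            omega
          omega
        rcases he2 with rfl | rfl
        · rw [mul_one] at he
          rw [if_pos he, if_neg (by omega)]
          ring
        · rw [if_neg (by omega), if_pos (by omega)]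
          ring
      · rw [if_neg hd, if_neg (fun h => hd (by rw [h])), if_neg (fun h => hd (by rw [h]; exact Dvd.intro_left _ rfl))]
        simp
  rw [Finset.sum_congr rfl h2, Finset.sum_add_distrib, Finset.sum_ite_eq', Finset.sum_ite_eq',
    if_pos (Finset.mem_range.2 (by omega)), if_pos (Finset.mem_range.2 (by omega))]
  ring

theorem T_one (hp4 : p % 4 = 1) (f : (ZMod p)[X])
    (hf : (f ^ ((p - 1) / 2)).natDegree < 3 * (p - 1)) :
    ((T f 1 : ℤ) : ZMod p) = -(f ^ ((p - 1) / 2)).coeff (p - 1) -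
      (f ^ ((p - 1) / 2)).coeff (2 * (p - 1)) := by
  have hp3 : 3 ≤ p := by
    have := (Fact.out : p.Prime).two_le
    omega
  have h2 := T_eq_sum (F := ZMod p) (E := ZMod p) (ringChar_ne hp4) f
  rw [Module.finrank_self] at h2
  rw [h2, ← sum_poly3 hp3 _ hf]
  push_cast
  refine Finset.sum_congr rfl fun x _ => ?_
  rw [← pow_eq_qc hp4, eval_pow]
  simp

/-- the exponents -/
theorem expo (hp3 : 3 ≤ p) {k l : ℕ} (hk : k < 3 * (p - 1)) (hl : l < 3 * (p - 1))
    (h0 : k + p * l ≠ 0) : p ^ 2 - 1 ∣ k + p * l ↔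
      (k = p - 1 ∧ l = p - 1) ∨ (k = 2 * p - 1 ∧ l = p - 2) ∨ (k = p - 2 ∧ l = 2 * p - 1) ∨
        (k = 2 * (p - 1) ∧ l = 2 * (p - 1)) := by
  obtain ⟨q, rfl⟩ : ∃ q, p = q + 3 := ⟨p - 3, by omega⟩
  have e1 : q + 3 - 1 = q + 2 := by omega
  have e2 : q + 3 - 2 = q + 1 := by omega
  have e3 : 2 * (q + 3) - 1 = 2 * q + 5 := by omega
  have e4 : (q + 3) ^ 2 - 1 = (q + 2) * (q + 4) := by
    have : (q + 3) ^ 2 = (q + 2) * (q + 4) + 1 := by ring
    omega
  rw [e1] at hk hl
  rw [e1, e2, e3, e4]
  constructor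
  · rintro ⟨e, he⟩
    have he3 : e < 3 := by
      by_contra h
      have h1 : (q + 2) * (q + 4) * 3 ≤ (q + 2) * (q + 4) * e := Nat.mul_le_mul_left _ (not_lt.1 h)
      have h2 : (q + 3) * l ≤ (q + 3) * (3 * (q + 2) - 1) := Nat.mul_le_mul_left _ (by omega)
      have h3 : (q + 3) * (3 * (q + 2) - 1) + (3 * (q + 2)) ≤ (q + 2) * (q + 4) * 3 := by
        have : 3 * (q + 2) - 1 = 3 * q + 5 := by omega
        rw [this]
        nlinarith
      omega
    have he0 : e ≠ 0 := fun h => h0 (by rw [he, h, mul_zero])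
    have hl1 : (q + 3) * l ≤ (q + 2) * (q + 4) * e := by omega
    have hl2 : (q + 2) * (q + 4) * e < (q + 3) * l + 3 * (q + 2) := by omega
    have he12 : e = 1 ∨ e = 2 := by omega
    rcases he12 with rfl | rfl
    · -- k + p l = p² - 1
      have hlo : q < l := by
        by_contra h
        have : (q + 3) * l ≤ (q + 3) * q := Nat.mul_le_mul_left _ (not_lt.1 h)
        nlinarith
      have hhi : l < q + 3 := by
        by_contra h
        have : (q + 3) * (q + 3) ≤ (q + 3) * l := Nat.mul_le_mul_left _ (not_lt.1 h)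
        nlinarith
      have hl12 : l = q + 1 ∨ l = q + 2 := by omega
      rcases hl12 with rfl | rfl
      · right; left
        refine ⟨?_, rfl⟩
        nlinarith
      · left
        refine ⟨?_, rfl⟩
        nlinarith
    · have hlo : 2 * q + 3 < l := by
        by_contra h
        have : (q + 3) * l ≤ (q + 3) * (2 * q + 3) := Nat.mul_le_mul_left _ (not_lt.1 h)
        nlinarith
      have hhi : l < 2 * q + 6 := by
        by_contra h
        have : (q + 3) * (2 * q + 6) ≤ (q + 3) * l := Nat.mul_le_mul_left _ (not_lt.1 h)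
        nlinarith
      have hl12 : l = 2 * q + 4 ∨ l = 2 * q + 5 := by omega
      rcases hl12 with rfl | rfl
      · right; right; right
        refine ⟨?_, by ring⟩
        nlinarith
      · right; right; left
        refine ⟨?_, rfl⟩
        nlinarith
  · rintro (⟨rfl, rfl⟩ | ⟨rfl, rfl⟩ | ⟨rfl, rfl⟩ | ⟨rfl, rfl⟩)
    · exact ⟨1, by ring⟩
    · exact ⟨1, by ring⟩
    · exact ⟨2, by ring⟩
    · exact ⟨2, by ring⟩

theorem T_two_aux (hp4 : p % 4 = 1) (f : (ZMod p)[X])
    (hf : (f ^ ((p - 1) / 2)).natDegree < 3 * (p - 1)) {E : Type*} [Field E] [Fintype E]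
    [DecidableEq E] [Algebra (ZMod p) E] (hfr : Module.finrank (ZMod p) E = 2) :
    ((T f 2 : ℤ) : ZMod p) = -((f ^ ((p - 1) / 2)).coeff (p - 1) ^ 2 +
      2 * ((f ^ ((p - 1) / 2)).coeff (p - 2) * (f ^ ((p - 1) / 2)).coeff (2 * p - 1)) +
      (f ^ ((p - 1) / 2)).coeff (2 * (p - 1)) ^ 2) := by
  classical
  have hp3 : 3 ≤ p := by
    have := (Fact.out : p.Prime).two_le
    omega
  set P := f ^ ((p - 1) / 2) with hP
  have hcard : Fintype.card E = p ^ 2 := by
    rw [Module.card_eq_pow_finrank (K := ZMod p) (V := E), hfr, ZMod.card]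
  have hE : ringChar E ≠ 2 := by
    rw [← Algebra.ringChar_eq (ZMod p) E]
    exact ringChar_ne hp4
  have hT := T_eq_sum (F := ZMod p) (E := E) (ringChar_ne hp4) f
  rw [hfr] at hT
  have hhalf : Fintype.card E / 2 = (p - 1) / 2 * (p + 1) := by
    rw [hcard]
    obtain ⟨m, hm⟩ : ∃ m, p = 4 * m + 1 := ⟨p / 4, by omega⟩
    have e1 : (p - 1) / 2 = 2 * m := by omega
    rw [e1, hm]
    have e2 : (4 * m + 1) ^ 2 = 2 * (2 * m * (4 * m + 1 + 1)) + 1 := by ring
    omega
  have hpow : ∀ x : E, ((quadraticChar E (aeval x f) : ℤ) : E) =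
      ∑ k ∈ Finset.range (3 * (p - 1)), ∑ l ∈ Finset.range (3 * (p - 1)),
        algebraMap (ZMod p) E (P.coeff k * P.coeff l) * x ^ (k + p * l) := by
    intro x
    have e1 : ((quadraticChar E (aeval x f) : ℤ) : E) = aeval x P * aeval (x ^ p) P := by
      rw [quadraticChar_eq_pow_of_char_ne_two' hE, hhalf, pow_mul, ← map_pow, ← hP, pow_succ,
        mul_comm]
      congr 1
      rw [← map_pow, ← ZMod.expand_card, expand_aeval]
    have e2 : ∀ y : E, aeval y P = ∑ k ∈ Finset.range (3 * (p - 1)),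
        algebraMap (ZMod p) E (P.coeff k) * y ^ k := by
      intro y
      rw [aeval_eq_sum_range' hf]
      refine Finset.sum_congr rfl fun k _ => ?_
      rw [Algebra.smul_def]
    rw [e1, e2, e2, Finset.sum_mul_sum]
    refine Finset.sum_congr rfl fun k _ => Finset.sum_congr rfl fun l _ => ?_
    rw [map_mul, pow_add, pow_mul]
    ring
  have hsum : ((T f 2 : ℤ) : E) = ∑ k ∈ Finset.range (3 * (p - 1)),
      ∑ l ∈ Finset.range (3 * (p - 1)), algebraMap (ZMod p) E (P.coeff k * P.coeff l) *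
        ∑ x : E, x ^ (k + p * l) := by
    rw [hT, Int.cast_sum]
    rw [Finset.sum_congr rfl fun x _ => hpow x, Finset.sum_comm]
    refine Finset.sum_congr rfl fun k _ => ?_
    rw [Finset.sum_comm]
    refine Finset.sum_congr rfl fun l _ => ?_
    rw [Finset.mul_sum]
  have hw : ∀ k ∈ Finset.range (3 * (p - 1)), ∀ l ∈ Finset.range (3 * (p - 1)),
      ∑ x : E, x ^ (k + p * l) =
        -((if k = p - 1 then (if l = p - 1 then (1 : E) else 0) else 0) +
        (if k = 2 * p - 1 then (if l = p - 2 then (1 : E) else 0) else 0) +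
        (if k = p - 2 then (if l = 2 * p - 1 then (1 : E) else 0) else 0) +
        (if k = 2 * (p - 1) then (if l = 2 * (p - 1) then (1 : E) else 0) else 0)) := by
    intro k hk l hl
    rw [Finset.mem_range] at hk hl
    by_cases h0 : k + p * l = 0
    · have hk0 : k = 0 := by omega
      subst hk0
      rw [h0, if_neg (by omega), if_neg (by omega), if_neg (by omega), if_neg (by omega)]
      simp only [pow_zero, Finset.sum_const, Finset.card_univ, hcard, nsmul_eq_mul, mul_one]
      push_cast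
      have : ((p : ℕ) : E) = 0 := by
        have h1 : algebraMap (ZMod p) E ((p : ℕ) : ZMod p) = ((p : ℕ) : E) := map_natCast _ _
        rw [← h1, ZMod.natCast_self, map_zero]
      rw [this]
      simp
    · rw [sum_pow_field _ h0, hcard]
      by_cases h1 : p ^ 2 - 1 ∣ k + p * l
      · rw [if_pos h1]
        rcases (expo hp3 hk hl h0).1 h1 with ⟨rfl, rfl⟩ | ⟨rfl, rfl⟩ | ⟨rfl, rfl⟩ | ⟨rfl, rfl⟩
        · rw [if_pos rfl, if_pos rfl, if_neg (by omega), if_neg (by omega), if_neg (by omega)]
          ring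
        · rw [if_neg (by omega), if_pos rfl, if_pos rfl, if_neg (by omega), if_neg (by omega)]
          ring
        · rw [if_neg (by omega), if_neg (by omega), if_pos rfl, if_pos rfl, if_neg (by omega)]
          ring
        · rw [if_neg (by omega), if_neg (by omega), if_neg (by omega), if_pos rfl, if_pos rfl]
          ring
      · rw [if_neg h1]
        have h2 := mt (expo hp3 hk hl h0).2 h1
        simp only [not_or, not_and] at h2
        obtain ⟨a1, a2, a3, a4⟩ := h2
        have b1 : (if k = p - 1 then (if l = p - 1 then (1 : E) else 0) else 0) = 0 := by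
          by_cases h : k = p - 1
          · rw [if_pos h, if_neg (a1 h)]
          · rw [if_neg h]
        have b2 : (if k = 2 * p - 1 then (if l = p - 2 then (1 : E) else 0) else 0) = 0 := by
          by_cases h : k = 2 * p - 1
          · rw [if_pos h, if_neg (a2 h)]
          · rw [if_neg h]
        have b3 : (if k = p - 2 then (if l = 2 * p - 1 then (1 : E) else 0) else 0) = 0 := by
          by_cases h : k = p - 2
          · rw [if_pos h, if_neg (a3 h)]
          · rw [if_neg h]
        have b4 : (if k = 2 * (p - 1) then (if l = 2 * (p - 1) then (1 : E) else 0) else 0) = 0 := by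
          by_cases h : k = 2 * (p - 1)
          · rw [if_pos h, if_neg (a4 h)]
          · rw [if_neg h]
        rw [b1, b2, b3, b4]
        ring
  have hind : ∀ a b : ℕ, a < 3 * (p - 1) → b < 3 * (p - 1) →
      ∑ k ∈ Finset.range (3 * (p - 1)), ∑ l ∈ Finset.range (3 * (p - 1)),
        algebraMap (ZMod p) E (P.coeff k * P.coeff l) *
          (if k = a then (if l = b then (1 : E) else 0) else 0) =
        algebraMap (ZMod p) E (P.coeff a * P.coeff b) := by
    intro a b ha hb
    rw [Finset.sum_eq_single a]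
    · rw [Finset.sum_eq_single b]
      · rw [if_pos rfl, if_pos rfl, mul_one]
      · intro l _ hl
        rw [if_pos rfl, if_neg hl, mul_zero]
      · intro h
        exact absurd (Finset.mem_range.2 hb) h
    · intro k _ hk
      refine Finset.sum_eq_zero fun l _ => ?_
      rw [if_neg hk, mul_zero]
    · intro h
      exact absurd (Finset.mem_range.2 ha) h
  apply (algebraMap (ZMod p) E).injective
  rw [map_intCast, hsum]
  refine (Finset.sum_congr rfl fun k hk => Finset.sum_congr rfl fun l hl =>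
    congrArg (fun z => algebraMap (ZMod p) E (P.coeff k * P.coeff l) * z) (hw k hk l hl)).trans ?_
  simp only [mul_neg, mul_add, Finset.sum_neg_distrib, Finset.sum_add_distrib]
  rw [hind _ _ (by omega) (by omega), hind _ _ (by omega) (by omega), hind _ _ (by omega) (by omega),
    hind _ _ (by omega) (by omega)]
  simp only [map_neg, map_add, map_mul, map_pow, map_ofNat]
  ring

theorem T_two (hp4 : p % 4 = 1) (f : (ZMod p)[X])
    (hf : (f ^ ((p - 1) / 2)).natDegree < 3 * (p - 1)) :
    ((T f 2 : ℤ) : ZMod p) = -((f ^ ((p - 1) / 2)).coeff (p - 1) ^ 2 +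
      2 * ((f ^ ((p - 1) / 2)).coeff (p - 2) * (f ^ ((p - 1) / 2)).coeff (2 * p - 1)) +
      (f ^ ((p - 1) / 2)).coeff (2 * (p - 1)) ^ 2) := by
  classical
  let _ : Fintype (GaloisField p 2) := Fintype.ofFinite (GaloisField p 2)
  exact T_two_aux hp4 f hf (E := GaloisField p 2) (GaloisField.finrank p two_ne_zero)

theorem hw_two (f : (ZMod p)[X]) (hp3 : 3 ≤ p) : (hw p 2 f).det =
    (f ^ ((p - 1) / 2)).coeff (p - 1) * (f ^ ((p - 1) / 2)).coeff (2 * (p - 1)) -
      (f ^ ((p - 1) / 2)).coeff (p - 2) * (f ^ ((p - 1) / 2)).coeff (2 * p - 1) := by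
  rw [Matrix.det_fin_two]
  have e : ∀ i j : Fin 2, hw p 2 f i j = (f ^ ((p - 1) / 2)).coeff (p * ((i : ℕ) + 1) - ((j : ℕ) + 1)) := by
    intro i j
    show (X ^ ((j : ℕ) + 1) * f ^ ((p - 1) / 2)).coeff (p * ((i : ℕ) + 1)) = _
    have h1 : p * 1 ≤ p * ((i : ℕ) + 1) := Nat.mul_le_mul_left _ (by omega)
    have h2 : p * ((i : ℕ) + 1) = p * ((i : ℕ) + 1) - ((j : ℕ) + 1) + ((j : ℕ) + 1) := by
      have := j.2
      omega
    conv_lhs => rw [h2]
    rw [coeff_X_pow_mul]
  rw [e, e, e, e]
  have e1 : p * (((0 : Fin 2) : ℕ) + 1) - (((0 : Fin 2) : ℕ) + 1) = p - 1 := by simp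
  have e2 : p * (((1 : Fin 2) : ℕ) + 1) - (((1 : Fin 2) : ℕ) + 1) = 2 * (p - 1) := by
    have h1 : ((1 : Fin 2) : ℕ) = 1 := rfl
    rw [h1]
    omega
  have e3 : p * (((0 : Fin 2) : ℕ) + 1) - (((1 : Fin 2) : ℕ) + 1) = p - 2 := by
    simp
  have e4 : p * (((1 : Fin 2) : ℕ) + 1) - (((0 : Fin 2) : ℕ) + 1) = 2 * p - 1 := by
    have h1 : ((1 : Fin 2) : ℕ) = 1 := rfl
    have h0 : ((0 : Fin 2) : ℕ) = 0 := rfl
    rw [h1, h0]
    omega
  rw [e1, e2, e3, e4]

/-- **The determinant is the second coefficient.** -/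
theorem det_A (hp4 : p % 4 = 1) (f : (ZMod p)[X])
    (hf : (f ^ ((p - 1) / 2)).natDegree < 3 * (p - 1)) :
    (hw p 2 f).det = ((A f 2 : ℤ) : ZMod p) := by
  have hp3 : 3 ≤ p := by
    have := (Fact.out : p.Prime).two_le
    omega
  have h1 := n_mul_A f 1
  rw [Finset.Icc_self, Finset.sum_singleton, Nat.sub_self, A_zero] at h1
  have h1' : A f 1 = T f 1 := by simpa using h1
  have h2 := n_mul_A f 2
  have h3 : Finset.Icc 1 2 = ({1, 2} : Finset ℕ) := by decide
  rw [h3, Finset.sum_pair (by norm_num)] at h2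
  have h4 : 2 * A f 2 = T f 1 * T f 1 + T f 2 := by
    have h5 : A f (2 - 1) = T f 1 := h1'
    have h6 : A f (2 - 2) = 1 := A_zero f
    rw [h5, h6] at h2
    push_cast at h2
    linarith
  have h5 := congrArg (Int.cast : ℤ → ZMod p) h4
  push_cast at h5
  rw [T_one hp4 f hf, T_two hp4 f hf] at h5
  rw [hw_two f hp3]
  apply mul_left_cancel₀ (two_ne hp4)
  rw [h5]
  ring

end

end Pool.Agent.R410.OR
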