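import Pool.Agent.R410.OR.G2d

/-!
# The bound for the second coefficient, and the Hasse-Witt determinant for five points
-/

set_option autoImplicit false
set_option linter.all false

open Polynomial

namespace Pool.Agent.R410.OR

open Pool.Agent.H341R2.Sharp (Mon mem_Mon lam A A_zero A_eq_zero n_mul_A T T_eq_sum T_bound exists_r
  root_norm)

theorem eq_real {c : ℂ} {s : ℝ} (h : ‖c‖ ≤ s) (hre : s ≤ c.re) : c = s := by
  have h1 : c.re = s := le_antisymm ((Complex.re_le_norm c).trans h) hre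
  have h2 : |c.re| = ‖c‖ := by
    have h3 := Complex.abs_re_le_norm c
    have h4 : s ≤ |c.re| := by rw [h1]; exact le_abs_self s
    linarith
  have h3 := Complex.abs_re_eq_norm.1 h2
  exact Complex.ext (by rw [h1, Complex.ofReal_re]) (by rw [h3, Complex.ofReal_im])

theorem coeff_quartic (a b c d : ℂ) :
    (X ^ 4 + C a * X ^ 3 + C b * X ^ 2 + C c * X + C d : ℂ[X]).coeff 2 = b ∧
    (X ^ 4 + C a * X ^ 3 + C b * X ^ 2 + C c * X + C d : ℂ[X]).coeff 3 = a := by
  constructor
  · simp [coeff_X, coeff_C, coeff_X_pow]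
  · simp [coeff_X, coeff_C, coeff_X_pow]

theorem quartic {x y z w : ℂ} {r : ℝ} (hr : 0 < r) (hx : ‖x‖ ≤ r) (hy : ‖y‖ ≤ r) (hz : ‖z‖ ≤ r)
    (hw : ‖w‖ ≤ r) : ‖x * y + x * z + x * w + y * z + y * w + z * w‖ ≤ 6 * r ^ 2 ∧
      (x * y + x * z + x * w + y * z + y * w + z * w = (6 * r ^ 2 : ℝ) →
        (x + y + z + w) ^ 2 = (16 * r ^ 2 : ℝ)) := by
  have hm : ∀ a b : ℂ, ‖a‖ ≤ r → ‖b‖ ≤ r → ‖a * b‖ ≤ r ^ 2 := by
    intro a b ha hb
    rw [norm_mul, sq]
    exact mul_le_mul ha hb (norm_nonneg _) hr.le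
  have h1 := hm x y hx hy
  have h2 := hm x z hx hz
  have h3 := hm x w hx hw
  have h4 := hm y z hy hz
  have h5 := hm y w hy hw
  have h6 := hm z w hz hw
  constructor
  · calc ‖x * y + x * z + x * w + y * z + y * w + z * w‖
        ≤ ‖x * y‖ + ‖x * z‖ + ‖x * w‖ + ‖y * z‖ + ‖y * w‖ + ‖z * w‖ := by
          refine (norm_add_le _ _).trans (add_le_add_left ?_ _)
          refine (norm_add_le _ _).trans (add_le_add_left ?_ _)
          refine (norm_add_le _ _).trans (add_le_add_left ?_ _)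
          refine (norm_add_le _ _).trans (add_le_add_left ?_ _)
          exact norm_add_le _ _
      _ ≤ 6 * r ^ 2 := by linarith
  · intro h
    have hre := congrArg Complex.re h
    simp only [Complex.add_re, Complex.ofReal_re] at hre
    have r1 := (Complex.re_le_norm (x * y)).trans h1
    have r2 := (Complex.re_le_norm (x * z)).trans h2
    have r3 := (Complex.re_le_norm (x * w)).trans h3
    have r4 := (Complex.re_le_norm (y * z)).trans h4
    have r5 := (Complex.re_le_norm (y * w)).trans h5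
    have r6 := (Complex.re_le_norm (z * w)).trans h6
    have e1 : x * y = ((r ^ 2 : ℝ) : ℂ) := eq_real h1 (by linarith)
    have e2 : x * z = ((r ^ 2 : ℝ) : ℂ) := eq_real h2 (by linarith)
    have e3 : x * w = ((r ^ 2 : ℝ) : ℂ) := eq_real h3 (by linarith)
    have e4 : y * z = ((r ^ 2 : ℝ) : ℂ) := eq_real h4 (by linarith)
    have e5 : y * w = ((r ^ 2 : ℝ) : ℂ) := eq_real h5 (by linarith)
    have e6 : z * w = ((r ^ 2 : ℝ) : ℂ) := eq_real h6 (by linarith)
    have hr2 : ((r ^ 2 : ℝ) : ℂ) ≠ 0 := by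
      rw [Ne, Complex.ofReal_eq_zero]
      positivity
    have s1 : x ^ 2 = ((r ^ 2 : ℝ) : ℂ) := by
      apply mul_right_cancel₀ hr2
      nth_rewrite 1 [← e4]
      rw [← e1]
      linear_combination (x * y) * e2 - (x * y) * e1
    have s2 : y ^ 2 = ((r ^ 2 : ℝ) : ℂ) := by
      apply mul_right_cancel₀ hr2
      nth_rewrite 1 [← e2]
      linear_combination (y * z) * e1 + ((r ^ 2 : ℝ) : ℂ) * e4
    have s3 : z ^ 2 = ((r ^ 2 : ℝ) : ℂ) := by
      apply mul_right_cancel₀ hr2
      nth_rewrite 1 [← e1]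
      linear_combination (y * z) * e2 + ((r ^ 2 : ℝ) : ℂ) * e4
    have s4 : w ^ 2 = ((r ^ 2 : ℝ) : ℂ) := by
      apply mul_right_cancel₀ hr2
      nth_rewrite 1 [← e1]
      linear_combination (y * w) * e3 + ((r ^ 2 : ℝ) : ℂ) * e5
    push_cast at h s1 s2 s3 s4 ⊢
    linear_combination s1 + s2 + s3 + s4 + 2 * h

section
variable {p : ℕ} [Fact p.Prime]

theorem A_two_bound (hp4 : p % 4 = 1) {f : (ZMod p)[X]} (hf : f.Monic) (hd : f.natDegree = 5)
    (hns : ∀ (c : ZMod p) (h : (ZMod p)[X]), f ≠ C c * h ^ 2) :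
    |A f 2| ≤ 6 * p ∧ A f 2 ≠ 6 * p := by
  classical
  have hF := ringChar_ne hp4
  obtain ⟨r, hr, hlam⟩ := exists_r hF hf (by omega) hns
  have hA : ∀ n, 5 ≤ n → A f n = 0 := fun n hn => A_eq_zero f r hf hr hlam n (by omega)
  set a : ℂ[X] := ∑ n ∈ Finset.range 5, C (A f n : ℂ) * X ^ n with ha
  have hcoeff : ∀ n, a.coeff n = (A f n : ℂ) := by
    intro n
    rw [ha, finsetSum_coeff]
    simp_rw [coeff_C_mul_X_pow]
    by_cases hn : n < 5
    · rw [Finset.sum_eq_single n]
      · simp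
      · intro m _ hm
        rw [if_neg (Ne.symm hm)]
      · intro h
        exact absurd (Finset.mem_range.2 hn) h
    · rw [hA n (by omega)]
      rw [Finset.sum_eq_zero]
      · simp
      · intro m hm
        rw [Finset.mem_range] at hm
        rw [if_neg (by omega)]
  have hp0 : (0 : ℝ) < p := by exact_mod_cast (Fact.out : p.Prime).pos
  have hcard : (Fintype.card (ZMod p) : ℝ) = p := by rw [ZMod.card]
  set s := Real.sqrt (Fintype.card (ZMod p)) with hs
  have hs0 : 0 < s := Real.sqrt_pos.2 (by rw [hcard]; exact hp0)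
  have hs2 : s ^ 2 = p := by rw [hs, Real.sq_sqrt (by positivity), hcard]
  have hroot : ∀ z : ℂ, a.eval z = 0 → 1 ≤ s * ‖z‖ := by
    intro z hz
    refine root_norm a (by rw [hcoeff, A_zero]; simp) (fun m => (T f m : ℂ)) s (5 * f.natDegree) hs0
      (by positivity) ?_ ?_ z hz
    · intro m hm
      have := (T_bound hF hf (by omega) hns m hm).1
      rw [Complex.norm_intCast]
      exact this
    · intro n
      rw [hcoeff]
      have := n_mul_A f n
      simp_rw [hcoeff]
      exact_mod_cast this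
  -- the reversed polynomial
  set A1 : ℂ := (A f 1 : ℂ) with hA1
  set A2 : ℂ := (A f 2 : ℂ) with hA2
  set A3 : ℂ := (A f 3 : ℂ) with hA3
  set A4 : ℂ := (A f 4 : ℂ) with hA4
  have haev : ∀ z, a.eval z = 1 + A1 * z + A2 * z ^ 2 + A3 * z ^ 3 + A4 * z ^ 4 := by
    intro z
    rw [ha]
    simp only [Finset.sum_range_succ, Finset.sum_range_zero, zero_add, eval_add, eval_mul, eval_C,
      eval_pow, eval_X, A_zero]
    push_cast
    ring
  set b : ℂ[X] := X ^ 4 + (C A1 * X ^ 3 + C A2 * X ^ 2 + C A3 * X + C A4) with hb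
  have hbd : (C A1 * X ^ 3 + C A2 * X ^ 2 + C A3 * X + C A4 : ℂ[X]).degree < 4 :=
    lt_of_le_of_lt (degree_cubic_le) (by norm_num)
  have hbm : b.Monic := monic_X_pow_add hbd
  have hbn : b.natDegree = 4 := by
    rw [hb]
    compute_degree!
  have hsp := IsAlgClosed.splits b
  have hroots : b.roots.card = 4 := by rw [← hsp.natDegree_eq_card_roots, hbn]
  obtain ⟨x, y, z, w, hl⟩ : ∃ x y z w : ℂ, b.roots = {x, y, z, w} := by
    have h1 : b.roots.toList.length = 4 := by rw [Multiset.length_toList, hroots]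
    match h2 : b.roots.toList, h1 with
    | [x, y, z, w], _ =>
      refine ⟨x, y, z, w, ?_⟩
      rw [← Multiset.coe_toList b.roots, h2]
      rfl
  have hprod : b = (X - C x) * ((X - C y) * ((X - C z) * (X - C w))) := by
    have h1 := hsp.eq_prod_roots
    rw [hbm.leadingCoeff, C_1, one_mul, hl] at h1
    rw [h1]
    simp
  have hbr : ∀ t : ℂ, b.eval t = 0 → ‖t‖ ≤ s := by
    intro t ht
    by_cases ht0 : t = 0
    · rw [ht0, norm_zero]; exact hs0.le
    · have h1 : a.eval t⁻¹ = 0 := by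
        have h2 : t ^ 4 * a.eval t⁻¹ = b.eval t := by
          rw [haev, hb]
          simp only [eval_add, eval_mul, eval_C, eval_pow, eval_X]
          field_simp
          ring
        rw [ht] at h2
        exact (mul_eq_zero.1 h2).resolve_left (pow_ne_zero _ ht0)
      have h3 := hroot _ h1
      rw [norm_inv] at h3
      have h4 : 0 < ‖t‖ := norm_pos_iff.2 ht0
      rw [← div_eq_mul_inv, one_le_div h4] at h3
      exact h3
  have hx := hbr x (by rw [hprod]; simp)
  have hy := hbr y (by rw [hprod]; simp)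
  have hz := hbr z (by rw [hprod]; simp)
  have hw := hbr w (by rw [hprod]; simp)
  have hexp : b = X ^ 4 + C (-(x + y + z + w)) * X ^ 3 +
      C (x * y + x * z + x * w + y * z + y * w + z * w) * X ^ 2 +
      C (-(x * y * z + x * y * w + x * z * w + y * z * w)) * X + C (x * y * z * w) := by
    rw [hprod]
    simp only [map_add, map_mul, map_neg]
    ring
  have hb' : b = X ^ 4 + C A1 * X ^ 3 + C A2 * X ^ 2 + C A3 * X + C A4 := by
    rw [hb]
    ring
  have hc2 : A2 = x * y + x * z + x * w + y * z + y * w + z * w := by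
    rw [← (coeff_quartic A1 A2 A3 A4).1, ← hb', hexp]
    exact (coeff_quartic _ _ _ _).1
  have hc1 : A1 = -(x + y + z + w) := by
    rw [← (coeff_quartic A1 A2 A3 A4).2, ← hb', hexp]
    exact (coeff_quartic _ _ _ _).2
  obtain ⟨q1, q2⟩ := quartic hs0 hx hy hz hw
  rw [← hc2] at q1 q2
  rw [hs2] at q1 q2
  constructor
  · rw [hA2, Complex.norm_intCast] at q1
    exact_mod_cast q1
  · intro h6
    have h7 := q2 (by rw [hA2, h6]; push_cast; rfl)
    have h8 : A1 ^ 2 = ((16 * p : ℝ) : ℂ) := by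
      rw [hc1, neg_sq]
      exact h7
    rw [hA1] at h8
    have h9 : (A f 1) ^ 2 = 16 * (p : ℤ) := by exact_mod_cast h8
    have hpp : Prime (p : ℤ) := Nat.prime_iff_prime_int.1 Fact.out
    obtain ⟨e, he⟩ := hpp.dvd_of_dvd_pow (Dvd.intro_left _ h9.symm : (p : ℤ) ∣ (A f 1) ^ 2)
    rw [he] at h9
    have h10 : (p : ℤ) * e ^ 2 = 16 := by
      have h11 : (p : ℤ) ≠ 0 := hpp.ne_zero
      apply mul_left_cancel₀ h11
      linear_combination h9
    have h12 : (p : ℤ) ∣ 2 ^ 4 := ⟨e ^ 2, by rw [h10]; norm_num⟩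
    have h13 := hpp.dvd_of_dvd_pow h12
    have h14 : p ∣ 2 := by exact_mod_cast h13
    have h15 := Nat.le_of_dvd two_pos h14
    have h16 := (Fact.out : p.Prime).two_le
    omega

/-- **Five points.** -/
theorem det_five (hp16 : p % 16 = 1) {S : Finset (ZMod p)} (hS : Sq S) (h5 : S.card = 5) :
    (hw p 2 (∏ i ∈ S, (X - C i))).det ≠ 0 := by
  classical
  have hp4 : p % 4 = 1 := by omega
  set f : (ZMod p)[X] := ∏ i ∈ S, (X - C i) with hf
  have hfm : f.Monic := monic_prod_of_monic _ _ fun i _ => monic_X_sub_C i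
  have hfd : f.natDegree = 5 := by
    rw [hf, natDegree_prod_of_monic _ _ fun i _ => monic_X_sub_C i]
    simp [h5]
  have hp3 : 3 ≤ p := by
    have := (Fact.out : p.Prime).two_le
    omega
  rw [det_A hp4 f (by rw [hfm.natDegree_pow, hfd]; omega)]
  have hns : ∀ (c : ZMod p) (h : (ZMod p)[X]), f ≠ C c * h ^ 2 := by
    intro c h hfh
    have hc : c ≠ 0 := by
      rintro rfl
      rw [C_0, zero_mul] at hfh
      exact hfm.ne_zero hfh
    have h1 := congrArg natDegree hfh
    rw [natDegree_C_mul hc, natDegree_pow, hfd] at h1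
    omega
  obtain ⟨b1, b2⟩ := A_two_bound hp4 hfm hfd hns
  intro h0
  rw [ZMod.intCast_zmod_eq_zero_iff_dvd] at h0
  obtain ⟨m, hm⟩ := h0
  have h16 := om_five hp16 hS h5
  rw [← A_two, ← hf, hm] at h16
  push_cast at h16
  have hc := cast_p hp16
  push_cast at hc
  rw [hc, one_mul] at h16
  have h17 : ((m : ℤ) : ZMod 16) = ((6 : ℤ) : ZMod 16) := by
    rw [h16]
    rfl
  rw [ZMod.intCast_eq_intCast_iff] at h17
  have h18 : m % 16 = 6 := by
    have := h17.symm
    unfold Int.ModEq at this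
    omega
  have hp0 : (0 : ℤ) < p := by exact_mod_cast (Fact.out : p.Prime).pos
  have h19 : |m| ≤ 6 := by
    rw [hm, abs_mul, abs_of_pos hp0, mul_comm] at b1
    exact le_of_mul_le_mul_right b1 hp0
  rw [abs_le] at h19
  have h20 : m = 6 := by omega
  apply b2
  rw [hm, h20]
  ring

end

end Pool.Agent.R410.OR
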