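import Mathlib

/-!
# The Hasse-Witt matrix of a degenerate hyperelliptic curve `y² = f(x)`
-/

set_option autoImplicit false
set_option linter.all false

open Polynomial

namespace Pool.Agent.R410.OR

/-- The Hasse-Witt (Cartier-Manin) matrix of `y² = f(x)`. -/
noncomputable def hw {R : Type*} [CommRing R] (p g : ℕ) (f : R[X]) :
    Matrix (Fin g) (Fin g) R :=
  Matrix.of fun i j => (X ^ ((j : ℕ) + 1) * f ^ ((p - 1) / 2)).coeff (p * ((i : ℕ) + 1))

theorem hw_det_map {R S : Type*} [CommRing R] [CommRing S] (p g : ℕ) (φ : R →+* S) (f : R[X]) :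
    φ (hw p g f).det = (hw p g (f.map φ)).det := by
  rw [RingHom.map_det]
  congr 1
  ext i j
  change φ ((X ^ ((j : ℕ) + 1) * f ^ ((p - 1) / 2)).coeff (p * ((i : ℕ) + 1))) =
    (X ^ ((j : ℕ) + 1) * (f.map φ) ^ ((p - 1) / 2)).coeff (p * ((i : ℕ) + 1))
  rw [← map_X φ, ← Polynomial.map_pow, ← Polynomial.map_pow, ← Polynomial.map_mul, coeff_map]

section
variable {K : Type*} [Field K] {p : ℕ} [Fact p.Prime] [CharP K p]

/-- the polynomial of a vector -/
noncomputable def pv {g : ℕ} (u : Fin g → K) : K[X] := ∑ j : Fin g, C (u j) * X ^ (j : ℕ)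

omit [Fact p.Prime] [CharP K p] in
theorem pv_coeff {g : ℕ} (u : Fin g → K) (j : Fin g) : (pv u).coeff j = u j := by
  classical
  unfold pv
  rw [finset_sum_coeff]
  simp only [coeff_C_mul, coeff_X_pow, mul_ite, mul_one, mul_zero]
  rw [Finset.sum_eq_single j]
  · rw [if_pos rfl]
  · intro i _ hij
    rw [if_neg fun h => hij (Fin.ext h.symm)]
  · intro h
    exact absurd (Finset.mem_univ _) h

omit [Fact p.Prime] [CharP K p] in
theorem pv_degree {g : ℕ} (u : Fin g → K) : (pv u).degree < g := by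
  unfold pv
  refine lt_of_le_of_lt (degree_sum_le _ _) ?_
  rw [Finset.sup_lt_iff (by exact_mod_cast WithBot.bot_lt_coe g)]
  intro j _
  refine lt_of_le_of_lt (degree_C_mul_X_pow_le _ _) ?_
  exact_mod_cast j.2

omit [Fact p.Prime] [CharP K p] in
theorem pv_of {g : ℕ} {U : K[X]} (hU : U.degree < g) : pv (fun j : Fin g => U.coeff j) = U := by
  ext n
  by_cases hn : n < g
  · exact pv_coeff (fun j : Fin g => U.coeff j) ⟨n, hn⟩
  · have h1 : (g : WithBot ℕ) ≤ n := by exact_mod_cast not_lt.1 hn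
    rw [coeff_eq_zero_of_degree_lt (lt_of_lt_of_le hU h1),
      coeff_eq_zero_of_degree_lt (lt_of_lt_of_le (pv_degree _) h1)]

/-- the product of the matrix and a vector -/
theorem hw_mulVec {g : ℕ} (f : K[X]) (u : Fin g → K) (i : Fin g) :
    (hw p g f).mulVec u i = (pv u * f ^ ((p - 1) / 2)).coeff (p * ((i : ℕ) + 1) - 1) := by
  have hp := (Fact.out : p.Prime).pos
  have h1 : 1 ≤ p * ((i : ℕ) + 1) := Nat.mul_pos hp (Nat.succ_pos _)
  have h2 : (pv u * f ^ ((p - 1) / 2)).coeff (p * ((i : ℕ) + 1) - 1) =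
      (X * (pv u * f ^ ((p - 1) / 2))).coeff (p * ((i : ℕ) + 1)) := by
    conv_rhs => rw [← Nat.sub_add_cancel h1]
    rw [coeff_X_mul]
  rw [h2]
  unfold pv
  rw [Finset.sum_mul, Finset.mul_sum, finset_sum_coeff]
  show ∑ j : Fin g, (X ^ ((j : ℕ) + 1) * f ^ ((p - 1) / 2)).coeff (p * ((i : ℕ) + 1)) * u j = _
  refine Finset.sum_congr rfl fun j _ => ?_
  rw [mul_comm _ (u j), ← coeff_C_mul]
  congr 1
  ring

/-- all the coefficients with the exponents `≡ -1` vanish -/
theorem iter_zero_iff {G : K[X]} :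
    derivative^[p - 1] G = 0 ↔ ∀ k : ℕ, G.coeff (p * (k + 1) - 1) = 0 := by
  have hp := (Fact.out : p.Prime)
  have hp1 := hp.one_lt
  constructor
  · intro h k
    have h1 := congrArg (fun q => q.coeff (p * k)) h
    simp only [coeff_iterate_derivative, coeff_zero] at h1
    have h2 : p * k + (p - 1) = p * (k + 1) - 1 := by
      rw [mul_add, mul_one]
      omega
    rw [h2, nsmul_eq_mul] at h1
    have h3 : (((p * (k + 1) - 1).descFactorial (p - 1) : ℕ) : K) ≠ 0 := by
      rw [Ne, CharP.cast_eq_zero_iff K p]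
      intro hd
      rw [← h2, Nat.descFactorial_eq_prod_range, hp.prime.dvd_finset_prod_iff] at hd
      obtain ⟨i, hi, hd⟩ := hd
      have hi' := Finset.mem_range.1 hi
      have h4 : p * k + (p - 1) - i = p * k + (p - 1 - i) := by omega
      rw [h4, Nat.dvd_add_right (Dvd.intro _ rfl)] at hd
      have := Nat.le_of_dvd (by omega) hd
      omega
    exact (mul_eq_zero.1 h1).resolve_left h3
  · intro h
    ext n
    rw [coeff_iterate_derivative, coeff_zero, nsmul_eq_mul]
    by_cases hn : p ∣ n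
    · obtain ⟨k, rfl⟩ := hn
      have h2 : p * k + (p - 1) = p * (k + 1) - 1 := by
        rw [mul_add, mul_one]
        omega
      rw [h2, h k, mul_zero]
    · have h3 : (((n + (p - 1)).descFactorial (p - 1) : ℕ) : K) = 0 := by
        rw [CharP.cast_eq_zero_iff K p, Nat.descFactorial_eq_prod_range,
          hp.prime.dvd_finset_prod_iff]
        have h4 : 0 < n % p := Nat.pos_of_ne_zero fun h0 => hn (Nat.dvd_of_mod_eq_zero h0)
        have h5 : n % p < p := Nat.mod_lt _ hp.pos
        have h6 := Nat.div_add_mod n p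
        refine ⟨n % p - 1, Finset.mem_range.2 (by omega), n / p + 1, ?_⟩
        rw [mul_add, mul_one]
        omega
      rw [h3, zero_mul]

/-- the kernel of the Hasse-Witt matrix -/
theorem hw_zero_iff {g : ℕ} {f : K[X]} (hf : f.natDegree ≤ 2 * g + 2) (hp2 : p ≠ 2)
    (u : Fin g → K) : (hw p g f).mulVec u = 0 ↔ derivative^[p - 1] (pv u * f ^ ((p - 1) / 2)) = 0 := by
  have hp := (Fact.out : p.Prime)
  have hodd : p % 2 = 1 := (hp.eq_two_or_odd).resolve_left hp2
  have hp1 := hp.one_lt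
  rw [iter_zero_iff]
  constructor
  · intro h k
    by_cases hk : k < g
    · have h1 := congrFun h ⟨k, hk⟩
      rw [hw_mulVec] at h1
      exact h1
    · apply coeff_eq_zero_of_degree_lt
      by_cases hg : g = 0
      · subst hg
        have h0 : pv u = 0 := by
          have := pv_degree u
          rw [Nat.cast_zero] at this
          by_contra hne
          have := zero_le_degree_iff.2 hne
          exact absurd (lt_of_le_of_lt this ‹(pv u).degree < 0›) (lt_irrefl _)
        rw [h0, zero_mul, degree_zero]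
        exact WithBot.bot_lt_coe _
      · have h1 : (pv u).natDegree ≤ g - 1 := by
          have h2 : (pv u).degree ≤ ((g - 1 : ℕ) : WithBot ℕ) := by
            have := pv_degree u
            refine Order.le_of_lt_succ (lt_of_lt_of_le this ?_)
            have h3 : Order.succ (((g - 1 : ℕ)) : WithBot ℕ) = ((g - 1 + 1 : ℕ) : WithBot ℕ) := by
              exact_mod_cast (WithBot.orderSucc_coe (g - 1))
            rw [h3]
            exact_mod_cast (by omega : g ≤ g - 1 + 1)
          exact natDegree_le_of_degree_le h2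
        refine lt_of_le_of_lt degree_le_natDegree ?_
        have h2 : (pv u * f ^ ((p - 1) / 2)).natDegree ≤ g - 1 + (p - 1) / 2 * (2 * g + 2) := by
          refine natDegree_mul_le.trans (Nat.add_le_add h1 (natDegree_pow_le.trans ?_))
          exact Nat.mul_le_mul_left _ hf
        have h3 : g - 1 + (p - 1) / 2 * (2 * g + 2) < p * (k + 1) - 1 := by
          obtain ⟨m, hm⟩ : ∃ m, p = 2 * m + 1 := ⟨p / 2, by omega⟩
          have hm1 : (p - 1) / 2 = m := by omega
          have hm0 : 1 ≤ m := by omega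
          have hkg : g ≤ k := not_lt.1 hk
          rw [hm1, hm]
          have h4 : (2 * m + 1) * (g + 1) ≤ (2 * m + 1) * (k + 1) := Nat.mul_le_mul_left _ (by omega)
          have h5 : (2 * m + 1) * (g + 1) = m * (2 * g + 2) + g + 1 := by ring
          omega
        exact_mod_cast lt_of_le_of_lt h2 h3
  · intro h
    funext i
    rw [hw_mulVec]
    exact h i

/-- the kernel is zero -/
theorem hw_ker {g : ℕ} {f : K[X]} (hf : f.natDegree ≤ 2 * g + 2) (hp2 : p ≠ 2)
    (hdet : (hw p g f).det ≠ 0) {Q : K[X]} (hQ : Q.degree < g)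
    (h : derivative^[p - 1] (Q * f ^ ((p - 1) / 2)) = 0) : Q = 0 := by
  classical
  rw [← pv_of hQ] at h ⊢
  rw [← hw_zero_iff hf hp2] at h
  have h1 : (fun j : Fin g => Q.coeff j) = 0 := by
    by_contra hne
    exact hdet (Matrix.exists_mulVec_eq_zero_iff.1 ⟨_, hne, h⟩)
  rw [h1]
  unfold pv
  simp

/-- the converse -/
theorem hw_of_ker {g : ℕ} {f : K[X]} (hf : f.natDegree ≤ 2 * g + 2) (hp2 : p ≠ 2)
    (h : ∀ Q : K[X], Q.degree < g → derivative^[p - 1] (Q * f ^ ((p - 1) / 2)) = 0 → Q = 0) :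
    (hw p g f).det ≠ 0 := by
  classical
  intro h0
  obtain ⟨u, hu0, hu⟩ := Matrix.exists_mulVec_eq_zero_iff.2 h0
  apply hu0
  rw [hw_zero_iff hf hp2] at hu
  have h1 := h _ (pv_degree u) hu
  funext j
  rw [← pv_coeff u j, h1]
  rfl

theorem iter_pow_mul (h Q : K[X]) (n : ℕ) :
    derivative^[n] (h ^ p * Q) = h ^ p * derivative^[n] Q := by
  induction n generalizing Q with
  | zero => rfl
  | succ n ih =>
    rw [Function.iterate_succ_apply, Function.iterate_succ_apply, derivative_mul, derivative_pow,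
      CharP.cast_eq_zero K p, C_0, zero_mul, zero_mul, zero_mul, zero_add, ih]

theorem factorial_ne : ((((p - 1).factorial : ℕ)) : K) ≠ 0 := by
  have hp := (Fact.out : p.Prime)
  have hp1 := hp.one_lt
  rw [Ne, CharP.cast_eq_zero_iff K p, hp.dvd_factorial]
  omega

/-- **A component of a semistable reduction.** -/
theorem residue_lemma (hp2 : p ≠ 2) (D : Finset K) (n : K → ℕ) (hn : ∀ x ∈ D, 1 ≤ n x) (P : K[X])
    (h1 : ∀ x ∈ D, ∀ l, 2 * l + 2 < n x → (taylor x P).coeff l = 0)
    (h2 : ∀ l, ∑ x ∈ D, n x < 2 * l + 2 → P.coeff l = 0)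
    (h3 : derivative^[p - 1] (P * (∏ x ∈ D, (X - C x) ^ n x) ^ ((p - 1) / 2)) = 0)
    (h4 : (hw p (((D.filter fun x => Odd (n x)).card - 1) / 2)
      (∏ x ∈ D.filter (fun x => Odd (n x)), (X - C x))).det ≠ 0) : P = 0 := by
  classical
  have hp := (Fact.out : p.Prime)
  have hodd : p % 2 = 1 := (hp.eq_two_or_odd).resolve_left hp2
  have hp1 := hp.one_lt
  obtain ⟨m, hm⟩ : ∃ m, p = 2 * m + 1 := ⟨p / 2, by omega⟩
  have hm1 : (p - 1) / 2 = m := by omega
  rw [hm1] at h3
  -- the orders of vanishing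
  have ha : ∀ x ∈ D, (X - C x) ^ ((n x + 1) / 2 - 1) ∣ P := by
    intro x hx
    rw [X_sub_C_pow_dvd_iff, X_pow_dvd_iff]
    intro l hl
    have := h1 x hx l (by omega)
    rwa [taylor_apply] at this
  have hb : ∀ x ∈ D, (X - C x) ^ (n x / 2) ∣ P := by
    intro x hx
    rcases Nat.even_or_odd (n x) with he | ho
    · obtain ⟨a, hna⟩ := he
      have ha1 : 1 ≤ a := by have := hn x hx; omega
      obtain ⟨P₁, hP₁⟩ := ha x hx
      have e0 : (n x + 1) / 2 - 1 = a - 1 := by omega
      rw [e0] at hP₁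
      set f₁ : K[X] := ∏ y ∈ D.erase x, (X - C y) ^ n y with hf₁
      have e1 : ∏ y ∈ D, (X - C y) ^ n y = (X - C x) ^ n x * f₁ :=
        (Finset.mul_prod_erase D _ hx).symm
      have e2 : P * (∏ y ∈ D, (X - C y) ^ n y) ^ m =
          ((X - C x) ^ (a - 1)) ^ p * ((X - C x) ^ (p - 1) * (P₁ * f₁ ^ m)) := by
        rw [e1, hP₁, mul_pow, ← pow_mul, ← pow_mul]
        have e3 : (X - C x : K[X]) ^ (a - 1) * P₁ * ((X - C x) ^ (n x * m) * f₁ ^ m) =
          (X - C x) ^ (a - 1 + n x * m) * (P₁ * f₁ ^ m) := by ring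
        have e4 : (X - C x : K[X]) ^ ((a - 1) * p) * ((X - C x) ^ (p - 1) * (P₁ * f₁ ^ m)) =
          (X - C x) ^ ((a - 1) * p + (p - 1)) * (P₁ * f₁ ^ m) := by ring
        rw [e3, e4]
        congr 2
        obtain ⟨b, rfl⟩ : ∃ b, a = b + 1 := ⟨a - 1, by omega⟩
        rw [hna, hm, Nat.add_sub_cancel, Nat.add_sub_cancel]
        ring
      rw [e2, iter_pow_mul, mul_eq_zero, or_iff_right (pow_ne_zero _ (pow_ne_zero _ (X_sub_C_ne_zero x)))]
        at h3
      have h5 := aeval_iterate_derivative_self (A := K) ((X - C x) ^ (p - 1) * (P₁ * f₁ ^ m)) (p - 1) x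
        (p' := P₁ * f₁ ^ m) (by simp)
      rw [h3, map_zero, nsmul_eq_mul] at h5
      have h6 := (mul_eq_zero.1 h5.symm).resolve_left factorial_ne
      rw [eval_mul, mul_eq_zero] at h6
      have h7 : eval x (f₁ ^ m) ≠ 0 := by
        rw [eval_pow]
        apply pow_ne_zero
        rw [hf₁, eval_prod, Finset.prod_ne_zero_iff]
        intro y hy
        rw [eval_pow, eval_sub, eval_X, eval_C]
        exact pow_ne_zero _ (sub_ne_zero.2 (Finset.ne_of_mem_erase hy).symm)
      obtain ⟨P₂, hP₂⟩ := dvd_iff_isRoot.2 (h6.resolve_right h7)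
      rw [hP₁, hP₂]
      have e5 : n x / 2 = a - 1 + 1 := by omega
      rw [e5, pow_succ]
      exact ⟨P₂, by ring⟩
    · have := ha x hx
      obtain ⟨a, hna⟩ := ho
      have e0 : (n x + 1) / 2 - 1 = n x / 2 := by omega
      rwa [e0] at this
  -- the product
  have hc : (∏ x ∈ D, (X - C x) ^ (n x / 2)) ∣ P := by
    refine Finset.prod_dvd_of_coprime ?_ hb
    intro x _ y _ hxy
    exact (isCoprime_X_sub_C_of_isUnit_sub (sub_ne_zero.2 hxy).isUnit).pow
  obtain ⟨Q, hQ⟩ := hc
  set H : K[X] := ∏ x ∈ D, (X - C x) ^ (n x / 2) with hH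
  have hH0 : H ≠ 0 := Finset.prod_ne_zero_iff.2 fun x _ => pow_ne_zero _ (X_sub_C_ne_zero x)
  set r : K[X] := ∏ x ∈ D.filter (fun x => Odd (n x)), (X - C x) with hr
  have ef : ∏ x ∈ D, (X - C x) ^ n x = H ^ 2 * r := by
    rw [hH, hr, ← Finset.prod_pow, Finset.prod_filter, ← Finset.prod_mul_distrib]
    refine Finset.prod_congr rfl fun x _ => ?_
    by_cases ho : Odd (n x)
    · rw [if_pos ho, ← pow_mul, ← pow_succ]
      obtain ⟨a, ha'⟩ := ho
      congr 1
      omega
    · rw [if_neg ho, mul_one, ← pow_mul]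
      have he := Nat.not_odd_iff_even.1 ho
      obtain ⟨a, ha'⟩ := he
      congr 1
      omega
  have h5 : derivative^[p - 1] (Q * r ^ m) = 0 := by
    have e1 : P * (∏ x ∈ D, (X - C x) ^ n x) ^ m = H ^ p * (Q * r ^ m) := by
      rw [ef, hQ, hm]
      ring
    rw [e1, iter_pow_mul, mul_eq_zero, or_iff_right (pow_ne_zero _ hH0)] at h3
    exact h3
  suffices hQ0 : Q = 0 by rw [hQ, hQ0, mul_zero]
  by_contra hQ0
  have hP0 : P ≠ 0 := by rw [hQ]; exact mul_ne_zero hH0 hQ0
  set q : ℕ := (D.filter fun x => Odd (n x)).card with hq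
  have hrdeg : r.natDegree = q := by
    rw [hr, natDegree_prod_of_monic _ _ fun x _ => monic_X_sub_C x]
    simp [hq]
  have hrm : r.Monic := monic_prod_of_monic _ _ fun x _ => monic_X_sub_C x
  have hHdeg : H.natDegree = ∑ x ∈ D, n x / 2 := by
    rw [hH, natDegree_prod_of_monic _ _ fun x _ => (monic_X_sub_C x).pow _]
    refine Finset.sum_congr rfl fun x _ => ?_
    rw [natDegree_pow, natDegree_X_sub_C, mul_one]
  have hsum : ∑ x ∈ D, n x = 2 * (∑ x ∈ D, n x / 2) + q := by
    rw [hq, Finset.card_filter, Finset.mul_sum, ← Finset.sum_add_distrib]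
    refine Finset.sum_congr rfl fun x _ => ?_
    by_cases ho : Odd (n x)
    · rw [if_pos ho]
      obtain ⟨a, ha'⟩ := ho
      omega
    · rw [if_neg ho]
      have he := Nat.not_odd_iff_even.1 ho
      obtain ⟨a, ha'⟩ := he
      omega
  have hdeg : 2 * Q.natDegree + 2 ≤ q := by
    by_contra hlt
    have h6 := h2 P.natDegree (by
      rw [hQ, natDegree_mul hH0 hQ0, hHdeg, hsum]
      omega)
    rw [coeff_natDegree, leadingCoeff_eq_zero] at h6
    exact hP0 h6
  have hQd : Q.degree < (((q - 1) / 2 : ℕ) : WithBot ℕ) := by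
    rw [degree_eq_natDegree hQ0]
    by_contra hge
    have hge' : (q - 1) / 2 ≤ Q.natDegree := by
      by_contra hlt
      exact hge (by exact_mod_cast not_le.1 hlt)
    have hq2 : q = 2 * Q.natDegree + 2 := by omega
    rw [iter_zero_iff] at h5
    have h6 := h5 Q.natDegree
    have h7 : p * (Q.natDegree + 1) - 1 = (Q * r ^ m).natDegree := by
      rw [natDegree_mul hQ0 (pow_ne_zero _ hrm.ne_zero), natDegree_pow, hrdeg, hq2]
      have : p * (Q.natDegree + 1) = Q.natDegree + m * (2 * Q.natDegree + 2) + 1 := by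
        rw [hm]; ring
      omega
    rw [h7, coeff_natDegree, leadingCoeff_eq_zero] at h6
    exact (mul_ne_zero hQ0 (pow_ne_zero _ hrm.ne_zero)) h6
  rw [← hm1] at h5
  exact hQ0 (hw_ker (by rw [hrdeg]; omega) hp2 h4 hQd h5)

end

end Pool.Agent.R410.OR
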