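import Pool.Agent.R410.OR.Tr2

/-!
# Degeneration of curves with a large transcendence degree
-/

set_option autoImplicit false
set_option linter.all false

open Polynomial

universe u

namespace Pool.Agent.R410.OR

section
variable {K : Type u} [Field K]

/-- two discs which are equal give the same component -/
theorem comp_affine (O : ValuationSubring K) (S : Finset K) {a b x y : K} (hab : a ≠ b)
    (hxy : x ≠ y) (h1 : O.valuation (y - x) = O.valuation (b - a))
    (h2 : O.valuation (x - a) ≤ O.valuation (b - a)) :
    ∃ α β : IsLocalRing.ResidueField O, α ≠ 0 ∧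
      comp O x y S = (open Classical in (comp O a b S).image fun z => α * z + β) := by
  classical
  have hba : b - a ≠ 0 := sub_ne_zero.2 hab.symm
  have hyx : y - x ≠ 0 := sub_ne_zero.2 hxy.symm
  have hvba : 0 < O.valuation (b - a) := zero_lt_iff.2 ((Valuation.ne_zero_iff _).2 hba)
  set γ : K := (b - a) / (y - x) with hγ
  set δ : K := (x - a) / (b - a) with hδ
  have hγ0 : γ ≠ 0 := div_ne_zero hba hyx
  have hγv : O.valuation γ = 1 := by
    rw [hγ, map_div₀, h1, div_self hvba.ne']
  have hγO : γ ∈ O := (O.valuation_le_one_iff _).1 hγv.le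
  have hγiO : γ⁻¹ ∈ O := (O.valuation_le_one_iff _).1 (by rw [map_inv₀, hγv, inv_one])
  have hδO : δ ∈ O := by
    rw [← O.valuation_le_one_iff, hδ, map_div₀]
    exact (div_le_one₀ hvba).2 h2
  have ht : ∀ r, (r - x) / (y - x) = γ * ((r - a) / (b - a) - δ) := by
    intro r
    rw [hγ, hδ]
    field_simp
    ring
  have hiff : ∀ r, (r - x) / (y - x) ∈ O ↔ (r - a) / (b - a) ∈ O := by
    intro r
    rw [ht]
    constructor
    · intro h
      have h3 : (r - a) / (b - a) = γ⁻¹ * (γ * ((r - a) / (b - a) - δ)) + δ := by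
        rw [inv_mul_cancel_left₀ hγ0]
        ring
      rw [h3]
      exact add_mem (mul_mem hγiO h) hδO
    · intro h
      exact mul_mem hγO (sub_mem h hδO)
  have hred : ∀ r, (r - a) / (b - a) ∈ O → red O ((r - x) / (y - x)) =
      red O γ * red O ((r - a) / (b - a)) + -(red O γ * red O δ) := by
    intro r hr
    have h3 : γ * ((r - a) / (b - a) - δ) ∈ O := mul_mem hγO (sub_mem hr hδO)
    rw [ht, red_of O h3, red_of O hγO, red_of O hr, red_of O hδO, ← map_mul, ← map_mul, ← map_neg,
      ← map_add]
    congr 1
    apply Subtype.ext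
    push_cast
    ring
  have hα0 : red O γ ≠ 0 := by
    rw [red_of O hγO, Ne, IsLocalRing.residue_eq_zero_iff, ValuationSubring.valuation_lt_one_iff]
    change ¬ O.valuation γ < 1
    rw [hγv]
    exact lt_irrefl _
  have hinj : Function.Injective fun z : IsLocalRing.ResidueField O =>
      red O γ * z + -(red O γ * red O δ) := by
    intro z w hzw
    exact mul_left_cancel₀ hα0 (add_right_cancel hzw)
  refine ⟨red O γ, -(red O γ * red O δ), hα0, ?_⟩
  have hinn : inn O x y S = inn O a b S := by
    unfold inn
    exact Finset.filter_congr fun r _ => hiff r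
  have hmult : ∀ z, mult O x y S (red O γ * z + -(red O γ * red O δ)) = mult O a b S z := by
    intro z
    unfold mult
    rw [hinn]
    congr 1
    refine Finset.filter_congr fun r hr => ?_
    rw [hred r (Finset.mem_filter.1 hr).2]
    exact hinj.eq_iff
  ext w
  constructor
  · intro hw
    obtain ⟨hw1, hw2⟩ := Finset.mem_filter.1 hw
    obtain ⟨r, hr, hrw⟩ := Finset.mem_image.1 hw1
    rw [hinn] at hr
    rw [hred r (Finset.mem_filter.1 hr).2] at hrw
    refine Finset.mem_image.2 ⟨red O ((r - a) / (b - a)), Finset.mem_filter.2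
      ⟨Finset.mem_image_of_mem _ hr, ?_⟩, hrw⟩
    rw [← hmult, hrw]
    exact hw2
  · intro hw
    obtain ⟨z, hz, rfl⟩ := Finset.mem_image.1 hw
    obtain ⟨hz1, hz2⟩ := Finset.mem_filter.1 hz
    obtain ⟨r, hr, hrz⟩ := Finset.mem_image.1 hz1
    refine Finset.mem_filter.2 ⟨?_, by rw [hmult]; exact hz2⟩
    rw [← hrz, ← hred r (Finset.mem_filter.1 hr).2]
    rw [← hinn] at hr
    exact Finset.mem_image_of_mem _ hr

/-- a place which keeps the algebraic independence of all but one element -/
theorem exists_place [CharZero K] {T : ℕ} (t : Fin (T + 1) → K) (ht : AlgebraicIndependent ℚ t) :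
    ∃ (O : ValuationSubring K) (_ : CharZero (IsLocalRing.ResidueField O)),
      (∀ i, t i ∈ O) ∧ red O (t 0) = 0 ∧
      AlgebraicIndependent ℚ (fun i : Fin T => red O (t i.succ)) := by
  let θ : MvPolynomial (Fin (T + 1)) ℚ →+* K := (MvPolynomial.aeval t).toRingHom
  let ev : MvPolynomial (Fin (T + 1)) ℚ →+* MvPolynomial (Fin T) ℚ :=
    (MvPolynomial.aeval (fun i : Fin (T + 1) =>
      (Fin.cases 0 (fun j => MvPolynomial.X j) i : MvPolynomial (Fin T) ℚ))).toRingHom
  have hev0 : ev (MvPolynomial.X 0) = 0 := by
    change MvPolynomial.aeval _ (MvPolynomial.X 0) = _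
    rw [MvPolynomial.aeval_X]
    rfl
  have hevs : ∀ j, ev (MvPolynomial.X (Fin.succ j)) = MvPolynomial.X j := by
    intro j
    change MvPolynomial.aeval _ (MvPolynomial.X _) = _
    rw [MvPolynomial.aeval_X]
    rfl
  have hevC : ∀ c, ev (MvPolynomial.C c) = MvPolynomial.C c := by
    intro c
    change MvPolynomial.aeval _ (MvPolynomial.C c) = _
    rw [MvPolynomial.aeval_C]
    rfl
  have hker : RingHom.ker θ ≤ RingHom.ker ev := by
    intro x hx
    have h1 : MvPolynomial.aeval (R := ℚ) t x = MvPolynomial.aeval (R := ℚ) t 0 := by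
      rw [map_zero]; exact hx
    rw [ht h1]
    exact Ideal.zero_mem _
  have hprime : (RingHom.ker ev).IsPrime := RingHom.ker_isPrime ev
  obtain ⟨O, hO, hv⟩ := dominate θ (RingHom.ker ev) hker
  have hθX : ∀ i, θ (MvPolynomial.X i) = t i := fun i => MvPolynomial.aeval_X t i
  have htO : ∀ i, t i ∈ O := fun i => hθX i ▸ hO _
  let res : MvPolynomial (Fin (T + 1)) ℚ →+* IsLocalRing.ResidueField O :=
    (IsLocalRing.residue O).comp (θ.codRestrict O.toSubring hO)
  have hres0 : ∀ x, res x = 0 ↔ ev x = 0 := by
    intro x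
    rw [show ev x = 0 ↔ x ∈ RingHom.ker ev from Iff.rfl, ← hv x]
    change IsLocalRing.residue O _ = 0 ↔ _
    rw [IsLocalRing.residue_eq_zero_iff, ValuationSubring.valuation_lt_one_iff]
    rfl
  have hresX : ∀ i, res (MvPolynomial.X i) = red O (t i) := by
    intro i
    rw [red_of O (htO i)]
    change IsLocalRing.residue O _ = _
    congr 1
    exact Subtype.ext (hθX i)
  have hchar : CharZero (IsLocalRing.ResidueField O) := by
    refine charZero_of_inj_zero fun n hn => ?_
    have h1 : res (n : MvPolynomial (Fin (T + 1)) ℚ) = 0 := by rw [map_natCast]; exact hn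
    rw [hres0, map_natCast] at h1
    exact_mod_cast h1
  refine ⟨O, hchar, htO, ?_, ?_⟩
  · rw [← hresX, hres0, hev0]
  · rw [algebraicIndependent_iff]
    intro q hq
    have h1 : res (MvPolynomial.rename Fin.succ q) =
        MvPolynomial.aeval (fun i : Fin T => red O (t i.succ)) q := by
      have e1 : res.comp (MvPolynomial.rename Fin.succ).toRingHom =
          (MvPolynomial.aeval (R := ℚ) (fun i : Fin T => red O (t i.succ))).toRingHom := by
        apply MvPolynomial.ringHom_ext'
        · exact RingHom.ext_rat _ _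
        · intro i
          change res (MvPolynomial.rename Fin.succ (MvPolynomial.X i)) =
            MvPolynomial.aeval _ (MvPolynomial.X i)
          rw [MvPolynomial.rename_X, hresX, MvPolynomial.aeval_X]
      exact congrArg (fun f => f q) e1
    rw [hq, hres0] at h1
    have h2 : ev (MvPolynomial.rename Fin.succ q) = q := by
      have e1 : ev.comp (MvPolynomial.rename Fin.succ).toRingHom = RingHom.id _ := by
        apply MvPolynomial.ringHom_ext'
        · exact RingHom.ext_rat _ _
        · intro i
          change ev (MvPolynomial.rename Fin.succ (MvPolynomial.X i)) = MvPolynomial.X i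
          rw [MvPolynomial.rename_X, hevs]
      exact congrArg (fun f => f q) e1
    rwa [h2] at h1

end

end Pool.Agent.R410.OR
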