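import Pool.Agent.R410.OR.TD

/-!
# Induction on the transcendence degree
-/

set_option autoImplicit false
set_option linter.all false

open Polynomial

universe u

namespace Pool.Agent.R410.OR

theorem red_dist {K : Type*} [Field K] (O : ValuationSubring K) {x y m m' : K} (hxy : x ≠ y)
    (hm : (m - x) / (y - x) ∈ O) (hm' : (m' - x) / (y - x) ∈ O)
    (hne : red O ((m - x) / (y - x)) ≠ red O ((m' - x) / (y - x))) :
    O.valuation (m - m') = O.valuation (y - x) := by
  have hu : y - x ≠ 0 := sub_ne_zero.2 hxy.symm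
  have h1 := val_ne O hm hm' hne
  have h2 : (m - x) / (y - x) - (m' - x) / (y - x) = (m - m') / (y - x) := by
    rw [← sub_div]
    congr 1
    ring
  rw [h2] at h1
  rw [val_div O hu, h1, one_mul]

theorem in_disc {K : Type*} [Field K] (O : ValuationSubring K) {x y m : K} (hxy : x ≠ y)
    (hm : (m - x) / (y - x) ∈ O) : O.valuation (m - x) ≤ O.valuation (y - x) := by
  have hu : y - x ≠ 0 := sub_ne_zero.2 hxy.symm
  rw [val_div O hu]
  calc O.valuation ((m - x) / (y - x)) * O.valuation (y - x) ≤ 1 * O.valuation (y - x) :=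
      mul_le_mul_left ((O.valuation_le_one_iff _).2 hm) _
    _ = _ := one_mul _

theorem big_disc {K : Type u} [Field K] (O : ValuationSubring K)
    [CharZero (IsLocalRing.ResidueField O)] (P S : Finset K) (hSP : S ⊆ P)
    {a b : K} (ha : a ∈ P) (hb : b ∈ P) (hab : a ≠ b) {T h : ℕ} (s : Fin (T + 1) → K)
    (hs : ∀ i, s i ∈ P) (htO : ∀ i, (s i - a) / (b - a) ∈ O)
    (halg : AlgebraicIndependent ℚ (fun i : Fin T => red O ((s i.succ - a) / (b - a))))
    (hcard : P.card ≤ T + 1 + 2 + 2 * h) {x y : K} (hxy : x ≠ y)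
    (hbig : 2 * h + 2 < (comp O x y S).card) :
    O.valuation (y - x) = O.valuation (b - a) ∧ O.valuation (x - a) ≤ O.valuation (b - a) := by
  classical
  have hba : b - a ≠ 0 := sub_ne_zero.2 hab.symm
  -- representatives of the positions
  have hcl : ∀ z, z ∈ comp O x y S → ∃ r ∈ S, (r - x) / (y - x) ∈ O ∧
      red O ((r - x) / (y - x)) = z := by
    intro z hz
    obtain ⟨r, hr, hrz⟩ := Finset.mem_image.1 (Finset.mem_filter.1 hz).1
    exact ⟨r, (Finset.mem_filter.1 hr).1, (Finset.mem_filter.1 hr).2, hrz⟩
  choose! ρ hρ using hcl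
  have hρinj : Set.InjOn ρ (comp O x y S) := by
    intro z hz w hw hzw
    rw [← (hρ z hz).2.2, ← (hρ w hw).2.2, hzw]
  set P₁ : Finset K := (comp O x y S).image ρ with hP₁
  have hP₁card : 2 * h + 2 < P₁.card := by rw [hP₁, Finset.card_image_of_injOn hρinj]; exact hbig
  have hP₁P : P₁ ⊆ P := by
    intro r hr
    obtain ⟨z, hz, rfl⟩ := Finset.mem_image.1 hr
    exact hSP (hρ z hz).1
  have hP₁in : ∀ r ∈ P₁, (r - x) / (y - x) ∈ O := by
    intro r hr
    obtain ⟨z, hz, rfl⟩ := Finset.mem_image.1 hr
    exact (hρ z hz).2.1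
  have hP₁ne : ∀ r ∈ P₁, ∀ r' ∈ P₁, r ≠ r' →
      red O ((r - x) / (y - x)) ≠ red O ((r' - x) / (y - x)) := by
    intro r hr r' hr' hne
    obtain ⟨z, hz, rfl⟩ := Finset.mem_image.1 hr
    obtain ⟨w, hw, rfl⟩ := Finset.mem_image.1 hr'
    rw [(hρ z hz).2.2, (hρ w hw).2.2]
    rintro rfl
    exact hne rfl
  -- the marked elements
  set M : Finset K := insert a (insert b (Finset.univ.image fun i : Fin T => s i.succ)) with hM
  set f : K → IsLocalRing.ResidueField O := fun m => red O ((m - a) / (b - a)) with hf
  have hfa : f a = 0 := by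
    rw [hf]
    simp only [sub_self, zero_div]
    rw [red_of O (zero_mem O)]
    exact map_zero (IsLocalRing.residue O)
  have hfb : f b = 1 := by
    rw [hf]
    simp only [div_self hba]
    rw [red_of O (one_mem O)]
    exact map_one (IsLocalRing.residue O)
  have hMf : M.image f = insert 0 (insert 1 (Finset.univ.image
      fun i : Fin T => red O ((s i.succ - a) / (b - a)))) := by
    rw [hM, Finset.image_insert, Finset.image_insert, Finset.image_image, hfa, hfb]
    rfl
  have hMfcard : (M.image f).card = T + 2 := by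
    rw [hMf, Finset.card_insert_of_notMem, Finset.card_insert_of_notMem,
      Finset.card_image_of_injective _ halg.injective, Finset.card_univ, Fintype.card_fin]
    · intro h1
      obtain ⟨i, -, hi⟩ := Finset.mem_image.1 h1
      exact (halg.transcendental i) (hi ▸ isAlgebraic_one)
    · intro h1
      rcases Finset.mem_insert.1 h1 with h1 | h1
      · exact zero_ne_one h1
      · obtain ⟨i, -, hi⟩ := Finset.mem_image.1 h1
        exact (halg.transcendental i) (hi ▸ isAlgebraic_zero)
  have hMle : M.card ≤ T + 2 := by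
    rw [hM]
    refine (Finset.card_insert_le _ _).trans ?_
    refine Nat.succ_le_succ ((Finset.card_insert_le _ _).trans (Nat.succ_le_succ ?_))
    refine Finset.card_image_le.trans ?_
    rw [Finset.card_univ, Fintype.card_fin]
  have hMcard : M.card = T + 2 := le_antisymm hMle (hMfcard ▸ Finset.card_image_le)
  have hfinj : Set.InjOn f M := Finset.injOn_of_card_image_eq (by rw [hMfcard, hMcard])
  have hMP : M ⊆ P := by
    intro m hm
    rcases Finset.mem_insert.1 hm with rfl | hm
    · exact ha
    rcases Finset.mem_insert.1 hm with rfl | hm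
    · exact hb
    obtain ⟨i, -, rfl⟩ := Finset.mem_image.1 hm
    exact hs _
  have hMin : ∀ m ∈ M, (m - a) / (b - a) ∈ O := by
    intro m hm
    rcases Finset.mem_insert.1 hm with rfl | hm
    · rw [sub_self, zero_div]; exact zero_mem O
    rcases Finset.mem_insert.1 hm with rfl | hm
    · rw [div_self hba]; exact one_mem O
    obtain ⟨i, -, rfl⟩ := Finset.mem_image.1 hm
    exact htO _
  have hinter : 1 < (P₁ ∩ M).card := by
    have h1 := Finset.card_union_add_card_inter P₁ M
    have h2 : (P₁ ∪ M).card ≤ P.card := Finset.card_le_card (Finset.union_subset hP₁P hMP)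
    omega
  obtain ⟨m, hm, m', hm', hmm⟩ := Finset.one_lt_card.1 hinter
  obtain ⟨hm1, hm2⟩ := Finset.mem_inter.1 hm
  obtain ⟨hm'1, hm'2⟩ := Finset.mem_inter.1 hm'
  have e1 : O.valuation (m - m') = O.valuation (y - x) :=
    red_dist O hxy (hP₁in m hm1) (hP₁in m' hm'1) (hP₁ne m hm1 m' hm'1 hmm)
  have e2 : O.valuation (m - m') = O.valuation (b - a) :=
    red_dist O hab (hMin m hm2) (hMin m' hm'2) fun h0 => hmm (hfinj hm2 hm'2 h0)
  have e3 : O.valuation (y - x) = O.valuation (b - a) := by rw [← e1, e2]
  refine ⟨e3, ?_⟩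
  have e4 : x - a = (m - a) - (m - x) := by ring
  rw [e4]
  exact O.valuation.map_sub_le (in_disc O hab (hMin m hm2)) (e3 ▸ in_disc O hxy (hP₁in m hm1))

theorem comp_card_le {K : Type*} [Field K] (O : ValuationSubring K) (a b : K) (S : Finset K) :
    (comp O a b S).card ≤ S.card := by
  classical
  unfold comp inn
  exact (Finset.card_filter_le _ _).trans (Finset.card_image_le.trans (Finset.card_filter_le _ _))

open Classical in
/-- **Small codimension in the moduli space.** -/
theorem codim (h : ℕ) (H : ∀ (κ : Type u) [Field κ] [CharZero κ] (ι : Type u) [Fintype ι]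
    (S : ι → Finset κ), (∀ i, (S i).card ≤ 2 * h + 2) → DO S) (T : ℕ) :
    ∀ (K : Type u) [Field K] [CharZero K] (P S : Finset K) (_ : S ⊆ P) (a b : K) (_ : a ∈ P)
      (_ : b ∈ P) (_ : a ≠ b) (s : Fin T → K) (_ : ∀ i, s i ∈ P)
      (_ : AlgebraicIndependent ℚ (fun i => (s i - a) / (b - a)))
      (_ : P.card ≤ T + 2 + 2 * h) (ι : Type u) [Fintype ι] (E : ι → Finset K)
      (_ : ∀ i, (E i).card ≤ 2 * h + 2), DO (fun o : Option ι => o.elim S E) := by
  induction T with
  | zero =>
    intro K _ _ P S hSP a b ha hb hab s hs ht hcard ι _ E hE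
    apply H
    intro o
    cases o with
    | none => exact (Finset.card_le_card hSP).trans (by omega)
    | some i => exact hE i
  | succ T IH =>
    intro K _ _ P S hSP a b ha hb hab s hs ht hcard ι _ E hE
    have hba : b - a ≠ 0 := sub_ne_zero.2 hab.symm
    obtain ⟨O, hchar, htO, h0, halg⟩ := exists_place (fun i => (s i - a) / (b - a)) ht
    let fam : Option ι → Finset K := fun o => o.elim S E
    let U : Finset K := P ∪ Finset.univ.biUnion E
    let P' : Finset (IsLocalRing.ResidueField O) :=
      (inn O a b P).image fun r => red O ((r - a) / (b - a))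
    let E' : (Option ι × U × U) → Finset (IsLocalRing.ResidueField O) := fun e =>
      if (comp O e.2.1 e.2.2 (fam e.1)).card ≤ 2 * h + 2 then comp O e.2.1 e.2.2 (fam e.1) else ∅
    have haI : a ∈ inn O a b P :=
      Finset.mem_filter.2 ⟨ha, by rw [sub_self, zero_div]; exact zero_mem O⟩
    have hbI : b ∈ inn O a b P :=
      Finset.mem_filter.2 ⟨hb, by rw [div_self hba]; exact one_mem O⟩
    have hsI : ∀ i, s i ∈ inn O a b P := fun i => Finset.mem_filter.2 ⟨hs i, htO i⟩
    have hra : red O ((a - a) / (b - a)) = 0 := by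
      rw [sub_self, zero_div, red_of O (zero_mem O)]
      exact map_zero (IsLocalRing.residue O)
    have hrb : red O ((b - a) / (b - a)) = 1 := by
      rw [div_self hba, red_of O (one_mem O)]
      exact map_one (IsLocalRing.residue O)
    have hIH : DO (fun o : Option (Option ι × U × U) => o.elim (comp O a b S) E') := by
      refine IH (IsLocalRing.ResidueField O) P' (comp O a b S) ?_ 0 1 ?_ ?_ zero_ne_one
        (fun i => red O ((s i.succ - a) / (b - a))) ?_ ?_ ?_ _ E' ?_
      · intro z hz
        obtain ⟨r, hr, hrz⟩ := Finset.mem_image.1 (Finset.mem_filter.1 hz).1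
        obtain ⟨hr1, hr2⟩ := Finset.mem_filter.1 hr
        exact Finset.mem_image.2 ⟨r, Finset.mem_filter.2 ⟨hSP hr1, hr2⟩, hrz⟩
      · exact Finset.mem_image.2 ⟨a, haI, hra⟩
      · exact Finset.mem_image.2 ⟨b, hbI, hrb⟩
      · exact fun i => Finset.mem_image_of_mem _ (hsI i.succ)
      · simpa using halg
      · -- the positions of `a` and `s 0` coincide
        have has0 : a ≠ s 0 := by
          intro h1
          have := ht.ne_zero 0
          apply this
          simp [← h1]
        have h1 : P' = ((inn O a b P).erase a).image fun r => red O ((r - a) / (b - a)) := by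
          apply Finset.Subset.antisymm
          · intro z hz
            obtain ⟨r, hr, rfl⟩ := Finset.mem_image.1 hz
            by_cases hra' : r = a
            · refine Finset.mem_image.2 ⟨s 0, Finset.mem_erase.2 ⟨has0.symm, hsI 0⟩, ?_⟩
              rw [hra', hra]
              exact h0
            · exact Finset.mem_image.2 ⟨r, Finset.mem_erase.2 ⟨hra', hr⟩, rfl⟩
          · exact Finset.image_subset_image (Finset.erase_subset _ _)
        have h2 : P'.card ≤ ((inn O a b P).erase a).card := by
          rw [h1]; exact Finset.card_image_le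
        rw [Finset.card_erase_of_mem haI] at h2
        have h3 : (inn O a b P).card ≤ P.card := Finset.card_filter_le _ _
        have h4 : 0 < (inn O a b P).card := Finset.card_pos.2 ⟨a, haI⟩
        omega
      · intro e
        change (if (comp O e.2.1 e.2.2 (fam e.1)).card ≤ 2 * h + 2 then
          comp O e.2.1 e.2.2 (fam e.1) else ∅).card ≤ 2 * h + 2
        split_ifs with h1
        · exact h1
        · simp
    refine transfer O fam _ ?_ hIH
    intro o x hx y hy hxy
    right
    have hmemU : ∀ o, ∀ x ∈ fam o, x ∈ U := by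
      intro o x hx
      cases o with
      | none => exact Finset.mem_union_left _ (hSP hx)
      | some i =>
        exact Finset.mem_union_right _ (Finset.mem_biUnion.2 ⟨i, Finset.mem_univ _, hx⟩)
    by_cases hle : (comp O x y (fam o)).card ≤ 2 * h + 2
    · refine ⟨some (o, ⟨x, hmemU o x hx⟩, ⟨y, hmemU o y hy⟩), 1, 0, one_ne_zero, ?_⟩
      have e1 : E' (o, ⟨x, hmemU o x hx⟩, ⟨y, hmemU o y hy⟩) = comp O x y (fam o) := if_pos hle
      simp only [Option.elim_some, e1, one_mul, add_zero, Finset.image_id']
    · cases o with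
      | some i =>
        exact absurd ((comp_card_le O x y (E i)).trans (hE i)) hle
      | none =>
        have hbd := big_disc O P S hSP ha hb hab s hs htO halg hcard hxy (not_le.1 hle)
        obtain ⟨α, β, hα, hαβ⟩ := comp_affine O S hab hxy hbd.1 hbd.2
        exact ⟨none, α, β, hα, hαβ⟩

theorem DO_reindex {k : Type*} [Field k] {ι ι' : Type*} (e : ι → ι') (he : Function.Surjective e)
    (S : ι' → Finset k) (h : DO (fun i => S (e i))) : DO S := by
  intro A hA F hF c hc
  obtain ⟨p, M, h1, h2, h3, h4, h5, h6⟩ := h A hA (fun i => F (e i)) (fun i => hF (e i)) c hc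
  refine ⟨p, M, h1, h2, h3, h4, h5, fun i' => ?_⟩
  obtain ⟨i, rfl⟩ := he i'
  exact h6 i

end Pool.Agent.R410.OR
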