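import Pool.Agent.R410.OR.Val3
import Pool.Agent.Y162.HW.Spread

/-!
# Lifting: tools
-/

set_option autoImplicit false
set_option linter.all false

open Polynomial

namespace Pool.Agent.R410.OR

/-- a valuation ring which dominates a prime -/
theorem dominate {C F : Type*} [CommRing C] [Field F] (θ : C →+* F) (𝔫 : Ideal C)
    [h𝔫 : 𝔫.IsPrime] (h : RingHom.ker θ ≤ 𝔫) :
    ∃ W : ValuationSubring F, (∀ x, θ x ∈ W) ∧ ∀ x, W.valuation (θ x) < 1 ↔ x ∈ 𝔫 := by
  have hunit : ∀ y : 𝔫.primeCompl, IsUnit (θ y) := fun y =>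
    isUnit_iff_ne_zero.2 fun h0 => y.2 (h (RingHom.mem_ker.2 h0))
  let L := Localization.AtPrime 𝔫
  let f : L →+* F := IsLocalization.lift (M := 𝔫.primeCompl) hunit
  have hf : ∀ x, f (algebraMap C L x) = θ x := fun x => IsLocalization.lift_eq hunit x
  obtain ⟨W, hW, hloc⟩ := IsLocalRing.exists_factor_valuationRing f
  refine ⟨W, fun x => hf x ▸ hW _, fun x => ?_⟩
  have hx : θ x ∈ W := hf x ▸ hW _
  have h1 : W.valuation (θ x) < 1 ↔ (⟨θ x, hx⟩ : W) ∈ IsLocalRing.maximalIdeal W :=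
    (ValuationSubring.valuation_lt_one_iff W ⟨θ x, hx⟩).symm
  rw [h1, IsLocalRing.mem_maximalIdeal, mem_nonunits_iff]
  have h2 : f.codRestrict W.toSubring hW (algebraMap C L x) = (⟨θ x, hx⟩ : W) :=
    Subtype.ext (hf x)
  have h3 : IsUnit (f.codRestrict W.toSubring hW (algebraMap C L x)) ↔
      IsUnit (algebraMap C L x) := isUnit_map_iff _ _
  have h4 : IsUnit (algebraMap C L x) ↔ x ∈ 𝔫.primeCompl :=
    IsLocalization.AtPrime.isUnit_to_map_iff L 𝔫 x
  have h5 : IsUnit (⟨θ x, hx⟩ : W) ↔ x ∈ 𝔫.primeCompl := by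
    rw [← h4, ← h3, h2]
  rw [h5]
  exact not_not

section
variable {F : Type*} [Field F]

/-- affine changes of the variable -/
theorem hw_affine {p : ℕ} [Fact p.Prime] [CharP F p] (hp2 : p ≠ 2) {ι : Type*} (s : Finset ι)
    (x : ι → F) (α β : F) (hα : α ≠ 0)
    (h : (hw p ((s.card - 1) / 2) (∏ i ∈ s, (X - C (x i)))).det ≠ 0) :
    (hw p ((s.card - 1) / 2) (∏ i ∈ s, (X - C (α * x i + β)))).det ≠ 0 := by
  have hdeg : ∀ y : ι → F, (∏ i ∈ s, (X - C (y i))).natDegree ≤ 2 * ((s.card - 1) / 2) + 2 := by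
    intro y
    rw [natDegree_prod_of_monic _ _ fun i _ => monic_X_sub_C (y i)]
    simp only [natDegree_X_sub_C, Finset.sum_const, smul_eq_mul, mul_one]
    omega
  refine hw_of_ker (hdeg _) hp2 fun Q hQ hder => ?_
  have h1 := iter_comp α β (Q * (∏ i ∈ s, (X - C (α * x i + β))) ^ ((p - 1) / 2)) (p - 1)
  rw [hder, zero_comp, mul_zero, mul_comp, pow_comp, prod_comp] at h1
  have h2 : ∏ i ∈ s, ((X - C (α * x i + β)).comp (C α * X + C β) : F[X]) =
      C (α ^ s.card) * ∏ i ∈ s, (X - C (x i)) := by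
    rw [C_pow, ← Finset.prod_const, ← Finset.prod_mul_distrib]
    refine Finset.prod_congr rfl fun i _ => ?_
    rw [sub_comp, X_comp, C_comp, C_add, C_mul]
    ring
  rw [h2] at h1
  set m := (p - 1) / 2 with hm
  have h3 : Q.comp (C α * X + C β) * (C (α ^ s.card) * ∏ i ∈ s, (X - C (x i))) ^ m =
      C ((α ^ s.card) ^ m) * (Q.comp (C α * X + C β) * (∏ i ∈ s, (X - C (x i))) ^ m) := by
    rw [mul_pow, C_pow (n := m)]
    ring
  rw [h3, iterate_derivative_C_mul, mul_eq_zero, or_iff_right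
    (C_ne_zero.2 (pow_ne_zero _ (pow_ne_zero _ hα)))] at h1
  have hlin : (C α * X + C β : F[X]).natDegree = 1 := natDegree_linear hα
  have h4 : Q.comp (C α * X + C β) = 0 := by
    refine hw_ker (hdeg _) hp2 h ?_ h1
    by_cases hQ0 : Q = 0
    · rw [hQ0, zero_comp, degree_zero]
      exact WithBot.bot_lt_coe _
    · refine lt_of_le_of_lt degree_le_natDegree ?_
      rw [natDegree_comp, hlin, mul_one]
      rwa [← degree_eq_natDegree hQ0]
  by_contra hQ0
  have h5 : Q.comp (C α * X + C β) ≠ 0 := by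
    intro h0
    rcases comp_eq_zero_iff.1 h0 with h6 | ⟨_, h6⟩
    · exact hQ0 h6
    · have h7 := congrArg natDegree h6
      rw [hlin, natDegree_C] at h7
      exact one_ne_zero h7
  exact h5 h4

end

open Classical in
/-- comparison of the components of two reductions -/
theorem compare {K F k' C₁ : Type*} [Field K] [Field F] [Field k'] [CommRing C₁]
    (O : ValuationSubring K) (W : ValuationSubring F) (S : Finset K) (j : K → F) (a b : K) (p : ℕ)
    (θ : C₁ →+* F) (ψ : C₁ →+* k') (hθW : ∀ x, θ x ∈ W)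
    (hθψ : ∀ x, W.valuation (θ x) < 1 ↔ ψ x = 0) (ω : K → C₁)
    (h1 : ∀ r ∈ S, (r - a) / (b - a) ∈ O → (j r - j a) / (j b - j a) = θ (ω r))
    (h2 : ∀ r ∈ S, (r - a) / (b - a) ∉ O → (j r - j a) / (j b - j a) ∉ W)
    (h3 : ∀ r ∈ S, ∀ r' ∈ S, (r - a) / (b - a) ∈ O → (r' - a) / (b - a) ∈ O →
      ψ (ω r) = ψ (ω r') → red O ((r - a) / (b - a)) = red O ((r' - a) / (b - a)))
    (φ : IsLocalRing.ResidueField O → k')
    (h4 : ∀ r ∈ S, (r - a) / (b - a) ∈ O → ψ (ω r) = φ (red O ((r - a) / (b - a))))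
    (hj : Set.InjOn j S)
    (h : (hw p (((comp O a b S).card - 1) / 2) (∏ x ∈ comp O a b S, (X - C (φ x)))).det ≠ 0) :
    (hw p (((comp W (j a) (j b) (S.image j)).card - 1) / 2)
      (∏ x ∈ comp W (j a) (j b) (S.image j), (X - C x))).det ≠ 0 := by
  have hcl : ∀ x, x ∈ comp O a b S → ∃ r ∈ S, (r - a) / (b - a) ∈ O ∧
      red O ((r - a) / (b - a)) = x := by
    intro x hx
    obtain ⟨r, hr, hrx⟩ := Finset.mem_image.1 (Finset.mem_filter.1 hx).1
    exact ⟨r, (Finset.mem_filter.1 hr).1, (Finset.mem_filter.1 hr).2, hrx⟩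
  choose! ρ hρ using hcl
  -- equality of the positions
  have hpos : ∀ r ∈ S, ∀ r' ∈ S, (r - a) / (b - a) ∈ O → (r' - a) / (b - a) ∈ O →
      (red W (θ (ω r)) = red W (θ (ω r')) ↔
        red O ((r - a) / (b - a)) = red O ((r' - a) / (b - a))) := by
    intro r hr r' hr' ht ht'
    rw [red_eq_iff W (hθW _) (hθW _), ← map_sub, hθψ, map_sub, sub_eq_zero]
    constructor
    · exact h3 r hr r' hr' ht ht'
    · intro he
      rw [h4 r hr ht, h4 r' hr' ht', he]
  have hinn : inn W (j a) (j b) (S.image j) = (inn O a b S).image j := by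
    ext y
    unfold inn
    constructor
    · intro hy
      obtain ⟨hy1, hy2⟩ := Finset.mem_filter.1 hy
      obtain ⟨r, hr, rfl⟩ := Finset.mem_image.1 hy1
      refine Finset.mem_image_of_mem _ (Finset.mem_filter.2 ⟨hr, ?_⟩)
      by_contra hO
      exact h2 r hr hO hy2
    · intro hy
      obtain ⟨r, hr, rfl⟩ := Finset.mem_image.1 hy
      obtain ⟨hr1, hr2⟩ := Finset.mem_filter.1 hr
      refine Finset.mem_filter.2 ⟨Finset.mem_image_of_mem _ hr1, ?_⟩
      rw [h1 r hr1 hr2]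
      exact hθW _
  have hmult : ∀ r ∈ S, (r - a) / (b - a) ∈ O →
      mult W (j a) (j b) (S.image j) (red W (θ (ω r))) =
        mult O a b S (red O ((r - a) / (b - a))) := by
    intro r hr ht
    unfold mult
    rw [hinn, Finset.filter_image, Finset.card_image_of_injOn]
    · congr 1
      refine Finset.filter_congr fun r' hr' => ?_
      obtain ⟨hr1, hr2⟩ := Finset.mem_filter.1 hr'
      rw [h1 r' hr1 hr2]
      exact hpos r' hr1 r hr hr2 ht
    · intro x hx y hy hxy
      exact hj (Finset.mem_filter.1 (Finset.mem_filter.1 hx).1).1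
        (Finset.mem_filter.1 (Finset.mem_filter.1 hy).1).1 hxy
  let e : IsLocalRing.ResidueField O → IsLocalRing.ResidueField W := fun x => red W (θ (ω (ρ x)))
  have he : Set.InjOn e (comp O a b S) := by
    intro x hx y hy hxy
    obtain ⟨hx1, hx2, hx3⟩ := hρ x hx
    obtain ⟨hy1, hy2, hy3⟩ := hρ y hy
    rw [← hx3, ← hy3]
    exact (hpos _ hx1 _ hy1 hx2 hy2).1 hxy
  have hcomp : comp W (j a) (j b) (S.image j) = (comp O a b S).image e := by
    ext y
    constructor
    · intro hy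
      obtain ⟨hy1, hy2⟩ := Finset.mem_filter.1 hy
      rw [hinn, Finset.image_image] at hy1
      obtain ⟨r, hr, hry⟩ := Finset.mem_image.1 hy1
      obtain ⟨hr1, hr2⟩ := Finset.mem_filter.1 hr
      change red W ((j r - j a) / (j b - j a)) = y at hry
      rw [h1 r hr1 hr2] at hry
      have hx : red O ((r - a) / (b - a)) ∈ comp O a b S := by
        refine Finset.mem_filter.2 ⟨Finset.mem_image_of_mem _ hr, ?_⟩
        rw [← hmult r hr1 hr2, hry]
        exact hy2
      refine Finset.mem_image.2 ⟨_, hx, ?_⟩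
      rw [← hry]
      obtain ⟨hx1, hx2, hx3⟩ := hρ _ hx
      exact (hpos _ hx1 r hr1 hx2 hr2).2 hx3
    · intro hy
      obtain ⟨x, hx, rfl⟩ := Finset.mem_image.1 hy
      obtain ⟨hx1, hx2, hx3⟩ := hρ _ hx
      refine Finset.mem_filter.2 ⟨?_, ?_⟩
      · rw [hinn, Finset.image_image]
        refine Finset.mem_image.2 ⟨ρ x, Finset.mem_filter.2 ⟨hx1, hx2⟩, ?_⟩
        change red W ((j (ρ x) - j a) / (j b - j a)) = _
        rw [h1 _ hx1 hx2]
      · rw [hmult _ hx1 hx2, hx3]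
        exact (Finset.mem_filter.1 hx).2
  rw [hcomp, Finset.card_image_of_injOn he, Finset.prod_image fun x hx y hy hxy => he hx hy hxy]
  -- the polynomial over `C₁`
  let G : C₁[X] := ∏ x ∈ comp O a b S, (X - C (ω (ρ x)))
  let θW : C₁ →+* IsLocalRing.ResidueField W :=
    (IsLocalRing.residue W).comp (θ.codRestrict W.toSubring hθW)
  have hθWe : ∀ x, θW x = red W (θ x) := fun x => (red_of W (hθW x)).symm
  have hG1 : G.map θW = ∏ x ∈ comp O a b S, (X - C (e x)) := by
    rw [Polynomial.map_prod]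
    refine Finset.prod_congr rfl fun x _ => ?_
    rw [Polynomial.map_sub, Polynomial.map_X, Polynomial.map_C, hθWe]
  have hG2 : G.map ψ = ∏ x ∈ comp O a b S, (X - C (φ x)) := by
    rw [Polynomial.map_prod]
    refine Finset.prod_congr rfl fun x hx => ?_
    obtain ⟨hx1, hx2, hx3⟩ := hρ _ hx
    rw [Polynomial.map_sub, Polynomial.map_X, Polynomial.map_C, h4 _ hx1 hx2, hx3]
  rw [← hG2, ← hw_det_map] at h
  rw [← hG1, ← hw_det_map]
  intro h0
  apply h
  rw [← hθψ]
  rw [hθWe, red_of W (hθW _), IsLocalRing.residue_eq_zero_iff,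
    ValuationSubring.valuation_lt_one_iff] at h0
  exact h0

end Pool.Agent.R410.OR
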