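import Pool.Agent.R410.OR.Tr1

/-!
# Lifting dense ordinary reduction from the components of a reduction
-/

set_option autoImplicit false
set_option linter.all false

open Polynomial

universe u

namespace Pool.Agent.R410.OR

/-- simultaneous dense ordinary reduction of the curves `y² = ∏ (x - a)`, `a ∈ S i` -/
def DO {k : Type*} [Field k] {ι : Type*} (S : ι → Finset k) : Prop :=
  ∀ A : Subalgebra ℤ k, A.FG → ∀ F : ι → A[X],
    (∀ i, (F i).map (algebraMap A k) = ∏ a ∈ S i, (X - C a)) → ∀ c : A, c ≠ 0 →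
    ∃ (p : ℕ) (M : Ideal A), p.Prime ∧ p ≠ 2 ∧ M.IsMaximal ∧ (p : A) ∈ M ∧ c ∉ M ∧
      ∀ i, (hw p (((S i).card - 1) / 2) ((F i).map (Ideal.Quotient.mk M))).det ≠ 0

theorem prime_charP {L : Type*} [Field L] {p : ℕ} (hp : p.Prime) (h : ((p : ℕ) : L) = 0) :
    CharP L p := by
  obtain ⟨q, hq⟩ := CharP.exists L
  have h2 : q ∣ p := (CharP.cast_eq_zero_iff L q p).1 h
  rcases (Nat.dvd_prime hp).1 h2 with h3 | h3
  · subst h3
    exact absurd (CharP.char_ne_one L 1 rfl) (by simp)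
  · rwa [← h3]

open Classical in
theorem transfer {K : Type u} [Field K] [CharZero K] (O : ValuationSubring K)
    [CharZero (IsLocalRing.ResidueField O)] {ι J : Type*} [Fintype ι] [Fintype J]
    (S : ι → Finset K) (R : J → Finset (IsLocalRing.ResidueField O))
    (hR : ∀ i, ∀ a ∈ S i, ∀ b ∈ S i, a ≠ b → (comp O a b (S i)).card ≤ 2 ∨
      ∃ j, ∃ α β : IsLocalRing.ResidueField O, α ≠ 0 ∧
        comp O a b (S i) = (R j).image fun x => α * x + β)
    (h : DO R) : DO S := by
  intro A hA F₀ hF c hc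
  -- the affine maps
  have hR2 : ∀ i a b, ∃ α β : (IsLocalRing.ResidueField O), α ≠ 0 ∧ (a ∈ S i → b ∈ S i → a ≠ b →
      (comp O a b (S i)).card ≤ 2 ∨ ∃ j, comp O a b (S i) = (R j).image fun x => α * x + β) := by
    intro i a b
    by_cases hab : a ∈ S i ∧ b ∈ S i ∧ a ≠ b
    · rcases hR i a hab.1 b hab.2.1 hab.2.2 with h1 | ⟨j, α, β, h1, h2⟩
      · exact ⟨1, 0, one_ne_zero, fun _ _ _ => Or.inl h1⟩
      · exact ⟨α, β, h1, fun _ _ _ => Or.inr ⟨j, h2⟩⟩
    · exact ⟨1, 0, one_ne_zero, fun h1 h2 h3 => absurd ⟨h1, h2, h3⟩ hab⟩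
  choose αf βf hαf hαβ using hR2
  -- the finite sets
  let U : Finset K := Finset.univ.biUnion S
  have hU : ∀ i, ∀ s ∈ S i, s ∈ U := fun i s hs => Finset.mem_biUnion.2 ⟨i, Finset.mem_univ _, hs⟩
  let ω₀ : K → K → K → K := fun a b r =>
    if (r - a) / (b - a) ∈ O then (r - a) / (b - a) else ((r - a) / (b - a))⁻¹
  have hω₀O : ∀ a b r, ω₀ a b r ∈ O := by
    intro a b r
    by_cases ht : (r - a) / (b - a) ∈ O
    · rw [show ω₀ a b r = (r - a) / (b - a) from if_pos ht]; exact ht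
    · rw [show ω₀ a b r = ((r - a) / (b - a))⁻¹ from if_neg ht]
      exact (O.mem_or_inv_mem _).resolve_left ht
  let Ω : Finset K := (U ×ˢ U ×ˢ U).image fun e => ω₀ e.1 e.2.1 e.2.2
  have hΩ : ∀ a b r, a ∈ U → b ∈ U → r ∈ U → ω₀ a b r ∈ Ω := fun a b r ha hb hr =>
    Finset.mem_image.2 ⟨(a, b, r), Finset.mem_product.2 ⟨ha, Finset.mem_product.2 ⟨hb, hr⟩⟩, rfl⟩
  have hΩO : ∀ x ∈ Ω, x ∈ O := by
    intro x hx
    obtain ⟨e, _, rfl⟩ := Finset.mem_image.1 hx
    exact hω₀O _ _ _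
  let C₁ : Subalgebra ℤ K := Algebra.adjoin ℤ (Ω : Set K)
  have hC₁ : C₁.FG := Subalgebra.fg_def.2 ⟨Ω, Ω.finite_toSet, rfl⟩
  have hCO : ∀ x : C₁, (algebraMap C₁ K) x ∈ O.toSubring := by
    intro x
    have h1 : C₁ ≤ subalgebraOfSubring O.toSubring := Algebra.adjoin_le fun y hy => hΩO y hy
    exact h1 x.2
  let ρ : C₁ →+* (IsLocalRing.ResidueField O) := (IsLocalRing.residue O).comp ((algebraMap C₁ K).codRestrict O.toSubring hCO)
  have hρ : ∀ x : C₁, ρ x = red O (x : K) := fun x => (red_of O (hCO x)).symm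
  -- the ring on the side of the residue field
  let Θ : Finset (IsLocalRing.ResidueField O) := ((Finset.univ : Finset ι) ×ˢ U ×ˢ U).image (fun e => αf e.1 e.2.1 e.2.2) ∪
    (((Finset.univ : Finset ι) ×ˢ U ×ˢ U).image (fun e => (αf e.1 e.2.1 e.2.2)⁻¹) ∪
      ((Finset.univ : Finset ι) ×ˢ U ×ˢ U).image (fun e => βf e.1 e.2.1 e.2.2))
  let V : Finset (IsLocalRing.ResidueField O) := Ω.image (red O) ∪ (Θ ∪ Finset.univ.biUnion R)
  let A' : Subalgebra ℤ (IsLocalRing.ResidueField O) := Algebra.adjoin ℤ (V : Set (IsLocalRing.ResidueField O))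
  have hA' : A'.FG := Subalgebra.fg_def.2 ⟨V, V.finite_toSet, rfl⟩
  have hVA : ∀ x ∈ V, x ∈ A' := fun x hx => Algebra.subset_adjoin hx
  have hmem3 : ∀ i, ∀ a ∈ U, ∀ b ∈ U, (i, a, b) ∈ (Finset.univ : Finset ι) ×ˢ U ×ˢ U :=
    fun i a ha b hb => Finset.mem_product.2 ⟨Finset.mem_univ _, Finset.mem_product.2 ⟨ha, hb⟩⟩
  have hαA : ∀ i, ∀ a ∈ U, ∀ b ∈ U, αf i a b ∈ A' := fun i a ha b hb =>
    hVA _ (Finset.mem_union_right _ (Finset.mem_union_left _ (Finset.mem_union_left _
      (Finset.mem_image.2 ⟨(i, a, b), hmem3 i a ha b hb, rfl⟩))))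
  have hαiA : ∀ i, ∀ a ∈ U, ∀ b ∈ U, (αf i a b)⁻¹ ∈ A' := fun i a ha b hb =>
    hVA _ (Finset.mem_union_right _ (Finset.mem_union_left _ (Finset.mem_union_right _
      (Finset.mem_union_left _ (Finset.mem_image.2 ⟨(i, a, b), hmem3 i a ha b hb, rfl⟩)))))
  have hβA : ∀ i, ∀ a ∈ U, ∀ b ∈ U, βf i a b ∈ A' := fun i a ha b hb =>
    hVA _ (Finset.mem_union_right _ (Finset.mem_union_left _ (Finset.mem_union_right _
      (Finset.mem_union_right _ (Finset.mem_image.2 ⟨(i, a, b), hmem3 i a ha b hb, rfl⟩)))))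
  have hRA : ∀ j, ∀ x ∈ R j, x ∈ A' := fun j x hx =>
    hVA _ (Finset.mem_union_right _ (Finset.mem_union_right _
      (Finset.mem_biUnion.2 ⟨j, Finset.mem_univ _, hx⟩)))
  have hΩA : ∀ x ∈ Ω, red O x ∈ A' := fun x hx =>
    hVA _ (Finset.mem_union_left _ (Finset.mem_image_of_mem _ hx))
  let F' : J → A'[X] := fun j => ∏ x ∈ (R j).attach, (X - C ⟨x.1, hRA j x.1 x.2⟩)
  have hF' : ∀ j, (F' j).map (algebraMap A' (IsLocalRing.ResidueField O)) = ∏ x ∈ R j, (X - C x) := by
    intro j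
    rw [← Finset.prod_attach (R j) fun x => (X - C x : (IsLocalRing.ResidueField O)[X]), Polynomial.map_prod]
    refine Finset.prod_congr rfl fun x _ => ?_
    rw [Polynomial.map_sub, Polynomial.map_X, Polynomial.map_C]
    rfl
  let Z : Finset (IsLocalRing.ResidueField O) := ((Ω ×ˢ Ω).image fun e => red O e.1 - red O e.2).filter (· ≠ 0)
  have hZA : ∀ z ∈ Z, z ∈ A' := by
    intro z hz
    obtain ⟨e, he, rfl⟩ := Finset.mem_image.1 (Finset.mem_filter.1 hz).1
    exact sub_mem (hΩA _ (Finset.mem_product.1 he).1) (hΩA _ (Finset.mem_product.1 he).2)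
  -- the ring `B`
  let E : Finset K := U ∪ (U ×ˢ U).image fun e => (e.2 - e.1)⁻¹
  let B : Subalgebra ℤ K := A ⊔ (C₁ ⊔ Algebra.adjoin ℤ (E : Set K))
  have hB : B.FG := hA.sup (hC₁.sup (Subalgebra.fg_def.2 ⟨E, E.finite_toSet, rfl⟩))
  have hAB : A ≤ B := le_sup_left
  have hCB : C₁ ≤ B := le_sup_left.trans le_sup_right
  have hEB : ∀ x ∈ E, x ∈ B := fun x hx =>
    (le_sup_right.trans le_sup_right : Algebra.adjoin ℤ (E : Set K) ≤ B) (Algebra.subset_adjoin hx)
  have hUB : ∀ x ∈ U, x ∈ B := fun x hx => hEB x (Finset.mem_union_left _ hx)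
  have hIB : ∀ a ∈ U, ∀ b ∈ U, (b - a)⁻¹ ∈ B := fun a ha b hb =>
    hEB _ (Finset.mem_union_right _ (Finset.mem_image.2 ⟨(a, b), Finset.mem_product.2 ⟨ha, hb⟩, rfl⟩))
  have hfB : Algebra.FiniteType ℤ B := (Subalgebra.fg_iff_finiteType _).mp hB
  have hfA : Algebra.FiniteType ℤ A := (Subalgebra.fg_iff_finiteType _).mp hA
  have hfC : Algebra.FiniteType ℤ C₁ := (Subalgebra.fg_iff_finiteType _).mp hC₁
  have hJ : IsJacobsonRing A := by
    have := Pool.Agent.Y162.HW.jac_int
    exact isJacobsonRing_of_finiteType (A := ℤ)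
  have hNoeth : IsNoetherianRing C₁ := Algebra.FiniteType.isNoetherianRing ℤ C₁
  let iA : A →+* B := (Subalgebra.inclusion hAB).toRingHom
  have hiA : Function.Injective iA := Subalgebra.inclusion_injective hAB
  let iC : C₁ →+* B := (Subalgebra.inclusion hCB).toRingHom
  have hiC : Function.Injective iC := Subalgebra.inclusion_injective hCB
  have hft : iC.FiniteType := by
    have h1 : (iC.comp (algebraMap ℤ C₁)).FiniteType := by
      have : (algebraMap ℤ B).FiniteType := RingHom.finiteType_algebraMap.mpr inferInstance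
      rwa [show algebraMap ℤ B = iC.comp (algebraMap ℤ C₁) from RingHom.ext_int _ _] at this
    exact RingHom.FiniteType.of_comp_finiteType h1
  have hc' : iA c ≠ 0 := by rwa [map_ne_zero_iff _ hiA]
  obtain ⟨c0, hc0, hlift⟩ := Pool.Agent.Y162.HW.chev iC hiC hft (iA c) hc'
  obtain ⟨N, hN⟩ := Pool.Agent.Y162.HW.large_primes c0 hc0
  -- the specialization
  let c₂ : A' := ((N + 2).factorial : A') * ∏ z ∈ Z.attach, (⟨z.1, hZA z.1 z.2⟩ : A')
  have hc₂ : c₂ ≠ 0 := by
    refine mul_ne_zero ?_ (Finset.prod_ne_zero_iff.2 fun z _ h0 => ?_)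
    · exact_mod_cast (N + 2).factorial_ne_zero
    · exact (Finset.mem_filter.1 z.2).2 (congrArg Subtype.val h0)
  obtain ⟨p, M', hp, hp2, hM', hpM', hcM', hdet'⟩ := h A' hA' F' hF' c₂ hc₂
  have hpf : Fact p.Prime := ⟨hp⟩
  have hNp : N ≤ p := by
    by_contra hlt
    apply hcM'
    refine Ideal.mul_mem_right _ M' ?_
    obtain ⟨d, hd⟩ := hp.dvd_factorial.2 (by omega : p ≤ N + 2)
    rw [hd, Nat.cast_mul]
    exact Ideal.mul_mem_right _ M' hpM'
  have hZM : ∀ z (hz : z ∈ Z), (⟨z, hZA z hz⟩ : A') ∉ M' := by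
    intro z hz hzM
    apply hcM'
    refine Ideal.mul_mem_left M' _ ?_
    exact M'.mem_of_dvd (Finset.dvd_prod_of_mem (fun z : Z => (⟨z.1, hZA z.1 z.2⟩ : A'))
      (Finset.mem_attach Z ⟨z, hz⟩)) hzM
  letI : Field (A' ⧸ M') := Ideal.Quotient.field M'
  have hk'0 : ((p : ℕ) : A' ⧸ M') = 0 := by
    rw [← map_natCast (Ideal.Quotient.mk M'), Ideal.Quotient.eq_zero_iff_mem]
    exact hpM'
  have hk'p : CharP (A' ⧸ M') p := prime_charP hp hk'0
  have hρA : ∀ x : C₁, ρ x ∈ A' := by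
    have h1 : (⊤ : Subalgebra ℤ C₁) ≤ A'.comap ρ.toIntAlgHom := by
      rw [← Algebra.adjoin_adjoin_coe_preimage (R := ℤ) (s := (Ω : Set K))]
      refine Algebra.adjoin_le fun x hx => ?_
      change ρ x ∈ A'
      rw [hρ]
      exact hΩA _ hx
    exact fun x => h1 (Algebra.mem_top (x := x))
  let ρC : C₁ →+* A' := ρ.codRestrict A' hρA
  let ψ : C₁ →+* A' ⧸ M' := (Ideal.Quotient.mk M').comp ρC
  set 𝔫 : Ideal C₁ := RingHom.ker ψ with h𝔫
  have h𝔫p : 𝔫.IsPrime := RingHom.ker_isPrime ψ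
  have hp𝔫 : (p : C₁) ∈ 𝔫 := by
    rw [h𝔫, RingHom.mem_ker, map_natCast]
    exact hk'0
  obtain ⟨P, hP, hPn⟩ := Ideal.exists_minimalPrimes_le
    (show Ideal.span {(p : C₁)} ≤ 𝔫 by rw [Ideal.span_le]; simpa using hp𝔫)
  have hPp : P.IsPrime := hP.1.1
  have hc0P := hN p hNp hp P hP
  obtain ⟨Q, hQ, hQP, hcQ⟩ := hlift P hPp hc0P
  -- the field of characteristic `p`
  obtain ⟨L, hLf, j₀, hj₀⟩ : ∃ (L : Type u) (_ : Field L) (j₀ : B →+* L), ∀ x, j₀ x = 0 ↔ x ∈ Q := by
    refine ⟨FractionRing (B ⧸ Q), inferInstance,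
      (algebraMap (B ⧸ Q) (FractionRing (B ⧸ Q))).comp (Ideal.Quotient.mk Q), fun x => ?_⟩
    change (algebraMap (B ⧸ Q) (FractionRing (B ⧸ Q))) (Ideal.Quotient.mk Q x) = 0 ↔ _
    rw [map_eq_zero_iff _ (IsFractionRing.injective _ _), Ideal.Quotient.eq_zero_iff_mem]
  have hpQ : ((p : ℕ) : B) ∈ Q := by
    have h1 : (p : C₁) ∈ Q.comap iC := by
      rw [hQP]; exact hP.1.2 (Ideal.subset_span rfl)
    rw [Ideal.mem_comap, map_natCast] at h1
    exact h1
  have hL0 : ((p : ℕ) : L) = 0 := by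
    have := (hj₀ ((p : ℕ) : B)).2 hpQ
    rwa [map_natCast] at this
  have hLp : CharP L p := prime_charP hp hL0
  let θ : C₁ →+* L := j₀.comp iC
  have hθker : RingHom.ker θ ≤ 𝔫 := by
    intro x hx
    apply hPn
    rw [← hQP, Ideal.mem_comap]
    exact (hj₀ _).1 hx
  obtain ⟨W, hθW, hW⟩ := dominate θ 𝔫 hθker
  have hθψ : ∀ x, W.valuation (θ x) < 1 ↔ ψ x = 0 := fun x => by
    rw [hW x, h𝔫, RingHom.mem_ker]
  let j : K → L := fun s => if h : s ∈ B then j₀ ⟨s, h⟩ else 0
  have hj : ∀ s (hs : s ∈ B), j s = j₀ ⟨s, hs⟩ := fun s hs => dif_pos hs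
  -- differences
  have hjd : ∀ a ∈ U, ∀ b ∈ U, a ≠ b → j b - j a ≠ 0 := by
    intro a ha b hb hab h0
    rw [hj a (hUB a ha), hj b (hUB b hb), ← map_sub] at h0
    have h1 : (⟨b, hUB b hb⟩ - ⟨a, hUB a ha⟩ : B) * ⟨(b - a)⁻¹, hIB a ha b hb⟩ = 1 :=
      Subtype.ext (mul_inv_cancel₀ (sub_ne_zero.2 hab.symm))
    have h2 := congrArg j₀ h1
    rw [map_mul, h0, zero_mul, map_one] at h2
    exact zero_ne_one h2
  have hinj : ∀ i, Set.InjOn j (S i) := by
    intro i a ha b hb hab
    by_contra hne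
    exact hjd a (hU i a ha) b (hU i b hb) hne (by rw [hab, sub_self])
  -- the components over `W` are ordinary
  have hord : ∀ i, ∀ a ∈ (S i).image j, ∀ b ∈ (S i).image j, a ≠ b →
      (hw p (((comp W a b ((S i).image j)).card - 1) / 2)
        (∏ x ∈ comp W a b ((S i).image j), (X - C x))).det ≠ 0 := by
    intro i a' ha' b' hb' hab'
    obtain ⟨a, ha, rfl⟩ := Finset.mem_image.1 ha'
    obtain ⟨b, hb, rfl⟩ := Finset.mem_image.1 hb'
    have hab : a ≠ b := fun h0 => hab' (by rw [h0])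
    have haU := hU i a ha
    have hbU := hU i b hb
    have hba : b - a ≠ 0 := sub_ne_zero.2 hab.symm
    have hjba := hjd a haU b hbU hab
    let ω : K → C₁ := fun r => if h : ω₀ a b r ∈ C₁ then ⟨ω₀ a b r, h⟩ else 0
    have hωC : ∀ r ∈ S i, ω₀ a b r ∈ C₁ := fun r hr =>
      Algebra.subset_adjoin (hΩ a b r haU hbU (hU i r hr))
    have hω : ∀ r (hr : r ∈ S i), ω r = ⟨ω₀ a b r, hωC r hr⟩ := fun r hr => dif_pos (hωC r hr)
    have hωin : ∀ r ∈ S i, (r - a) / (b - a) ∈ O → ((ω r : C₁) : K) = (r - a) / (b - a) := by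
      intro r hr ht
      rw [hω r hr]
      exact if_pos ht
    have hωout : ∀ r ∈ S i, (r - a) / (b - a) ∉ O → ((ω r : C₁) : K) = ((r - a) / (b - a))⁻¹ := by
      intro r hr ht
      rw [hω r hr]
      exact if_neg ht
    let φ : (IsLocalRing.ResidueField O) → A' ⧸ M' := fun x => if h : x ∈ A' then Ideal.Quotient.mk M' ⟨x, h⟩ else 0
    have hφ : ∀ x (hx : x ∈ A'), φ x = Ideal.Quotient.mk M' ⟨x, hx⟩ := fun x hx => dif_pos hx
    refine compare O W (S i) j a b p θ ψ hθW hθψ ω ?_ ?_ ?_ φ ?_ (hinj i) ?_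
    · intro r hr ht
      rw [div_eq_iff hjba, hj r (hUB r (hU i r hr)), hj a (hUB a haU), hj b (hUB b hbU), ← map_sub,
        ← map_sub]
      change _ = j₀ (iC (ω r)) * _
      rw [← map_mul]
      congr 1
      apply Subtype.ext
      change r - a = ((ω r : C₁) : K) * (b - a)
      rw [hωin r hr ht, div_mul_cancel₀ _ hba]
    · intro r hr ht
      have e1 : (j r - j a) * θ (ω r) = j b - j a := by
        rw [hj r (hUB r (hU i r hr)), hj a (hUB a haU), hj b (hUB b hbU), ← map_sub, ← map_sub]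
        change _ * j₀ (iC (ω r)) = _
        rw [← map_mul]
        congr 1
        apply Subtype.ext
        change (r - a) * ((ω r : C₁) : K) = b - a
        rw [hωout r hr ht, inv_div]
        have hra : r - a ≠ 0 := by
          intro h0
          apply ht
          rw [h0, zero_div]
          exact zero_mem O
        rw [mul_div_assoc', mul_comm, mul_div_assoc, div_self hra, mul_one]
      have e2 : W.valuation (θ (ω r)) < 1 := by
        rw [hθψ]
        change Ideal.Quotient.mk M' (ρC (ω r)) = 0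
        have : ρC (ω r) = 0 := by
          apply Subtype.ext
          change ρ (ω r) = 0
          have hm : ((ω r : C₁) : K) ∈ O := hCO _
          rw [hρ, red_of O hm, IsLocalRing.residue_eq_zero_iff,
            ValuationSubring.valuation_lt_one_iff]
          change O.valuation ((ω r : C₁) : K) < 1
          rw [hωout r hr ht, map_inv₀]
          apply inv_lt_one_of_one_lt₀
          exact not_le.1 fun h => ht ((O.valuation_le_one_iff _).1 h)
        rw [this, map_zero]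
      intro hmem
      have e3 : W.valuation ((j r - j a) / (j b - j a)) ≤ 1 := (W.valuation_le_one_iff _).2 hmem
      have e4 : (j r - j a) / (j b - j a) * θ (ω r) = 1 := by
        rw [div_mul_eq_mul_div, e1, div_self hjba]
      have e5 := congrArg W.valuation e4
      rw [map_mul, map_one] at e5
      have e6 : W.valuation ((j r - j a) / (j b - j a)) * W.valuation (θ (ω r)) < 1 := by
        calc W.valuation ((j r - j a) / (j b - j a)) * W.valuation (θ (ω r)) ≤
            1 * W.valuation (θ (ω r)) := mul_le_mul_left e3 _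
          _ < 1 := by rw [one_mul]; exact e2
      rw [e5] at e6
      exact lt_irrefl _ e6
    · intro r hr r' hr' ht ht' heq
      by_contra hne
      have hz : red O ((r - a) / (b - a)) - red O ((r' - a) / (b - a)) ∈ Z := by
        refine Finset.mem_filter.2 ⟨Finset.mem_image.2 ⟨(ω₀ a b r, ω₀ a b r'),
          Finset.mem_product.2 ⟨hΩ a b r haU hbU (hU i r hr), hΩ a b r' haU hbU (hU i r' hr')⟩,
          ?_⟩, sub_ne_zero.2 hne⟩
        rw [show ω₀ a b r = (r - a) / (b - a) from if_pos ht,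
          show ω₀ a b r' = (r' - a) / (b - a) from if_pos ht']
      apply hZM _ hz
      rw [← Ideal.Quotient.eq_zero_iff_mem]
      have e1 : (⟨_, hZA _ hz⟩ : A') = ρC (ω r) - ρC (ω r') := by
        apply Subtype.ext
        change red O ((r - a) / (b - a)) - red O ((r' - a) / (b - a)) = ρ (ω r) - ρ (ω r')
        rw [hρ, hρ, hωin r hr ht, hωin r' hr' ht']
      rw [e1, map_sub, sub_eq_zero]
      exact heq
    · intro r hr ht
      change Ideal.Quotient.mk M' (ρC (ω r)) = _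
      have hm : red O ((r - a) / (b - a)) ∈ A' := by
        have := hρA (ω r)
        rwa [hρ, hωin r hr ht] at this
      rw [hφ _ hm]
      congr 1
      apply Subtype.ext
      change ρ (ω r) = _
      rw [hρ, hωin r hr ht]
    · rcases hαβ i a b ha hb hab with hle | ⟨jj, hjj⟩
      · have e0 : ((comp O a b (S i)).card - 1) / 2 = 0 := by omega
        rw [e0, Matrix.det_isEmpty]
        exact one_ne_zero
      · set α := αf i a b with hα'
        set β := βf i a b with hβ'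
        have hα0 : α ≠ 0 := hαf i a b
        have hαm : α ∈ A' := hαA i a haU b hbU
        have hαim : α⁻¹ ∈ A' := hαiA i a haU b hbU
        have hβm : β ∈ A' := hβA i a haU b hbU
        have hinj2 : Function.Injective fun x : (IsLocalRing.ResidueField O) => α * x + β := by
          intro x y hxy
          exact mul_left_cancel₀ hα0 (add_right_cancel hxy)
        rw [hjj, Finset.card_image_of_injective _ hinj2,
          Finset.prod_image fun x _ y _ hxy => hinj2 hxy]
        have hφα : φ α ≠ 0 := by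
          intro h0
          have e1 : (⟨α, hαm⟩ * ⟨α⁻¹, hαim⟩ : A') = 1 := Subtype.ext (mul_inv_cancel₀ hα0)
          have e2 := congrArg (Ideal.Quotient.mk M') e1
          rw [map_mul, ← hφ α hαm, h0, zero_mul, map_one] at e2
          exact zero_ne_one e2
        have e1 : ∏ x ∈ R jj, (X - C (φ (α * x + β)) : (A' ⧸ M')[X]) =
            ∏ x ∈ R jj, (X - C (φ α * φ x + φ β)) := by
          refine Finset.prod_congr rfl fun x hx => ?_
          have hxm := hRA jj x hx
          have hm : α * x + β ∈ A' := add_mem (mul_mem hαm hxm) hβm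
          rw [hφ _ hm, hφ _ hαm, hφ _ hxm, hφ _ hβm, ← map_mul, ← map_add]
          rfl
        rw [e1]
        apply hw_affine hp2 _ _ _ _ hφα
        have e2 : (F' jj).map (Ideal.Quotient.mk M') = ∏ x ∈ R jj, (X - C (φ x)) := by
          rw [← Finset.prod_attach (R jj) fun x => (X - C (φ x) : (A' ⧸ M')[X]), Polynomial.map_prod]
          refine Finset.prod_congr rfl fun x _ => ?_
          rw [Polynomial.map_sub, Polynomial.map_X, Polynomial.map_C, hφ _ (hRA jj x.1 x.2)]
        rw [← e2]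
        exact hdet' jj
  -- the curve over `L` is ordinary
  have hLord : ∀ i, (hw p (((S i).card - 1) / 2) (((F₀ i).map iA).map j₀)).det ≠ 0 := by
    intro i
    have h1 := valued W hp2 ((S i).image j) (hord i)
    rw [Finset.card_image_of_injOn (hinj i),
      Finset.prod_image fun x hx y hy hxy => hinj i hx hy hxy] at h1
    have h2 : (F₀ i).map iA = ∏ x ∈ (S i).attach, (X - C (⟨x.1, hUB _ (hU i x.1 x.2)⟩ : B)) := by
      apply map_injective (algebraMap B K) Subtype.val_injective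
      rw [Polynomial.map_map, Polynomial.map_prod]
      have e1 : (algebraMap B K).comp iA = algebraMap A K := rfl
      rw [e1, hF, ← Finset.prod_attach (S i) fun x => (X - C x : K[X])]
      refine Finset.prod_congr rfl fun x _ => ?_
      rw [Polynomial.map_sub, Polynomial.map_X, Polynomial.map_C]
      rfl
    have h3 : ((F₀ i).map iA).map j₀ = ∏ x ∈ S i, (X - C (j x)) := by
      rw [h2, Polynomial.map_prod, ← Finset.prod_attach (S i) fun x => (X - C (j x) : L[X])]
      refine Finset.prod_congr rfl fun x _ => ?_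
      rw [Polynomial.map_sub, Polynomial.map_X, Polynomial.map_C, hj x.1 (hUB _ (hU i x.1 x.2))]
    rw [h3]
    exact h1
  let M0 : Ideal A := Q.comap iA
  have hM0 : M0.IsPrime := Ideal.comap_isPrime iA Q
  have hpM0 : (p : A) ∈ M0 := by
    change iA (p : A) ∈ Q
    rw [map_natCast]
    exact hpQ
  have hdM0 : ∀ i, (hw p (((S i).card - 1) / 2) (F₀ i)).det ∉ M0 := by
    intro i h0
    apply hLord i
    rw [← hw_det_map, ← hw_det_map, hj₀]
    exact h0
  have hcM0 : c ∉ M0 := hcQ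
  have hprod : c * ∏ i, (hw p (((S i).card - 1) / 2) (F₀ i)).det ∉ M0 := by
    intro hm
    rcases hM0.mem_or_mem hm with h1 | h1
    · exact hcM0 h1
    · obtain ⟨i, -, hi⟩ := (hM0.prod_mem_iff).1 h1
      exact hdM0 i hi
  have hjac : M0.jacobson = M0 := isJacobsonRing_iff_prime_eq.mp hJ M0 hM0
  rw [← hjac, Ideal.jacobson, Submodule.mem_sInf] at hprod
  push Not at hprod
  obtain ⟨M, ⟨hM0M, hM⟩, hMa⟩ := hprod
  refine ⟨p, M, hp, hp2, hM, hM0M hpM0, fun h1 => hMa (Ideal.mul_mem_right _ M h1), fun i => ?_⟩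
  rw [← hw_det_map]
  intro h1
  refine hMa (Ideal.mul_mem_left M _ ?_)
  exact Ideal.mem_of_dvd M (Finset.dvd_prod_of_mem
    (fun i => (hw p (((S i).card - 1) / 2) (F₀ i)).det) (Finset.mem_univ i))
    (Ideal.Quotient.eq_zero_iff_mem.1 h1)

end Pool.Agent.R410.OR
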