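import Pool.Agent.R410.OR.HW

/-!
# Ordinary reduction over a valued field of characteristic `p`
-/

set_option autoImplicit false
set_option linter.all false

open Polynomial

namespace Pool.Agent.R410.OR

/-- the residue of `t` (zero outside the valuation ring) -/
noncomputable def red {K : Type*} [Field K] (O : ValuationSubring K) (t : K) :
    IsLocalRing.ResidueField O :=
  open Classical in if h : t ∈ O then IsLocalRing.residue O ⟨t, h⟩ else 0

theorem red_of {K : Type*} [Field K] (O : ValuationSubring K) {t : K} (h : t ∈ O) :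
    red O t = IsLocalRing.residue O ⟨t, h⟩ := dif_pos h

/-- the elements of `S` in the smallest disc which contains `a` and `b` -/
noncomputable def inn {K : Type*} [Field K] (O : ValuationSubring K) (a b : K) (S : Finset K) :
    Finset K :=
  open Classical in S.filter fun r => (r - a) / (b - a) ∈ O

/-- the number of elements of `S` in the disc which reduce to `x` -/
noncomputable def mult {K : Type*} [Field K] (O : ValuationSubring K) (a b : K) (S : Finset K)
    (x : IsLocalRing.ResidueField O) : ℕ :=
  open Classical in ((inn O a b S).filter fun r => red O ((r - a) / (b - a)) = x).card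

/-- the branch points (in the affine line) of the component of the reduction given by the smallest
disc which contains `a` and `b` -/
noncomputable def comp {K : Type*} [Field K] (O : ValuationSubring K) (a b : K) (S : Finset K) :
    Finset (IsLocalRing.ResidueField O) :=
  open Classical in
  ((inn O a b S).image fun r => red O ((r - a) / (b - a))).filter fun x => Odd (mult O a b S x)

section arith
variable {Γ : Type*} [LinearOrderedCommGroupWithZero Γ]

theorem ar_child {A B x y M N : Γ} {l e : ℕ} (hx : 0 < x) (hxy : x < y) (hB : 0 < B) (hN : 0 < N)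
    (he : 1 ≤ e) (h1 : M * y ^ (2 * l + 2 + e) = x ^ (2 * l + 2 + e) * N)
    (h2 : A * x ^ (2 * l + 2) * N ≤ B * M) : A * y ^ (2 * l + 2) < B := by
  have hy : 0 < y := hx.trans hxy
  have h3 : A * x ^ (2 * l + 2) * N * y ^ (2 * l + 2 + e) ≤ B * (x ^ (2 * l + 2 + e) * N) := by
    calc A * x ^ (2 * l + 2) * N * y ^ (2 * l + 2 + e) ≤ B * M * y ^ (2 * l + 2 + e) :=
          mul_le_mul_left h2 _
      _ = B * (x ^ (2 * l + 2 + e) * N) := by rw [mul_assoc, h1]
  have h4 : (A * y ^ (2 * l + 2) * y ^ e) * (x ^ (2 * l + 2) * N) ≤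
      (B * x ^ e) * (x ^ (2 * l + 2) * N) := by
    calc (A * y ^ (2 * l + 2) * y ^ e) * (x ^ (2 * l + 2) * N) =
        A * x ^ (2 * l + 2) * N * y ^ (2 * l + 2 + e) := by
          rw [pow_add y (2 * l + 2) e]
          generalize y ^ (2 * l + 2) = Y
          generalize x ^ (2 * l + 2) = Z
          ac_rfl
      _ ≤ B * (x ^ (2 * l + 2 + e) * N) := h3
      _ = (B * x ^ e) * (x ^ (2 * l + 2) * N) := by
          rw [pow_add x (2 * l + 2) e]
          generalize x ^ (2 * l + 2) = Z
          ac_rfl
  have h5 : A * y ^ (2 * l + 2) * y ^ e ≤ B * x ^ e :=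
    le_of_mul_le_mul_right h4 (mul_pos (pow_pos hx _) hN)
  have h6 : B * x ^ e < B * y ^ e :=
    mul_lt_mul_of_pos_left (pow_lt_pow_left₀ hxy hx.le (by omega)) hB
  exact lt_of_mul_lt_mul_right (h5.trans_lt h6) (pow_pos hy _).le

theorem ar_parent {A B x y M N : Γ} {l n e : ℕ} (hy : 0 < y) (hxy : y < x) (hB : 0 < B) (hN : 0 < N)
    (he : 1 ≤ e) (hl : 2 * l + 2 = n + e) (h1 : M * y ^ n = x ^ n * N)
    (h2 : A * x ^ (2 * l + 2) * N ≤ B * M) : A * y ^ (2 * l + 2) < B := by
  have hx : 0 < x := hy.trans hxy
  by_cases hA : A = 0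
  · rw [hA, zero_mul]; exact hB
  have hA' : 0 < A := zero_lt_iff.2 hA
  rw [hl] at h2 ⊢
  have h4 : (A * x ^ e * y ^ n) * (x ^ n * N) ≤ B * (x ^ n * N) := by
    calc (A * x ^ e * y ^ n) * (x ^ n * N) = A * x ^ (n + e) * N * y ^ n := by
          rw [pow_add x n e]; ac_rfl
      _ ≤ B * M * y ^ n := mul_le_mul_left h2 _
      _ = B * (x ^ n * N) := by rw [mul_assoc, h1]
  have h5 : A * x ^ e * y ^ n ≤ B := le_of_mul_le_mul_right h4 (mul_pos (pow_pos hx _) hN)
  refine lt_of_lt_of_le ?_ h5
  rw [pow_add y n e, mul_comm (y ^ n), ← mul_assoc]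
  exact mul_lt_mul_of_pos_right (mul_lt_mul_of_pos_left (pow_lt_pow_left₀ hxy hy.le (by omega)) hA')
    (pow_pos hy _)

end arith

section
variable {F : Type*} [Field F]

theorem iter_comp (c d : F) (G : F[X]) (n : ℕ) :
    derivative^[n] (G.comp (C c * X + C d)) = C (c ^ n) * (derivative^[n] G).comp (C c * X + C d) := by
  induction n generalizing G with
  | zero => simp
  | succ n ih =>
    rw [Function.iterate_succ_apply, Function.iterate_succ_apply, derivative_comp]
    have h1 : derivative (C c * X + C d : F[X]) = C c := by simp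
    rw [h1, iterate_derivative_C_mul, ih, pow_succ, C_mul, ← mul_assoc, mul_comm (C c)]

/-- reduction of a prime characteristic valuation ring -/
theorem residue_charP {p : ℕ} [Fact p.Prime] [CharP F p] (W : ValuationSubring F) :
    CharP (IsLocalRing.ResidueField W) p := by
  have hp := (Fact.out : p.Prime)
  have h1 : ((p : ℕ) : W) = 0 := by
    apply Subtype.ext
    push_cast
    exact CharP.cast_eq_zero F p
  have h0 : ((p : ℕ) : IsLocalRing.ResidueField W) = 0 := by
    rw [← map_natCast (IsLocalRing.residue W), h1, map_zero]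
  obtain ⟨q, hq⟩ := CharP.exists (IsLocalRing.ResidueField W)
  have h2 : q ∣ p := (CharP.cast_eq_zero_iff (IsLocalRing.ResidueField W) q p).1 h0
  rcases (Nat.dvd_prime hp).1 h2 with h3 | h3
  · subst h3
    exact absurd (CharP.char_ne_one (IsLocalRing.ResidueField W) 1 rfl) (by simp)
  · rwa [← h3]

end

end Pool.Agent.R410.OR
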