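import Pool.Agent.R410.OR.Val

/-!
# Ordinary reduction over a valued field of characteristic `p`: clusters
-/

set_option autoImplicit false
set_option linter.all false

open Polynomial

namespace Pool.Agent.R410.OR

section
variable {F : Type*} [Field F] (W : ValuationSubring F)

theorem red_eq_iff {t s : F} (ht : t ∈ W) (hs : s ∈ W) :
    red W t = red W s ↔ W.valuation (t - s) < 1 := by
  rw [red_of W ht, red_of W hs, ← sub_eq_zero, ← map_sub, IsLocalRing.residue_eq_zero_iff,
    ValuationSubring.valuation_lt_one_iff]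
  rfl

theorem val_ne {t s : F} (ht : t ∈ W) (hs : s ∈ W) (h : red W t ≠ red W s) :
    W.valuation (t - s) = 1 := by
  have h1 : W.valuation (t - s) ≤ 1 := (W.valuation_le_one_iff _).2 (sub_mem ht hs)
  exact le_antisymm h1 (not_lt.1 fun h2 => h ((red_eq_iff W ht hs).2 h2))

theorem val_out {t s : F} (ht : t ∉ W) (hs : s ∈ W) :
    W.valuation (t - s) = W.valuation t := by
  apply Valuation.map_sub_eq_of_lt_left
  refine lt_of_le_of_lt ((W.valuation_le_one_iff _).2 hs) ?_
  exact not_le.1 fun h => ht ((W.valuation_le_one_iff _).1 h)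

theorem val_div {r z u : F} (hu : u ≠ 0) :
    W.valuation (r - z) = W.valuation ((r - z) / u) * W.valuation u := by
  rw [← map_mul, div_mul_cancel₀ _ hu]

theorem prod_pow_card {Γ : Type*} [CommMonoid Γ] (S : Finset F) (c : F → Prop) [DecidablePred c]
    (y : Γ) : ∏ r ∈ S, (if c r then y else 1) = y ^ (S.filter c).card := by
  rw [← Finset.prod_filter, Finset.prod_const]

theorem child_N (S : Finset F) {a b z z' : F} (hab : a ≠ b) (hz : z ∈ inn W a b S)
    (hz' : z' ∈ inn W a b S) (hzz : z ≠ z')
    (hred : red W ((z' - a) / (b - a)) = red W ((z - a) / (b - a)))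
    (hmax : ∀ r ∈ inn W a b S, red W ((r - a) / (b - a)) = red W ((z - a) / (b - a)) →
      W.valuation (r - z) ≤ W.valuation (z' - z)) :
    W.valuation (z' - z) < W.valuation (b - a) ∧
    (∏ r ∈ S, max (W.valuation (r - z)) (W.valuation (z' - z))) *
      W.valuation (b - a) ^ (mult W a b S (red W ((z - a) / (b - a)))) =
    W.valuation (z' - z) ^ (mult W a b S (red W ((z - a) / (b - a)))) *
      ∏ r ∈ S, max (W.valuation (r - a)) (W.valuation (b - a)) := by
  classical
  have hu : b - a ≠ 0 := sub_ne_zero.2 hab.symm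
  have hv0 : 0 < W.valuation (b - a) := zero_lt_iff.2 ((Valuation.ne_zero_iff _).2 hu)
  unfold inn at hz hz' hmax
  rw [Finset.mem_filter] at hz hz'
  have hsub : ∀ r z : F, (r - z) / (b - a) = (r - a) / (b - a) - (z - a) / (b - a) := by
    intro r z
    rw [← sub_div]
    congr 1
    ring
  have hlt : W.valuation (z' - z) < W.valuation (b - a) := by
    rw [val_div W hu, hsub]
    have := (red_eq_iff W hz'.2 hz.2).1 hred
    calc W.valuation ((z' - a) / (b - a) - (z - a) / (b - a)) * W.valuation (b - a) <
        1 * W.valuation (b - a) := mul_lt_mul_of_pos_right this hv0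
      _ = _ := one_mul _
  refine ⟨hlt, ?_⟩
  have hmult : mult W a b S (red W ((z - a) / (b - a))) =
      (S.filter fun r => (r - a) / (b - a) ∈ W ∧
        red W ((r - a) / (b - a)) = red W ((z - a) / (b - a))).card := by
    unfold mult inn
    rw [Finset.filter_filter]
  rw [hmult, ← prod_pow_card S (fun r => (r - a) / (b - a) ∈ W ∧
        red W ((r - a) / (b - a)) = red W ((z - a) / (b - a))) (W.valuation (b - a)),
    ← prod_pow_card S (fun r => (r - a) / (b - a) ∈ W ∧
        red W ((r - a) / (b - a)) = red W ((z - a) / (b - a))) (W.valuation (z' - z)),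
    ← Finset.prod_mul_distrib, ← Finset.prod_mul_distrib]
  refine Finset.prod_congr rfl fun r hr => ?_
  by_cases hc : (r - a) / (b - a) ∈ W ∧ red W ((r - a) / (b - a)) = red W ((z - a) / (b - a))
  · rw [if_pos hc, if_pos hc]
    have h1 : W.valuation (r - z) ≤ W.valuation (z' - z) :=
      hmax r (Finset.mem_filter.2 ⟨hr, hc.1⟩) hc.2
    have h2 : W.valuation (r - a) ≤ W.valuation (b - a) := by
      rw [val_div W hu]
      calc W.valuation ((r - a) / (b - a)) * W.valuation (b - a) ≤ 1 * W.valuation (b - a) :=
          mul_le_mul_left ((W.valuation_le_one_iff _).2 hc.1) _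
        _ = _ := one_mul _
    rw [max_eq_right h1, max_eq_right h2]
  · rw [if_neg hc, if_neg hc, mul_one, one_mul]
    by_cases hin : (r - a) / (b - a) ∈ W
    · have hne : red W ((r - a) / (b - a)) ≠ red W ((z - a) / (b - a)) := fun h => hc ⟨hin, h⟩
      have h1 : W.valuation (r - z) = W.valuation (b - a) := by
        rw [val_div W hu, hsub, val_ne W hin hz.2 hne, one_mul]
      have h2 : W.valuation (r - a) ≤ W.valuation (b - a) := by
        rw [val_div W hu]
        calc W.valuation ((r - a) / (b - a)) * W.valuation (b - a) ≤ 1 * W.valuation (b - a) :=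
            mul_le_mul_left ((W.valuation_le_one_iff _).2 hin) _
          _ = _ := one_mul _
      rw [h1, max_eq_left hlt.le, max_eq_right h2]
    · have h1 : W.valuation (r - z) = W.valuation (r - a) := by
        rw [val_div W hu, hsub, val_out W hin hz.2, ← val_div W hu]
      have h2 : W.valuation (b - a) < W.valuation (r - a) := by
        rw [val_div W hu (r := r) (z := a)]
        calc W.valuation (b - a) = 1 * W.valuation (b - a) := (one_mul _).symm
          _ < _ := mul_lt_mul_of_pos_right
            (not_le.1 fun h => hin ((W.valuation_le_one_iff _).1 h)) hv0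
      rw [h1, max_eq_left (hlt.trans h2).le, max_eq_left h2.le]

theorem parent_N (S : Finset F) {a b r₀ : F} (hab : a ≠ b) (h₀ : r₀ ∈ S)
    (hout : (r₀ - a) / (b - a) ∉ W)
    (hmin : ∀ r ∈ S, (r - a) / (b - a) ∉ W → W.valuation (r₀ - a) ≤ W.valuation (r - a)) :
    W.valuation (b - a) < W.valuation (r₀ - a) ∧
    (∏ r ∈ S, max (W.valuation (r - a)) (W.valuation (r₀ - a))) *
      W.valuation (b - a) ^ (inn W a b S).card =
    W.valuation (r₀ - a) ^ (inn W a b S).card *
      ∏ r ∈ S, max (W.valuation (r - a)) (W.valuation (b - a)) := by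
  classical
  have hu : b - a ≠ 0 := sub_ne_zero.2 hab.symm
  have hv0 : 0 < W.valuation (b - a) := zero_lt_iff.2 ((Valuation.ne_zero_iff _).2 hu)
  have hbig : ∀ r : F, (r - a) / (b - a) ∉ W → W.valuation (b - a) < W.valuation (r - a) := by
    intro r hr
    rw [val_div W hu (r := r) (z := a)]
    calc W.valuation (b - a) = 1 * W.valuation (b - a) := (one_mul _).symm
      _ < _ := mul_lt_mul_of_pos_right
        (not_le.1 fun h => hr ((W.valuation_le_one_iff _).1 h)) hv0
  have hlt := hbig r₀ hout
  refine ⟨hlt, ?_⟩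
  have hinn : inn W a b S = S.filter fun r => (r - a) / (b - a) ∈ W := rfl
  rw [hinn, ← prod_pow_card S (fun r => (r - a) / (b - a) ∈ W) (W.valuation (b - a)),
    ← prod_pow_card S (fun r => (r - a) / (b - a) ∈ W) (W.valuation (r₀ - a)),
    ← Finset.prod_mul_distrib, ← Finset.prod_mul_distrib]
  refine Finset.prod_congr rfl fun r hr => ?_
  by_cases hc : (r - a) / (b - a) ∈ W
  · rw [if_pos hc, if_pos hc]
    have h2 : W.valuation (r - a) ≤ W.valuation (b - a) := by
      rw [val_div W hu]
      calc W.valuation ((r - a) / (b - a)) * W.valuation (b - a) ≤ 1 * W.valuation (b - a) :=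
          mul_le_mul_left ((W.valuation_le_one_iff _).2 hc) _
        _ = _ := one_mul _
    rw [max_eq_right (h2.trans hlt.le), max_eq_right h2]
  · rw [if_neg hc, if_neg hc, mul_one, one_mul, max_eq_left (hmin r hr hc),
      max_eq_left (hbig r hc).le]

end

end Pool.Agent.R410.OR
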