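import Pool.Agent.R410.OR.Val2

/-!
# Ordinary reduction over a valued field of characteristic `p`: the theorem
-/

set_option autoImplicit false
set_option linter.all false

open Polynomial

namespace Pool.Agent.R410.OR

section
variable {F : Type*} [Field F] (W : ValuationSubring F)

theorem N_ne (S : Finset F) {a b : F} (hab : a ≠ b) :
    ∏ r ∈ S, max (W.valuation (r - a)) (W.valuation (b - a)) ≠ 0 := by
  rw [Finset.prod_ne_zero_iff]
  intro r _
  have h1 : 0 < W.valuation (b - a) :=
    zero_lt_iff.2 ((Valuation.ne_zero_iff _).2 (sub_ne_zero.2 hab.symm))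
  exact (lt_of_lt_of_le h1 (le_max_right _ _)).ne'

theorem sq_le {q pk u : F} (hpk : pk ≠ 0) (hu : u ≠ 0) {l k : ℕ}
    (h : W.valuation q ^ 2 * W.valuation u ^ (2 * l + 2) ≤
      W.valuation pk ^ 2 * W.valuation u ^ (2 * k + 2)) :
    W.valuation ((pk * u ^ k)⁻¹ * (q * u ^ l)) ≤ 1 := by
  have hv0 : 0 < W.valuation u := zero_lt_iff.2 ((Valuation.ne_zero_iff _).2 hu)
  have hc : 0 < W.valuation (pk * u ^ k) :=
    zero_lt_iff.2 ((Valuation.ne_zero_iff _).2 (mul_ne_zero hpk (pow_ne_zero _ hu)))
  have h1 : (W.valuation (q * u ^ l)) ^ 2 * W.valuation u ^ 2 ≤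
      (W.valuation (pk * u ^ k)) ^ 2 * W.valuation u ^ 2 := by
    rw [map_mul, map_mul, map_pow, map_pow, mul_pow, mul_pow, ← pow_mul, ← pow_mul, mul_assoc,
      mul_assoc, ← pow_add, ← pow_add, mul_comm l, mul_comm k]
    exact h
  have h2 := le_of_mul_le_mul_right h1 (pow_pos hv0 2)
  have h3 : W.valuation (q * u ^ l) ≤ W.valuation (pk * u ^ k) :=
    (pow_le_pow_iff_left₀ zero_le' zero_le' two_ne_zero).1 h2
  rw [map_mul, map_inv₀]
  exact (inv_mul_le_iff₀ hc).2 (by rwa [mul_one])

theorem sq_lt {q pk u : F} (hpk : pk ≠ 0) (hu : u ≠ 0) {l k : ℕ}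
    (h : W.valuation q ^ 2 * W.valuation u ^ (2 * l + 2) <
      W.valuation pk ^ 2 * W.valuation u ^ (2 * k + 2)) :
    W.valuation ((pk * u ^ k)⁻¹ * (q * u ^ l)) < 1 := by
  have hv0 : 0 < W.valuation u := zero_lt_iff.2 ((Valuation.ne_zero_iff _).2 hu)
  have hc : 0 < W.valuation (pk * u ^ k) :=
    zero_lt_iff.2 ((Valuation.ne_zero_iff _).2 (mul_ne_zero hpk (pow_ne_zero _ hu)))
  have h1 : (W.valuation (q * u ^ l)) ^ 2 * W.valuation u ^ 2 <
      (W.valuation (pk * u ^ k)) ^ 2 * W.valuation u ^ 2 := by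
    rw [map_mul, map_mul, map_pow, map_pow, mul_pow, mul_pow, ← pow_mul, ← pow_mul, mul_assoc,
      mul_assoc, ← pow_add, ← pow_add, mul_comm l, mul_comm k]
    exact h
  have h2 := lt_of_mul_lt_mul_right h1 (pow_pos hv0 2).le
  have h3 : W.valuation (q * u ^ l) < W.valuation (pk * u ^ k) :=
    (pow_lt_pow_iff_left₀ zero_le' zero_le' two_ne_zero).1 h2
  rw [map_mul, map_inv₀]
  exact (inv_mul_lt_iff₀ hc).2 (by rwa [mul_one])

/-- the polynomial `P (a + u X)` -/
theorem comp_lin (P : F[X]) (a u : F) : (taylor a P).comp (C u * X) = P.comp (C u * X + C a) := by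
  rw [taylor_apply, comp_assoc]
  congr 1
  simp

theorem taylor_lin (P : F[X]) (a u c t z : F) (h : u * t + a = z) :
    taylor t (C c * (taylor a P).comp (C u * X)) = C c * (taylor z P).comp (C u * X) := by
  rw [comp_lin, comp_lin, taylor_apply, mul_comp, C_comp, comp_assoc]
  congr 2
  simp only [add_comp, mul_comp, C_comp, X_comp]
  rw [← h, mul_add, C_add, C_mul, add_assoc]

theorem taylor_map' {R S : Type*} [CommRing R] [CommRing S] (φ : R →+* S) (P : R[X]) (a : R) :
    (taylor a P).map φ = taylor (φ a) (P.map φ) := by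
  rw [taylor_apply, taylor_apply, Polynomial.map_comp]
  simp

open Classical in
/-- **Semistable reduction of hyperelliptic curves and the Hasse-Witt matrix.** If the components
of the reduction are ordinary, then the curve is ordinary. -/
theorem valued {p : ℕ} [Fact p.Prime] [CharP F p] (hp2 : p ≠ 2) (S : Finset F)
    (h : ∀ a ∈ S, ∀ b ∈ S, a ≠ b → (hw p (((comp W a b S).card - 1) / 2)
      (∏ x ∈ comp W a b S, (X - C x))).det ≠ 0) :
    (hw p ((S.card - 1) / 2) (∏ a ∈ S, (X - C a))).det ≠ 0 := by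
  have hp := (Fact.out : p.Prime)
  have hodd : p % 2 = 1 := (hp.eq_two_or_odd).resolve_left hp2
  have hκ := residue_charP (p := p) W
  set g := (S.card - 1) / 2 with hg
  set f : F[X] := ∏ a ∈ S, (X - C a) with hf
  have hfdeg : f.natDegree = S.card := by
    rw [hf, natDegree_prod_of_monic _ _ fun x _ => monic_X_sub_C x]
    simp
  apply hw_of_ker (by omega) hp2
  intro P hP hder
  by_contra hP0
  have hPg : P.natDegree < g := by
    rw [degree_eq_natDegree hP0] at hP
    exact_mod_cast hP
  have hScard : 3 ≤ S.card := by omega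
  have hcz : ∀ (z : F) (l : ℕ), g ≤ l → (taylor z P).coeff l = 0 := by
    intro z l hl
    apply coeff_eq_zero_of_natDegree_lt
    rw [natDegree_taylor]
    omega
  -- the maximal triple
  obtain ⟨a₀, b₀, ha₀, hb₀, hab₀⟩ : ∃ a b, a ∈ S ∧ b ∈ S ∧ a ≠ b := by
    obtain ⟨a, ha, b, hb, hab⟩ := Finset.one_lt_card.1 (by omega : 1 < S.card)
    exact ⟨a, b, ha, hb, hab⟩
  let T : Finset ((F × F) × ℕ) := ((S ×ˢ S).filter fun e => e.1 ≠ e.2) ×ˢ Finset.range g
  let Ψ : (F × F) × ℕ → W.ValueGroup := fun e =>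
    W.valuation ((taylor e.1.1 P).coeff e.2) ^ 2 * W.valuation (e.1.2 - e.1.1) ^ (2 * e.2 + 2) /
      ∏ r ∈ S, max (W.valuation (r - e.1.1)) (W.valuation (e.1.2 - e.1.1))
  have hmemT : ∀ a b l, a ∈ S → b ∈ S → a ≠ b → l < g → ((a, b), l) ∈ T := by
    intro a b l ha hb hab hl
    exact Finset.mem_product.2 ⟨Finset.mem_filter.2 ⟨Finset.mem_product.2 ⟨ha, hb⟩, hab⟩,
      Finset.mem_range.2 hl⟩
  obtain ⟨⟨⟨a, b⟩, k⟩, hmem, hmax⟩ := T.exists_max_image Ψ
    ⟨((a₀, b₀), 0), hmemT a₀ b₀ 0 ha₀ hb₀ hab₀ (by omega)⟩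
  have hmem' := Finset.mem_product.1 hmem
  have hk : k < g := Finset.mem_range.1 hmem'.2
  have hab : a ≠ b := (Finset.mem_filter.1 hmem'.1).2
  have haS : a ∈ S := (Finset.mem_product.1 (Finset.mem_filter.1 hmem'.1).1).1
  have hbS : b ∈ S := (Finset.mem_product.1 (Finset.mem_filter.1 hmem'.1).1).2
  set u : F := b - a with hu'
  have hu : u ≠ 0 := sub_ne_zero.2 hab.symm
  have hvu : 0 < W.valuation u := zero_lt_iff.2 ((Valuation.ne_zero_iff _).2 hu)
  set N : W.ValueGroup := ∏ r ∈ S, max (W.valuation (r - a)) (W.valuation u) with hN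
  have hN0 : 0 < N := zero_lt_iff.2 (N_ne W S hab)
  set B : W.ValueGroup := W.valuation ((taylor a P).coeff k) ^ 2 * W.valuation u ^ (2 * k + 2) with hB
  have hineq : ∀ z z' l, z ∈ S → z' ∈ S → z ≠ z' → l < g →
      W.valuation ((taylor z P).coeff l) ^ 2 * W.valuation (z' - z) ^ (2 * l + 2) * N ≤
        B * ∏ r ∈ S, max (W.valuation (r - z)) (W.valuation (z' - z)) := by
    intro z z' l hz hz' hzz hl
    have h1 := hmax _ (hmemT z z' l hz hz' hzz hl)
    change W.valuation ((taylor z P).coeff l) ^ 2 * W.valuation (z' - z) ^ (2 * l + 2) /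
      ∏ r ∈ S, max (W.valuation (r - z)) (W.valuation (z' - z)) ≤ B / N at h1
    exact (div_le_div_iff₀ (zero_lt_iff.2 (N_ne W S hzz)) hN0).1 h1
  have hB0 : 0 < B := by
    rw [zero_lt_iff]
    intro hB0
    have h1 := hineq a b P.natDegree haS hbS hab hPg
    rw [hB0, zero_mul, le_zero_iff] at h1
    have h2 : (taylor a P).coeff P.natDegree ≠ 0 := by
      rw [← natDegree_taylor P a, coeff_natDegree, leadingCoeff_ne_zero]
      intro h0
      apply hP0
      have := natDegree_taylor P a
      exact taylor_injective a (by rw [h0, map_zero])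
    exact (mul_ne_zero (mul_ne_zero (pow_ne_zero _ ((Valuation.ne_zero_iff _).2 h2))
      (pow_ne_zero _ hvu.ne')) hN0.ne') h1
  set pk : F := (taylor a P).coeff k with hpk'
  have hpk : pk ≠ 0 := by
    intro h0
    rw [hB, h0, map_zero, zero_pow two_ne_zero, zero_mul] at hB0
    exact lt_irrefl _ hB0
  set c₀ : F := (pk * u ^ k)⁻¹ with hc₀
  have hc₀0 : c₀ ≠ 0 := inv_ne_zero (mul_ne_zero hpk (pow_ne_zero _ hu))
  set P₁ : F[X] := C c₀ * (taylor a P).comp (C u * X) with hP₁
  have hcoef : ∀ z l, (C c₀ * (taylor z P).comp (C u * X)).coeff l =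
      c₀ * ((taylor z P).coeff l * u ^ l) := by
    intro z l
    rw [coeff_C_mul, comp_C_mul_X_coeff]
  have hP₁W : ∀ l, P₁.coeff l ∈ W := by
    intro l
    rw [hP₁, hcoef]
    by_cases hl : l < g
    · rw [← W.valuation_le_one_iff]
      apply sq_le W hpk hu
      exact le_of_mul_le_mul_right (hineq a b l haS hbS hab hl) hN0
    · rw [hcz a l (not_lt.1 hl), zero_mul, mul_zero]
      exact zero_mem W
  obtain ⟨PW, hPW⟩ : ∃ PW : W[X], PW.map (algebraMap W F) = P₁ := by
    rw [← mem_lifts, lifts_iff_coeff_lifts]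
    intro l
    exact ⟨⟨P₁.coeff l, hP₁W l⟩, rfl⟩
  have hPWc : ∀ l, ((PW.coeff l : W) : F) = P₁.coeff l := by
    intro l
    rw [← hPW, coeff_map]
    rfl
  -- the polynomial `f`
  let t : F → F := fun r => (r - a) / u
  let tW : F → W := fun r => if h : t r ∈ W then ⟨t r, h⟩ else 0
  let sW : F → W := fun r => if h : (t r)⁻¹ ∈ W then ⟨(t r)⁻¹, h⟩ else 0
  let G : F → W[X] := fun r => if t r ∈ W then X - C (tW r) else 1 - C (sW r) * X
  let κ : F → F := fun r => if t r ∈ W then u else -(u * t r)
  have hutr : ∀ r, u * t r + a = r := by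
    intro r
    have : u * ((r - a) / u) = r - a := mul_div_cancel₀ _ hu
    rw [show u * t r = r - a from this]
    ring
  have hκG : ∀ r, (C u * X + C a - C r : F[X]) = C (κ r) * (G r).map (algebraMap W F) := by
    intro r
    by_cases hr : t r ∈ W
    · have e1 : κ r = u := if_pos hr
      have e2 : G r = X - C (tW r) := if_pos hr
      have e3 : algebraMap W F (tW r) = t r := by
        have : tW r = ⟨t r, hr⟩ := dif_pos hr
        rw [this]
        rfl
      have e5 : (C r : F[X]) = C u * C (t r) + C a := by rw [← C_mul, ← C_add, hutr]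
      rw [e1, e2, Polynomial.map_sub, Polynomial.map_X, Polynomial.map_C, e3, e5]
      ring
    · have e1 : κ r = -(u * t r) := if_neg hr
      have e2 : G r = 1 - C (sW r) * X := if_neg hr
      have ht0 : t r ≠ 0 := fun h0 => hr (by rw [h0]; exact zero_mem W)
      have hi : (t r)⁻¹ ∈ W := (W.mem_or_inv_mem (t r)).resolve_left hr
      have e3 : algebraMap W F (sW r) = (t r)⁻¹ := by
        have : sW r = ⟨(t r)⁻¹, hi⟩ := dif_pos hi
        rw [this]
        rfl
      have e4 : C (-(u * t r)) * (C ((t r)⁻¹) * X : F[X]) = -(C u * X) := by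
        rw [← mul_assoc, ← C_mul]
        have : -(u * t r) * (t r)⁻¹ = -u := by
          rw [neg_mul, mul_assoc, mul_inv_cancel₀ ht0, mul_one]
        rw [this, C_neg, neg_mul]
      have e5 : (C r : F[X]) = C (u * t r) + C a := by rw [← C_add, hutr]
      rw [e1, e2, Polynomial.map_sub, Polynomial.map_one, Polynomial.map_mul, Polynomial.map_C,
        Polynomial.map_X, e3, mul_sub, mul_one, e4, e5, C_neg]
      ring
  set fW : W[X] := ∏ r ∈ S, G r with hfW
  set κ₀ : F := ∏ r ∈ S, κ r with hκ₀
  have hκ₀0 : κ₀ ≠ 0 := by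
    rw [hκ₀, Finset.prod_ne_zero_iff]
    intro r _
    by_cases hr : t r ∈ W
    · have e1 : κ r = u := if_pos hr
      rw [e1]; exact hu
    · have e1 : κ r = -(u * t r) := if_neg hr
      have ht0 : t r ≠ 0 := fun h0 => hr (by rw [h0]; exact zero_mem W)
      rw [e1]; exact neg_ne_zero.2 (mul_ne_zero hu ht0)
  have hfcomp : f.comp (C u * X + C a) = C κ₀ * fW.map (algebraMap W F) := by
    rw [hf, prod_comp, hfW, Polynomial.map_prod, hκ₀, map_prod, ← Finset.prod_mul_distrib]
    refine Finset.prod_congr rfl fun r _ => ?_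
    rw [← hκG r]
    simp
  set m := (p - 1) / 2 with hm
  have hderW : derivative^[p - 1] (PW * fW ^ m) = 0 := by
    have h1 := iter_comp u a (P * f ^ m) (p - 1)
    rw [hder, zero_comp, mul_zero, mul_comp, pow_comp, hfcomp] at h1
    have h2 : P.comp (C u * X + C a) = C (pk * u ^ k) * PW.map (algebraMap W F) := by
      rw [hPW, hP₁, ← mul_assoc, ← C_mul, hc₀, mul_inv_cancel₀ (mul_ne_zero hpk (pow_ne_zero _ hu)),
        C_1, one_mul, comp_lin]
    rw [h2] at h1
    have h3 : C (pk * u ^ k) * PW.map (algebraMap W F) * (C κ₀ * fW.map (algebraMap W F)) ^ m =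
        C (pk * u ^ k * κ₀ ^ m) * (PW * fW ^ m).map (algebraMap W F) := by
      have h4 : (C (pk * u ^ k * κ₀ ^ m) : F[X]) = C (pk * u ^ k) * C κ₀ ^ m := by
        rw [C_mul (a := pk * u ^ k), C_pow]
      rw [Polynomial.map_mul, Polynomial.map_pow, mul_pow, h4]
      ring
    rw [h3, iterate_derivative_C_mul, mul_eq_zero, or_iff_right
      (C_ne_zero.2 (mul_ne_zero (mul_ne_zero hpk (pow_ne_zero _ hu)) (pow_ne_zero _ hκ₀0))),
      iterate_derivative_map] at h1
    exact Polynomial.map_injective _ (IsFractionRing.injective W F) (by rw [h1, Polynomial.map_zero])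
  -- the residue field
  let res := IsLocalRing.residue W
  have hfres : fW.map res = ∏ x ∈ (inn W a b S).image (fun r => red W ((r - a) / (b - a))),
      (X - C x) ^ mult W a b S x := by
    unfold mult
    rw [← Finset.prod_comp (fun x => (X - C x : (IsLocalRing.ResidueField W)[X]))
      (fun r => red W ((r - a) / (b - a)))]
    unfold inn
    rw [Finset.prod_filter, hfW, Polynomial.map_prod]
    refine Finset.prod_congr rfl fun r _ => ?_
    by_cases hr : t r ∈ W
    · have e2 : G r = X - C (tW r) := if_pos hr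
      have e3 : res (tW r) = red W ((r - a) / (b - a)) := by
        have : tW r = ⟨t r, hr⟩ := dif_pos hr
        rw [this, red_of W hr]
      rw [e2, Polynomial.map_sub, Polynomial.map_X, Polynomial.map_C, e3]
      exact (if_pos hr).symm
    · have e2 : G r = 1 - C (sW r) * X := if_neg hr
      have ht0 : t r ≠ 0 := fun h0 => hr (by rw [h0]; exact zero_mem W)
      have hi : (t r)⁻¹ ∈ W := (W.mem_or_inv_mem (t r)).resolve_left hr
      have e3 : res (sW r) = 0 := by
        have : sW r = ⟨(t r)⁻¹, hi⟩ := dif_pos hi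
        rw [this, IsLocalRing.residue_eq_zero_iff, ValuationSubring.valuation_lt_one_iff]
        change W.valuation (t r)⁻¹ < 1
        rw [map_inv₀]
        apply inv_lt_one_of_one_lt₀
        exact not_le.1 fun h => hr ((W.valuation_le_one_iff _).1 h)
      rw [e2, Polynomial.map_sub, Polynomial.map_one, Polynomial.map_mul, Polynomial.map_C, e3, C_0,
        zero_mul, sub_zero]
      exact (if_neg hr).symm
  have hfinal : PW.map res = 0 := by
    refine residue_lemma hp2 ((inn W a b S).image (fun r => red W ((r - a) / (b - a))))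
      (mult W a b S) ?_ _ ?_ ?_ ?_ ?_
    · intro x hx
      obtain ⟨z, hz, hzx⟩ := Finset.mem_image.1 hx
      exact Finset.card_pos.2 ⟨z, Finset.mem_filter.2 ⟨hz, hzx⟩⟩
    · intro x hx l hl
      obtain ⟨z, hz, hzx⟩ := Finset.mem_image.1 hx
      have hzS : z ∈ S := (Finset.mem_filter.1 hz).1
      have hzW : t z ∈ W := (Finset.mem_filter.1 hz).2
      have hx' : x = res ⟨t z, hzW⟩ := by rw [← hzx, red_of W hzW]
      rw [hx', ← taylor_map', coeff_map]
      change IsLocalRing.residue W _ = 0
      rw [IsLocalRing.residue_eq_zero_iff, ValuationSubring.valuation_lt_one_iff]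
      have e1 : (((taylor (⟨t z, hzW⟩ : W) PW).coeff l : W) : F) =
          c₀ * ((taylor z P).coeff l * u ^ l) := by
        rw [← hcoef z l, ← taylor_lin P a u c₀ (t z) z (hutr z), ← hP₁, ← hPW]
        have := taylor_map' (algebraMap W F) PW ⟨t z, hzW⟩
        rw [show (algebraMap W F) ⟨t z, hzW⟩ = t z from rfl] at this
        rw [← this, coeff_map]
        rfl
      rw [e1]
      by_cases hlg : l < g
      swap
      · rw [hcz z l (not_lt.1 hlg), zero_mul, mul_zero, map_zero]
        exact zero_lt_one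
      -- the largest distance in the child
      have hne : (((inn W a b S).filter fun r => red W ((r - a) / (b - a)) = x).erase z).Nonempty := by
        rw [← Finset.card_pos]
        have hzm : z ∈ (inn W a b S).filter fun r => red W ((r - a) / (b - a)) = x :=
          Finset.mem_filter.2 ⟨hz, hzx⟩
        rw [Finset.card_erase_of_mem hzm]
        have : mult W a b S x = ((inn W a b S).filter fun r => red W ((r - a) / (b - a)) = x).card :=
          rfl
        omega
      obtain ⟨z', hz'm, hz'max⟩ := Finset.exists_max_image _ (fun r => W.valuation (r - z)) hne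
      have hz'1 := Finset.mem_of_mem_erase hz'm
      have hzz : z ≠ z' := (Finset.ne_of_mem_erase hz'm).symm
      have hz'inn := (Finset.mem_filter.1 hz'1).1
      have hz'S : z' ∈ S := (Finset.mem_filter.1 hz'inn).1
      have hch := child_N W S hab hz hz'inn hzz
        (by rw [(Finset.mem_filter.1 hz'1).2, hzx]) (by
          intro r hr hrx
          by_cases hrz : r = z
          · rw [hrz, sub_self, map_zero]
            exact zero_le'
          · exact hz'max r (Finset.mem_erase.2 ⟨hrz, Finset.mem_filter.2 ⟨hr, by rw [hrx, hzx]⟩⟩))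
      rw [hzx] at hch
      obtain ⟨e, he⟩ : ∃ e, mult W a b S x = 2 * l + 2 + e := ⟨mult W a b S x - (2 * l + 2), by omega⟩
      rw [he] at hch
      apply sq_lt W hpk hu
      refine ar_child (e := e) (zero_lt_iff.2 ((Valuation.ne_zero_iff _).2 (sub_ne_zero.2 hzz.symm)))
        hch.1 hB0 hN0 (by omega) hch.2 (hineq z z' l hzS hz'S hzz hlg)
    · intro l hl
      have hsum : ∑ x ∈ (inn W a b S).image (fun r => red W ((r - a) / (b - a))), mult W a b S x =
        (inn W a b S).card := (Finset.card_eq_sum_card_image _ _).symm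
      rw [hsum] at hl
      rw [coeff_map]
      change IsLocalRing.residue W _ = 0
      rw [IsLocalRing.residue_eq_zero_iff, ValuationSubring.valuation_lt_one_iff, hPWc, hP₁, hcoef]
      by_cases hlg : l < g
      swap
      · rw [hcz a l (not_lt.1 hlg), zero_mul, mul_zero, map_zero]
        exact zero_lt_one
      have hne : (S.filter fun r => (r - a) / (b - a) ∉ W).Nonempty := by
        rw [← Finset.card_pos]
        have h1 := Finset.card_filter_add_card_filter_not (s := S) (fun r => (r - a) / (b - a) ∈ W)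
        have h2 : (inn W a b S).card = (S.filter fun r => (r - a) / (b - a) ∈ W).card := rfl
        omega
      obtain ⟨r₀, hr₀, hr₀min⟩ := Finset.exists_min_image _ (fun r => W.valuation (r - a)) hne
      have hr₀' := Finset.mem_filter.1 hr₀
      have hpa := parent_N W S hab hr₀'.1 hr₀'.2
        (fun r hr hrW => hr₀min r (Finset.mem_filter.2 ⟨hr, hrW⟩))
      have har₀ : a ≠ r₀ := by
        rintro rfl
        apply hr₀'.2
        rw [sub_self, zero_div]
        exact zero_mem W
      obtain ⟨e, he⟩ : ∃ e, 2 * l + 2 = (inn W a b S).card + e :=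
        ⟨2 * l + 2 - (inn W a b S).card, by omega⟩
      apply sq_lt W hpk hu
      exact ar_parent (e := e) hvu hpa.1 hB0 hN0 (by omega) he hpa.2
        (hineq a r₀ l haS hr₀'.1 har₀ hlg)
    · rw [← hfres, ← Polynomial.map_pow, ← Polynomial.map_mul, iterate_derivative_map, hderW,
        Polynomial.map_zero]
    · exact h a haS b hbS hab
  have h1 := congrArg (fun q => q.coeff k) hfinal
  simp only [coeff_map, coeff_zero] at h1
  have h2 : PW.coeff k = 1 := by
    apply Subtype.ext
    rw [hPWc, hP₁, hcoef, hc₀]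
    exact inv_mul_cancel₀ (mul_ne_zero hpk (pow_ne_zero _ hu))
  rw [h2, map_one] at h1
  exact one_ne_zero h1

end

end Pool.Agent.R410.OR
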